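import Pool.Agent.MP_61ef33_al.Ctr.St

set_option autoImplicit false

namespace Pool.Agent.MP_61ef33_al.Ctr

open Air

/-- the exponent of a word in one generator -/
def d_Base {S : Type} : List (S × Bool) → ℤ
  | [] => 0
  | a :: W => d_Base W + (if a.2 then -1 else 1)

theorem abs_Base {S : Type} (W : List (S × Bool)) : (d_Base W).natAbs ≤ W.length := by
  induction W with
  | nil => simp [d_Base]
  | cons a W ih => simp only [d_Base, List.length_cons]; split_ifs <;> omega

theorem int_Base {ε : ℝ} (hε : 0 < ε) : Sm (fun k : ℤ => k) fun k => ε * (k.natAbs : ℝ) := by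
  have h0 : Summable fun n : ℕ => Real.exp (-(ε * n)) := by
    have := summable_geometric_of_lt_one (Real.exp_pos (-ε)).le
      (Real.exp_lt_one_iff.2 (neg_lt_zero.2 hε))
    refine this.congr fun n => ?_
    rw [← Real.exp_nat_mul]
    congr 1
    ring
  have h : Summable fun z : ℤ => Real.exp (-(ε * (z.natAbs : ℝ))) := by
    refine Summable.of_nat_of_neg ?_ ?_
    · simpa using h0
    · simpa using h0
  refine ⟨fun z => ENNReal.ofReal (Real.exp (-(ε * (z.natAbs : ℝ)))), ?_, fun _ => le_rfl⟩
  rw [← ENNReal.ofReal_tsum_of_nonneg (fun _ => (Real.exp_pos _).le) h]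
  exact ENNReal.ofReal_ne_top

theorem ev_Base {S : Type} (A : KP S) (hS : Subsingleton S) (W : List (S × Bool)) :
    A.ga.ev W = A.ga.gen (A.sg, false) ^ d_Base W := by
  induction W with
  | nil => simp [d_Base]
  | cons a W ih =>
    obtain ⟨s, e⟩ := a
    obtain rfl : s = A.sg := hS.elim _ _
    rw [GA.ev_cons, ih, d_Base, zpow_add]
    cases e
    · simp
    · simp only [if_true, zpow_neg, zpow_one, GA.gen_inv]
      rfl

theorem sBase : SBase := by
  intro S A hS ε hε
  refine ((int_Base hε).comp fun W : {W : List (S × Bool) // ∀ a ∈ W, a.1 ∈ Set.univ} =>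
    d_Base W.1).det (fun W W' h => ?_) 0 fun W => ?_
  · rw [ev_Base A hS, ev_Base A hS, h]
  · rw [add_zero]
    exact mul_le_mul_of_nonneg_left (by exact_mod_cast abs_Base W.1) hε.le

end Pool.Agent.MP_61ef33_al.Ctr
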