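import Pool.Agent.MP_61ef33_al.Ctr.St

/- The labels number the fibres. -/

set_option autoImplicit false

namespace Pool.Agent.MP_61ef33_al.Ctr

open Air

variable {S : Type}

open Classical in
theorem sd_neg_Bij {D : Set S} {w : ℂ} (h : (if D = ∅ then w.im else w.re) ≠ 0) :
    RC.sd D (-w) = !RC.sd D w := by
  unfold RC.sd
  by_cases hj : D = ∅
  · simp only [hj, if_true, Complex.neg_im] at h ⊢
    rcases lt_or_gt_of_ne h with a | a
    · simp [a, a.le]
    · simp [a, a.le]
  · simp only [hj, if_false, Complex.neg_re] at h ⊢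
    rcases lt_or_gt_of_ne h with a | a
    · simp [a, a.le]
    · simp [a, a.le]

theorem inj_Bij (Q : RC S) (m : ℕ) : ∀ (D : Set S) (z z' : ℂ), (qc Q.c)^[m] z ∈ Q.O D →
    (qc Q.c)^[m] z' = (qc Q.c)^[m] z → Q.U m D z' = Q.U m D z → z' = z := by
  induction m with
  | zero => intro D z z' _ e _; simpa using e
  | succ m ih =>
    intro D z z' ho e hu
    rw [Function.iterate_succ_apply'] at ho
    rw [Function.iterate_succ_apply', Function.iterate_succ_apply'] at e
    obtain ⟨h1, h2⟩ := Q.markov ho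
    simp only [RC.U, List.cons.injEq] at hu
    obtain ⟨hs, ht⟩ := hu
    have e2 : ((qc Q.c)^[m] z') ^ 2 = ((qc Q.c)^[m] z) ^ 2 := by
      simpa [qc] using e
    have e3 : (qc Q.c)^[m] z' = (qc Q.c)^[m] z := by
      rcases sq_eq_sq_iff_eq_or_eq_neg.1 e2 with a | a
      · exact a
      · rw [a, sd_neg_Bij h1] at hs
        simp at hs
    rw [hs] at ht
    cases hb : RC.sd D ((qc Q.c)^[m] z) with
    | true =>
      rw [hb] at ht h2
      exact ih _ z z' h2 e3 (by simpa using ht)
    | false =>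
      rw [hb] at ht h2
      exact ih _ z z' h2 e3 ((Q.Rf _).injective (by simpa [Q.Rf_apply] using ht))

theorem surj_Bij (Q : RC S) (m : ℕ) : ∀ (D : Set S) (t : ℂ) (v : List Bool), t ∈ Q.O D →
    v.length = m → ∃ z, (qc Q.c)^[m] z = t ∧ Q.U m D z = v := by
  induction m with
  | zero =>
    intro D t v _ hv
    exact ⟨t, rfl, (List.length_eq_zero_iff.1 hv).symm⟩
  | succ m ih =>
    intro D t v ht hv
    obtain ⟨b, v, rfl⟩ := List.exists_cons_of_length_eq_add_one hv
    have hv' : v.length = m := by simpa using hv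
    obtain ⟨w0, hw0⟩ := IsAlgClosed.exists_pow_nat_eq (t - Q.c) (n := 2) (by norm_num)
    have q0 : qc Q.c w0 = t := by simp [qc, hw0]
    have q1 : qc Q.c (-w0) = t := by simp [qc, hw0]
    obtain ⟨w, hw, hb⟩ : ∃ w, qc Q.c w = t ∧ RC.sd D w = b := by
      by_cases e : RC.sd D w0 = b
      · exact ⟨w0, q0, e⟩
      · refine ⟨-w0, q1, ?_⟩
        rw [sd_neg_Bij (Q.markov (q0 ▸ ht)).1]
        revert e
        cases b <;> cases RC.sd D w0 <;> simp
    have h2 := (Q.markov (hw ▸ ht)).2
    rw [hb] at h2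
    cases b with
    | true =>
      obtain ⟨z, e1, e2⟩ := ih _ w v h2 hv'
      refine ⟨z, by rw [Function.iterate_succ_apply', e1, hw], ?_⟩
      simp [RC.U, e1, hb, e2]
    | false =>
      obtain ⟨z, e1, e2⟩ := ih _ w (Q.r v (Q.ph false D)) h2 (by rw [Q.r_length, hv'])
      refine ⟨z, by rw [Function.iterate_succ_apply', e1, hw], ?_⟩
      simp [RC.U, e1, hb, e2, Q.r_r]

theorem sBij : SBij := by
  intro S Q D t ht
  constructor
  · rintro ⟨⟨m, z⟩, hz⟩ ⟨⟨m', z'⟩, hz'⟩ e
    simp only at e hz hz'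
    have hm : m = m' := by
      have := congrArg List.length e
      rwa [Q.U_length, Q.U_length] at this
    subst hm
    have := inj_Bij Q m D z' z (hz' ▸ ht) (hz.trans hz'.symm) e
    subst this
    rfl
  · intro v
    obtain ⟨z, e1, e2⟩ := surj_Bij Q v.length D t v ht rfl
    exact ⟨⟨(v.length, z), e1⟩, e2⟩

end Pool.Agent.MP_61ef33_al.Ctr
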