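import Pool.Agent.MP_61ef33_al.Ctr.St

set_option autoImplicit false

namespace Pool.Agent.MP_61ef33_al.Ctr

open Air

theorem pow_CaseA (n c : ℕ) : ∃ j, n ≤ 2 ^ j + c ∧ 2 ^ j ≤ 2 * n + 1 := by
  rcases Nat.eq_zero_or_pos n with rfl | h
  · exact ⟨0, by simp, by simp⟩
  · refine ⟨Nat.log 2 n + 1, ?_, ?_⟩
    · have := Nat.lt_pow_succ_log_self (b := 2) (by norm_num) n
      rw [Nat.succ_eq_add_one] at this
      omega
    · have := Nat.pow_log_le_self 2 h.ne'
      rw [pow_succ]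
      omega

theorem sCaseA (hSm : SSm) (hLv : SLv) : SCaseA := by
  intro S I _ A C hO hX ε hε
  obtain ⟨L1, L2, L3, -⟩ := hLv S I A C
  obtain ⟨K1, hK1, h1⟩ := hSm.1 _ _ _ _ (hX (C.c3 + 1) ε hε)
  obtain ⟨K2, hK2, h2⟩ := hSm.1 _ _ _ _ (Sm.fin (id : Bool → Bool))
  choose j hj1 hj2 using fun t : {t : WT S I // C.Perf t} => pow_CaseA (C.n t.1) C.c3
  obtain ⟨g, hg⟩ : ∃ g : {t : WT S I // C.Perf t} → List {t : WT S I // C.n t ≤ C.c3 + 1},
      ∀ t, (g t).map Subtype.val = C.lv (j t) t.1 :=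
    ⟨fun t => (C.lv (j t) t.1).pmap Subtype.mk (L2 hO _ _ t.2 (hj1 t)), fun t => by
      simp [List.map_pmap]⟩
  have e1 : ∀ t, (g t).map (fun u => A.ev u.1.W) = (C.lv (j t) t.1).map fun u => A.ev u.W :=
    fun t => by rw [← hg, List.map_map]; rfl
  refine ⟨2 * (K1 + K2), by positivity,
    ((h2.comp fun t => C.bits (j t) t.1).pair (h1.comp g)).det ?_ (K1 + K2) ?_⟩
  · intro a a' h
    obtain ⟨ha, hb⟩ := Prod.mk.inj h
    rw [List.map_id, List.map_id] at ha
    rw [e1, e1] at hb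
    have hjj : j a = j a' := by
      have := congrArg List.length hb
      rw [List.length_map, List.length_map, (L1 _ _).1, (L1 _ _).1] at this
      exact Nat.pow_right_injective le_rfl this
    rw [← hjj] at ha hb
    exact L3 _ _ _ ha hb
  · intro a
    obtain ⟨a1, a2, a3⟩ := L1 (j a) a.1
    have b1 : ((g a).length : ℝ) ≤ 2 * (C.n a.1 : ℝ) + 1 := by
      have : (g a).length ≤ 2 * C.n a.1 + 1 := by
        rw [← List.length_map (f := Subtype.val), hg, a1]; exact hj2 a
      exact_mod_cast this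
    have b2 : ((C.bits (j a) a.1).length : ℝ) ≤ 2 * (C.n a.1 : ℝ) + 1 := by
      have : (C.bits (j a) a.1).length ≤ 2 * C.n a.1 + 1 := by have := hj2 a; omega
      exact_mod_cast this
    have b3 : ((g a).map fun u => ε * (C.len u.1 : ℝ)).sum ≤ ε * C.len a.1 := by
      rw [List.sum_map_mul_left]
      refine mul_le_mul_of_nonneg_left ?_ hε.le
      rw [← hg, List.map_map] at a3
      have a4 : ((((g a).map (C.len ∘ Subtype.val)).sum : ℕ) : ℝ) ≤ C.len a.1 := by
        exact_mod_cast a3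
      rw [Nat.cast_list_sum, List.map_map] at a4
      exact a4
    have b4 : ((C.bits (j a) a.1).map fun _ => (0 : ℝ)).sum = 0 := by simp
    have b5 := mul_le_mul_of_nonneg_left b1 hK1
    have b6 := mul_le_mul_of_nonneg_left b2 hK2
    simp only [b4]
    linarith

end Pool.Agent.MP_61ef33_al.Ctr
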