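import Pool.Agent.MP_61ef33_al.Ctr.St

set_option autoImplicit false

namespace Pool.Agent.MP_61ef33_al.Ctr

open Air

theorem sum_CaseB {α : Type} (l : List α) (f : α → ℕ) (e : ℝ) :
    (l.map fun a => e * (f a : ℝ)).sum = e * ((l.map f).sum : ℕ) := by
  induction l with
  | nil => simp
  | cons a l ih => simp only [List.map_cons, List.sum_cons, ih, Nat.cast_add, mul_add]

open Classical in
theorem sCaseB (hSm : SSm) (hLv : SLv) (hKey : SKey) : SCaseB := by
  intro S I _ A C hO hX ε hε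
  obtain ⟨Ξ, hΞ, hS⟩ := hSm.2.1 _ _ _ _ (hX (C.c3 + 1) (ε / 2) (by positivity))
    (fun a => by positivity) (ε / 2) (by positivity)
  obtain ⟨c0, hc0⟩ := KA.exists_sep hΞ
  obtain ⟨l1, l2, -, -⟩ := hLv S I A C
  refine ⟨2 ^ (c0 + C.L + 1) * (3 + C.c3), fun m => (C.lv (Nat.log 2 (C.n m)) m).map
    fun u => if A.ev u.W ∈ Ξ then none else some (A.ev u.W), ?_, ?_⟩
  · have hL : ∀ m : {m : WT S I // C.Perf m ∧ ∃ j, C.n m = 2 ^ j},
        ∃ L : List {t : WT S I // C.n t ≤ C.c3 + 1},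
          L.map Subtype.val = C.lv (Nat.log 2 (C.n m.1)) m.1 := by
      rintro ⟨m, hm, j, hj⟩
      have h := l2 hO (Nat.log 2 (C.n m)) m hm (by
        rw [hj, Nat.log_pow (by norm_num)]
        exact Nat.le_add_right _ _)
      exact ⟨(C.lv (Nat.log 2 (C.n m)) m).attachWith _ h, List.attachWith_map_subtype_val h⟩
    choose L hL using hL
    refine (hS.comp L).det (fun a a' e => ?_) 0 fun a => ?_
    · simp only [← hL, List.map_map]
      exact e
    · obtain ⟨j, hj⟩ := a.2.2
      obtain ⟨k1, -, k3⟩ := l1 (Nat.log 2 (C.n a.1)) a.1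
      rw [← hL a] at k1 k3
      rw [List.length_map, hj, Nat.log_pow (by norm_num), ← hj] at k1
      rw [List.map_map] at k3
      have k4 : (((L a).map fun t => C.len t.1).sum : ℝ) ≤ C.len a.1 := by exact_mod_cast k3
      have k5 : ((L a).length : ℝ) ≤ C.len a.1 := by
        rw [k1]
        exact_mod_cast C.n_le_len a.1
      rw [sum_CaseB (L a) (fun t => C.len t.1) (ε / 2)]
      nlinarith
  · intro P Y m m' j j' h1 h2 hj hj' hP hY e
    simp only [hj, hj', Nat.log_pow (by norm_num : 1 < 2)] at e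
    have e1 := congrArg List.length e
    rw [List.length_map, List.length_map, (l1 j m).1, (l1 j' m').1] at e1
    obtain rfl : j = j' := Nat.pow_right_injective le_rfl e1
    have e2 : 2 ^ (j + c0 + C.L + 1) * (3 + C.c3) = 2 ^ (c0 + C.L + 1) * (3 + C.c3) * 2 ^ j := by
      ring
    exact hKey S I A C hO Ξ c0 hc0 j P m m' Y h1 h2 (hj.trans hj'.symm) (e2 ▸ hP) (e2 ▸ hY) e

end Pool.Agent.MP_61ef33_al.Ctr
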