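import Pool.Agent.MP_61ef33_al.Ctr.St

set_option autoImplicit false

namespace Pool.Agent.MP_61ef33_al.Ctr

section
variable {S : Type} (A : KP S)

theorem sg_Cut (xs : List Bool) {F : S → Bool} (hF : F A.sg = false) :
    xs.foldl A.step F A.sg = false := by
  induction xs generalizing F with
  | nil => exact hF
  | cons x xs ih => exact ih (by simp [KP.step])

theorem cyc_Cut {F : S → Bool} {xs : List Bool} {n : ℕ} (hn : xs.length = n + 1)
    (hw : xs.foldl A.step F = F) (k : ZMod (n + 1)) : (xs.take k.val).foldl A.step F =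
      A.step ((xs.take (k - 1).val).foldl A.step F) (xs.getD (k - 1).val false) := by
  have hm : (k - 1).val < n + 1 := ZMod.val_lt _
  have hk : k.val = ((k - 1).val + 1) % (n + 1) := by
    conv_lhs => rw [show k = (k - 1) + 1 by ring]
    rw [ZMod.val_add, ZMod.val_one_eq_one_mod]
    simp
  set m := (k - 1).val
  have h1 : (xs.take (m + 1)).foldl A.step F =
      A.step ((xs.take m).foldl A.step F) (xs.getD m false) := by
    rw [List.take_add_one, List.getD_eq_getElem _ _ (by omega),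
      List.getElem?_eq_getElem (by omega), List.foldl_append]
    rfl
  rw [← h1, hk]
  by_cases h : m + 1 < n + 1
  · rw [Nat.mod_eq_of_lt h]
  · have : m + 1 = n + 1 := by omega
    rw [this, Nat.mod_self, ← hn, List.take_length, hw]
    rfl

theorem cs_Cut {F : S → Bool} (hF : F A.sg = false) {xs ys : List Bool} {L : ℕ}
    (a1 : xs.length = L + 1) (a2 : xs.foldl A.step F = F) (b1 : ys.length = L + 1 + 1)
    (b2 : ys.foldl A.step F = F) : ∃ (I : Type) (_ : Fintype I) (C : A.ga.CS I),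
      (∀ a, C.om a = 1) ∧ (∀ a, C.F C.i1 a = F a.1) ∧
      ∀ k, k ≤ L → C.x (C.pa.symm^[k + 1] C.i1) = ys.getD k false := by
  classical
  let pa : ZMod (L + 1) ⊕ ZMod (L + 1 + 1) ≃ ZMod (L + 1) ⊕ ZMod (L + 1 + 1) :=
    Equiv.sumCongr (Equiv.subRight 1) (Equiv.subRight 1)
  have it0 : ∀ (m : ℕ) k, pa^[m] (Sum.inl k) = Sum.inl (k - m) := by
    intro m
    induction m with
    | zero => simp
    | succ m ih => intro k; rw [Function.iterate_succ_apply', ih]; simp [pa, sub_sub]
  have it1 : ∀ (m : ℕ) k, pa^[m] (Sum.inr k) = Sum.inr (k - m) := by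
    intro m
    induction m with
    | zero => simp
    | succ m ih => intro k; rw [Function.iterate_succ_apply', ih]; simp [pa, sub_sub]
  have it2 : ∀ (m : ℕ) k, pa.symm^[m] (Sum.inr k) = Sum.inr (k + m) := by
    intro m
    induction m with
    | zero => simp
    | succ m ih => intro k; rw [Function.iterate_succ_apply', ih]; simp [pa, add_assoc]
  let F0 : ZMod (L + 1) ⊕ ZMod (L + 1 + 1) → S → Bool :=
    Sum.elim (fun k => (xs.take k.val).foldl A.step F) fun k => (ys.take k.val).foldl A.step F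
  let x : ZMod (L + 1) ⊕ ZMod (L + 1 + 1) → Bool :=
    Sum.elim (fun k => xs.getD (k - 1).val false) fun k => ys.getD (k - 1).val false
  have h0 : ∀ i, F0 i A.sg = false := by
    rintro (k | k) <;> exact sg_Cut A _ hF
  have h1 : ∀ i, F0 i = A.step (F0 (pa i)) (x i) := by
    rintro (k | k)
    · exact cyc_Cut A a1 a2 k
    · exact cyc_Cut A b1 b2 k
  refine ⟨ZMod (L + 1) ⊕ ZMod (L + 1 + 1), inferInstance, ⟨fun i a => F0 i a.1, pa, x,
    fun i => F0 (pa i) (A.nx A.sg) && (A.cl A.sg == x i), fun _ => 1, fun i s hs => ?_,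
    fun i y s t h => ?_, fun _ => le_rfl, fun s => ?_, Sum.inl 0, Sum.inr 0, Sum.inr 1, L + 1,
    by simp [F0], by simp [pa], ?_, ?_⟩, fun _ => rfl, fun a => by simp [F0], fun k hk => ?_⟩
  · rw [A.isg_eq, decide_eq_true_eq] at hs
    rw [hs, h0]
  · obtain ⟨e1, -, e3⟩ := A.prev_eq_some.1 h
    rw [h1 i, KP.step, e1]
    cases hs : A.ga.isg s
    · rw [e3, hs, Bool.false_and, Bool.xor_false]
    · rw [A.isg_eq, decide_eq_true_eq] at hs
      rw [hs, h0, Bool.false_and, Bool.false_and]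
  · simp only [KP.ga]
    generalize A.cl (A.nx.symm s.1) = c
    generalize (@decide (s.1 = A.sg) (Classical.propDecidable _) && s.2) = d
    cases c <;> cases d <;> simp
  · rw [it0]; simp
  · rw [it1]
    congr 1
    have : ((L + 1 + 1 : ℕ) : ZMod (L + 1 + 1)) = 0 := ZMod.natCast_self _
    push_cast at this ⊢
    linear_combination -this
  · change x (pa.symm^[k + 1] (Sum.inr 0)) = _
    rw [it2]
    have : (0 + ((k + 1 : ℕ) : ZMod (L + 1 + 1)) - 1).val = k := by
      rw [zero_add, Nat.cast_succ, add_sub_cancel_right, ZMod.val_cast_of_lt (by omega)]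
    simp only [x, Sum.elim_inr, this]

end

theorem sCut (hOrd : SOrd) (hUp : SUp) (hMix : SMix) (hOdd : SOdd) : SCut := by
  intro S _ A pt R p hU hM hP hp
  obtain ⟨k, rfl⟩ : ∃ k, p = k + 2 := ⟨p - 2, by omega⟩
  obtain ⟨-, o1, o2⟩ := hOrd S A
  obtain ⟨o2, o3, -⟩ := o2 pt hU
  obtain ⟨u1, u2⟩ := hUp S A pt R hU hM
  obtain ⟨N0, hN⟩ := hMix S A pt R hU hM
  have hc := hM.cong
  have u3 : ∀ m F, A.UpC R pt F →
      A.UpC R pt ((List.replicate m (A.cl A.sg)).foldl A.step F) := fun m => by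
    induction m with
    | zero => exact fun F h => h
    | succ m ih => exact fun F h => ih _ (u2 F h).1
  obtain ⟨xs, a1, a2⟩ := hN (N0 + k + 1) (by omega) _ u1
  obtain ⟨ys, b1, b2⟩ := hN (N0 + 1) (by omega) _ (u3 (k + 1) _ u1)
  obtain ⟨I, hI, C, c1, c2, c3⟩ := cs_Cut A u1.sg (ys := List.replicate (k + 1) (A.cl A.sg) ++ ys)
    a1 a2 (by simp [b1]; omega) (by rw [List.foldl_append, b2])
  have hisg : ∀ m (s : S × Bool), 1 ≤ m → m ≤ k → R (A.nx^[m] s.1) A.sg → A.ga.isg s = false :=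
    fun m s h1 h2 h => by
      rw [A.isg_eq, decide_eq_false_iff_not]
      exact fun e => hP.min m h1 (by omega) (e ▸ h)
  refine ⟨I, hI, C, c1, c2, hOdd _ I A.ga C k (fun m a => R (A.nx^[m] a.1) A.sg) (by omega)
    (fun s h => by simpa [c2, KP.cut] using h) (fun m y s t h e => ?_) hisg fun s h => ?_⟩
  · rwa [Function.iterate_succ_apply, (A.prev_eq_some.1 e).1]
  rw [c3 k (by omega), List.getD_append _ _ _ _ (by simp), List.getD_eq_getElem _ _ (by simp),
    List.getElem_replicate, Option.eq_none_iff_forall_ne_some]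
  intro b e
  obtain ⟨e1, -, e3⟩ := A.prev_eq_some.1 e
  rw [hisg k s (by omega) le_rfl h, Bool.false_and, Bool.xor_false] at e3
  have back : ∀ m s t, R (A.nx^[m] s) (A.nx^[m] t) → R s t := fun m => by
    induction m with
    | zero => exact fun s t h => h
    | succ m ih => exact fun s t h => o1 R hc s t (ih _ _ h)
  have r1 : R b.1 (A.nx A.sg) := back (k + 1) _ _ (hc.eqv.trans
    (by rwa [Function.iterate_succ_apply, e1]) (hc.eqv.symm hP.per))
  have r2 : ¬ R (A.nx A.sg) A.z := fun h => hP.min 2 (by omega) (by omega) (by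
    have := hc.nx _ _ h
    rwa [A.nx_z] at this)
  have r3 : A.sg ≠ A.z := fun h => hP.min 1 (by omega) (by omega) (by
    rw [Function.iterate_one, (congrArg A.nx h).trans A.nx_z]
    exact hc.eqv.refl _)
  have r4 := hc.cl _ _ r1 fun h => r2 (hc.eqv.trans (hc.eqv.symm r1) h)
  have r5 := (hU.cl_eq (A.nx A.sg) A.sg (fun h => r2 (h ▸ hc.eqv.refl _)) r3).1 (r4.symm.trans e3)
  exact (o3 A.z).not_gt (r5.2 ((o2 A.z).lt_of_ne fun h => r3 (hU.inj h)))

end Pool.Agent.MP_61ef33_al.Ctr
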