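import Pool.Agent.MP_61ef33_al.Ctr.St

/- Words with boundedly many stays grow subexponentially. -/

set_option autoImplicit false

namespace Pool.Agent.MP_61ef33_al.Ctr

open Air

theorem zero_HX {T : Type} (F : T → Bool) (W : List T) (a b : Bool)
    (h : crs a (W.map F) b ≤ 0) : ∀ s ∈ W, F s = a := by
  induction W with
  | nil => simp
  | cons s W ih =>
    rw [List.map_cons, crs_cons] at h
    have e : F s = a := by
      by_contra hne
      have : bd a (F s) = 1 := if_neg fun e => hne e.symm
      omega
    rw [e, bd_self, zero_add] at h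
    intro u hu
    rcases List.mem_cons.1 hu with rfl | hu
    · exact e
    · exact ih h u hu

theorem split_HX {T : Type} (F : T → Bool) (c : ℕ) (W : List T) (a b : Bool)
    (h : crs a (W.map F) b ≤ c + 1) : ∃ p : List T × List T, W = p.1 ++ p.2 ∧
      (∀ s ∈ p.1, F s = a) ∧ ∃ b', crs (!a) (p.2.map F) b' ≤ c := by
  induction W with
  | nil => exact ⟨([], []), rfl, by simp, !a, by simp⟩
  | cons s W ih =>
    rw [List.map_cons, crs_cons] at h
    by_cases e : F s = a
    · rw [e, bd_self, zero_add] at h
      obtain ⟨p, h1, h2, h3⟩ := ih h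
      refine ⟨(s :: p.1, p.2), by rw [h1]; rfl, fun u hu => ?_, h3⟩
      rcases List.mem_cons.1 hu with rfl | hu
      · exact e
      · exact h2 u hu
    · have e1 : bd a (F s) = 1 := if_neg fun e' => e e'.symm
      have e2 : F s = !a := by revert e; cases F s <;> cases a <;> simp
      refine ⟨([], s :: W), rfl, by simp, b, ?_⟩
      rw [e1] at h
      rw [List.map_cons, crs_cons, ← e2, bd_self]
      omega

theorem ind_HX {S : Type} (A : KP S) (F : S → Bool) (h : ∀ b, A.Sub {s | F s = b}) (ε : ℝ)
    (hε : 0 < ε) (c : ℕ) (a : Bool) :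
    Sm (fun W : {W : List (S × Bool) // ∃ b, crs a (W.map fun s => F s.1) b ≤ c} => A.ga.ev W.1)
      fun W => ε * W.1.length := by
  induction c generalizing a with
  | zero =>
    exact (h a ε hε).comp fun W : {W : List (S × Bool) //
      ∃ b, crs a (W.map fun s => F s.1) b ≤ 0} =>
        ⟨W.1, zero_HX (fun s : S × Bool => F s.1) W.1 a _ W.2.choose_spec⟩
  | succ c ih =>
    have H := fun W : {W : List (S × Bool) // ∃ b, crs a (W.map fun s => F s.1) b ≤ c + 1} =>
      split_HX (fun s : S × Bool => F s.1) c W.1 a _ W.2.choose_spec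
    choose p h1 h2 h3 using H
    refine (((h a ε hε).comp fun W => ⟨(p W).1, h2 W⟩).pair
      ((ih (!a)).comp fun W => ⟨(p W).2, h3 W⟩)).det (fun W W' e => ?_) 0 fun W => ?_
    · simp only [Prod.mk.injEq] at e
      rw [h1 W, h1 W', GA.ev_append, GA.ev_append, e.1, e.2]
    · have : (W.1.length : ℝ) = (p W).1.length + (p W).2.length := by
        rw [h1 W, List.length_append, Nat.cast_add]
      simp only [this]
      linarith

theorem sHX (hSm : SSm) : SHX := by
  intro S I _ A C F hom hF h
  have hl : ∀ t : WT (S × Bool) I, t.W.length ≤ C.len t := fun t => by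
    have : C.ws t.W = t.W.length := by
      have e : C.om = fun _ => 1 := funext hom
      simp [GA.CS.ws, e]
    unfold GA.CS.len
    omega
  refine ⟨fun c ε hε => ?_, 1, fun t => ⟨t.W, rfl, by have := hl t; omega⟩⟩
  have e : C.F C.i1 = fun s => F s.1 := funext hF
  have key : ∀ (a : Bool) (B : Type) (g : B → WT (S × Bool) I), (∀ x, C.n (g x) ≤ c) →
      (∀ x, (g x).a C.i1 = a) → Sm (fun x => A.ga.ev (g x).W) fun x => ε * C.len (g x) := by
    intro a B g h1 h2
    refine ((ind_HX A F h ε hε c a).comp fun x : B => ⟨(g x).W, (g x).b C.i1, ?_⟩).det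
      (fun _ _ e => e) 0 fun x => ?_
    · rw [← e, ← h2 x]
      exact h1 x
    · have : ((g x).W.length : ℝ) ≤ C.len (g x) := by exact_mod_cast hl (g x)
      rw [add_zero]
      exact mul_le_mul_of_nonneg_left this hε.le
  refine hSm.2.2 _ _ _ _ (fun t => t.1.a C.i1 = true) ?_ ?_
  · exact key true _ (fun t : {t : {t : WT (S × Bool) I // C.n t ≤ c} // t.1.a C.i1 = true} =>
      t.1.1) (fun t => t.1.2) fun t => t.2
  · exact key false _
      (fun t : {t : {t : WT (S × Bool) I // C.n t ≤ c} // ¬ t.1.a C.i1 = true} => t.1.1)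
      (fun t => t.1.2) fun t => Bool.eq_false_iff.2 t.2

end Pool.Agent.MP_61ef33_al.Ctr
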