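import Pool.Agent.MP_61ef33_al.Ctr.St

/- The rate of incompressible elements can always be lowered. -/

set_option autoImplicit false

namespace Pool.Agent.MP_61ef33_al.Ctr

open Air

section

variable {S I : Type} [Fintype I] {A : GA S} (C : A.CS I)

/-- a decomposition of an incompressible element with a middle part of size a power of two -/
structure Dec_Inc (K0 j : ℕ) (x : A.XT I) (P m Y : WT S I) : Prop where
  ex : x = A.cls (P.comp (m.comp Y))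
  tri : C.Tri P m Y
  iP : ∀ E, nD C.nrm C.ch E (A.cls P) = C.nrm (A.cls P)
  iY : ∀ E, nD C.nrm C.ch E (A.cls Y) = C.nrm (A.cls Y)
  lP : C.len P = C.nrm (A.cls P)
  lY : C.len Y = C.nrm (A.cls Y)
  tot : C.len P + C.len m + C.len Y = C.nrm x
  nm : C.n m = 2 ^ j
  nP : K0 * 2 ^ j ≤ C.n P
  nY : K0 * 2 ^ j ≤ C.n Y

theorem geo_perf_Inc {x : A.XT I} (hx : ∀ E, nD C.nrm C.ch E x = C.nrm x) : C.Perf (C.geo x) :=
  C.perf_of_inc (C.nrm_geo x) (by rw [C.cls_geo]; exact hx)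

theorem dec_Inc (hLv : SLv) (K0 j : ℕ) {x : A.XT I} (hx : ∀ E, nD C.nrm C.ch E x = C.nrm x)
    (h : (2 * K0 + 1) * 2 ^ j ≤ C.n (C.geo x)) : ∃ P m Y, Dec_Inc C K0 j x P m Y := by
  have e0 : (2 * K0 + 1) * 2 ^ j = K0 * 2 ^ j + K0 * 2 ^ j + 2 ^ j := by ring
  rw [e0] at h
  obtain ⟨u, hu⟩ : ∃ u, u = K0 * 2 ^ j := ⟨_, rfl⟩
  obtain ⟨q, hq⟩ : ∃ q, q = 2 ^ j := ⟨_, rfl⟩
  rw [← hu, ← hq] at h
  obtain ⟨P, R, e, h1, h2⟩ := (hLv S I A C).2.2.2 (C.geo x) u (by omega)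
  have hg := C.nrm_geo x
  have hi : ∀ E, nD C.nrm C.ch E (A.cls (C.geo x)) = C.nrm (A.cls (C.geo x)) := by
    rw [C.cls_geo]; exact hx
  have hpf := geo_perf_Inc C hx
  have hk : C.len (C.geo x) = C.nrm x := rfl
  have ex : x = A.cls (P.comp R) := by rw [← e, C.cls_geo]
  rw [e] at hg hi hpf hk h
  have hp := C.geo_pieces h1 hg
  have hi1 := C.inc_pieces h1 hg hi
  have n1 : C.n (P.comp R) = C.n P + C.n R := h1.cr C.i1
  obtain ⟨m, Y, e', h4, h5⟩ := (hLv S I A C).2.2.2 R q (by omega)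
  subst e'
  have hp' := C.geo_pieces h4 hp.2
  have hi2 := C.inc_pieces h4 hp.2 hi1.2
  have n2 : C.n (m.comp Y) = C.n m + C.n Y := h4.cr C.i1
  have l1 := h1.2
  have l2 := h4.2
  exact ⟨P, m, Y, ex, ⟨h4, h1, hpf⟩, hi1.1, hi2.2, hp.1, hp'.2, by omega, h5.trans hq,
    by rw [← hu]; omega, by rw [← hu]; omega⟩

theorem swap_Inc {K0 j j' : ℕ} {x x' : A.XT I} {P m Y P' m' Y' : WT S I}
    (hx' : ∀ E, nD C.nrm C.ch E x' = C.nrm x') (h : Dec_Inc C K0 j x P m Y)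
    (h' : Dec_Inc C K0 j' x' P' m' Y') (eP : A.cls P = A.cls P') (eY : A.cls Y = A.cls Y') :
    C.Tri P m' Y ∧ x' = A.cls (P.comp (m'.comp Y)) := by
  have ex : x' = A.cls (P.comp (m'.comp Y)) :=
    h'.ex.trans (A.cls_comp eP.symm (A.cls_comp rfl eY.symm))
  have b1 : P.b = (m'.comp Y).a := (A.cls_eq.1 eP).2.2.trans h'.tri.ad1.1
  have b2 : m'.b = Y.a := h'.tri.ad2.1.trans (A.cls_eq.1 eY).1.symm
  have l1 := C.len_comp_le b1
  have l2 := C.len_comp_le b2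
  have l3 := C.nrm_le (P.comp (m'.comp Y))
  rw [← ex] at l3
  have a1 := h.lP
  have a2 := h.lY
  have a3 := h'.lP
  have a4 := h'.lY
  have a5 := h'.tot
  rw [← eP] at a3
  rw [← eY] at a4
  refine ⟨⟨⟨b2, by omega⟩, ⟨b1, by omega⟩, C.perf_of_inc (by rw [← ex]; omega) ?_⟩, ex⟩
  rw [← ex]; exact hx'

end

theorem sInc (hSm : SSm) (hRate : SRate) (hLv : SLv) (hA : SCaseA) (hB : SCaseB) : SInc := by
  intro S I _ A C hO hX τ hτ hr
  obtain ⟨K, hK, hA1⟩ := hA S I A C hO hX (τ / 4) (by positivity)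
  obtain ⟨K0, ψ, hB1, hB2⟩ := hB S I A C hO hX (τ / 2) (by positivity)
  obtain ⟨lam, hlam⟩ : ∃ lam : ℝ, lam = τ / (4 * (K + 1)) := ⟨_, rfl⟩
  have hl0 : 0 < lam := by rw [hlam]; positivity
  have hKl : K * lam ≤ τ / 4 := by
    have : (K + 1) * lam = τ / 4 := by rw [hlam]; field_simp
    nlinarith
  obtain ⟨η, hη⟩ : ∃ η : ℝ, η = min (τ / 2) (τ / 2 * (lam / (2 * (2 * K0 + 1)))) := ⟨_, rfl⟩
  have hη0 : 0 < η := by rw [hη]; exact lt_min (by positivity) (by positivity)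
  have hη1 : η ≤ τ / 2 := by rw [hη]; exact min_le_left _ _
  have hη2 : η ≤ τ / 2 * (lam / (2 * (2 * K0 + 1))) := by rw [hη]; exact min_le_right _ _
  refine ⟨τ - η, by linarith, (hRate _ _ _ _ (by linarith)).2 fun δ hδ => ?_⟩
  have hJ := (hRate _ _ _ _ hτ.le).1 hr δ hδ
  refine hSm.2.2 _ _ _ _
    (fun x => (C.n (C.geo x.1) : ℝ) ≤ lam * C.nrm x.1 + (2 * K0 + 1)) ?_ ?_
  · refine ((Sm.fin fun x => (x.1.1.1, x.1.1.2.2)).pair
      (hA1.comp fun x => ⟨C.geo x.1.1, geo_perf_Inc C x.1.2⟩)).det ?_ (K * (2 * K0 + 1)) ?_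
    · rintro ⟨⟨x, hx⟩, hp⟩ ⟨⟨x', hx'⟩, hp'⟩ e
      simp only [Prod.mk.injEq] at e
      have c1 := C.cls_geo x
      have c2 := C.cls_geo x'
      show x = x'
      refine Prod.ext e.1.1 (Prod.ext (Subtype.ext ?_) e.1.2)
      rw [← c1, ← c2]
      exact e.2
    · rintro ⟨⟨x, hx⟩, hp⟩
      have hk : C.len (C.geo x) = C.nrm x := rfl
      have h0 : (0 : ℝ) ≤ C.nrm x := Nat.cast_nonneg _
      simp only [hk] at hp ⊢
      have h1 := mul_le_mul_of_nonneg_left hp hK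
      have h2 := mul_le_mul_of_nonneg_right hKl h0
      have h3 := mul_le_mul_of_nonneg_right (show τ / 2 ≤ τ - η + δ by linarith) h0
      linarith
  · have hex : ∀ x : {x : {x | ∀ E, nD C.nrm C.ch E x = C.nrm x} //
        ¬ (C.n (C.geo x.1) : ℝ) ≤ lam * C.nrm x.1 + (2 * K0 + 1)},
        ∃ (j : ℕ) (P m Y : WT S I), Dec_Inc C K0 j x.1.1 P m Y ∧
          η * C.nrm x.1.1 ≤ τ / 2 * 2 ^ j := by
      rintro ⟨⟨x, hx⟩, hp⟩
      have hp' : lam * C.nrm x + (2 * K0 + 1) < (C.n (C.geo x) : ℝ) := not_le.1 hp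
      have h0 : (0 : ℝ) ≤ C.nrm x := Nat.cast_nonneg _
      have h1 : 0 ≤ lam * C.nrm x := by positivity
      have h2 : 2 * K0 + 1 ≤ C.n (C.geo x) := by
        have : ((2 * K0 + 1 : ℕ) : ℝ) ≤ C.n (C.geo x) := by push_cast; linarith
        exact_mod_cast this
      have hq : C.n (C.geo x) / (2 * K0 + 1) ≠ 0 := by
        have := (Nat.le_div_iff_mul_le (k := 2 * K0 + 1) (x := 1) (y := C.n (C.geo x))
          (by omega)).2 (by omega)
        omega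
      have j1 := Nat.pow_log_le_self 2 hq
      have j2 := Nat.lt_pow_succ_log_self (b := 2) (by omega) (C.n (C.geo x) / (2 * K0 + 1))
      generalize Nat.log 2 (C.n (C.geo x) / (2 * K0 + 1)) = j at j1 j2
      have j3 := (Nat.le_div_iff_mul_le (by omega)).1 j1
      have j4 := (Nat.div_lt_iff_lt_mul (by omega)).1 j2
      obtain ⟨P, m, Y, hd⟩ := dec_Inc C hLv K0 j hx (by rw [mul_comm]; exact j3)
      refine ⟨j, P, m, Y, hd, ?_⟩
      have j5 : (C.n (C.geo x) : ℝ) ≤ 2 ^ j * (2 * (2 * K0 + 1)) := by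
        have : (C.n (C.geo x) : ℝ) ≤ ((2 ^ (j + 1) * (2 * K0 + 1) : ℕ) : ℝ) := by
          exact_mod_cast j4.le
        push_cast at this
        rw [pow_succ] at this
        linarith
      have h3 : lam / (2 * (2 * K0 + 1)) * C.nrm x ≤ 2 ^ j := by
        rw [div_mul_eq_mul_div, div_le_iff₀ (by positivity)]
        have : (0 : ℝ) ≤ K0 := Nat.cast_nonneg _
        linarith
      have h4 := mul_le_mul_of_nonneg_right hη2 h0
      have h5 := mul_le_mul_of_nonneg_left h3 (show 0 ≤ τ / 2 by positivity)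
      show η * C.nrm x ≤ _
      linarith
    choose j P m Y hd hc using hex
    refine (((hJ.comp fun x => ⟨A.cls (P x), (hd x).iP⟩).pair
      (hJ.comp fun x => ⟨A.cls (Y x), (hd x).iY⟩)).pair
      (hB1.comp fun x => ⟨m x, (hd x).tri.ad2.perf_left
        ((hd x).tri.ad1.perf_right (hd x).tri.perf), j x, (hd x).nm⟩)).det ?_ 0 ?_
    · intro x x' e
      simp only [Prod.mk.injEq] at e
      obtain ⟨⟨eP, eY⟩, eψ⟩ := e
      obtain ⟨t2, e2⟩ := swap_Inc C x'.1.2 (hd x) (hd x') eP eY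
      have t1 := (hd x).tri
      have hev := hB2 _ _ _ _ _ _ t1 t2 (hd x).nm (hd x').nm (hd x).nP (hd x).nY eψ
      show x.1.1 = x'.1.1
      rw [(hd x).ex, e2]
      exact A.cls_comp rfl (A.cls_comp (A.cls_eq.2
        ⟨t1.ad1.1.symm.trans t2.ad1.1, hev, t1.ad2.1.trans t2.ad2.1.symm⟩) rfl)
    · intro x
      have a1 := (hd x).tot
      rw [(hd x).lP, (hd x).lY] at a1
      have a2 : (C.nrm (A.cls (P x)) : ℝ) + C.len (m x) + C.nrm (A.cls (Y x)) = C.nrm x.1.1 := by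
        exact_mod_cast a1
      have a3 : (2 : ℝ) ^ j x ≤ C.len (m x) := by
        have := C.n_le_len (m x)
        rw [(hd x).nm] at this
        exact_mod_cast this
      have a4 := hc x
      have a5 : (0 : ℝ) ≤ C.len (m x) := Nat.cast_nonneg _
      have a6 := mul_le_mul_of_nonneg_left a3 (show 0 ≤ τ / 2 by positivity)
      have a7 := mul_nonneg hδ.le a5
      show (τ + δ) * (C.nrm (A.cls (P x)) : ℝ) + (τ + δ) * (C.nrm (A.cls (Y x)) : ℝ)
        + τ / 2 * (C.len (m x) : ℝ) ≤ (τ - η + δ) * (C.nrm x.1.1 : ℝ) + 0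
      rw [← a2] at a4 ⊢
      nlinarith

end Pool.Agent.MP_61ef33_al.Ctr
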