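import Pool.Agent.MP_61ef33_al.Ctr.St
import Pool.Agent.MP_61ef33_al.Air.Int

set_option autoImplicit false

namespace Pool.Agent.MP_61ef33_al.Ctr

open Air

theorem sIntG : SIntG := by
  classical
  intro S _ A hS hP
  obtain ⟨T, hm⟩ : ∃ T : Finset A.G, ∀ g : A.G, g ∈ T ↔ g.1 ∈ Set.range A.gen :=
    ⟨((Set.finite_range A.gen).preimage Subtype.val_injective.injOn).toFinset,
      fun g => by rw [Set.Finite.mem_toFinset]; rfl⟩
  have hc : Subgroup.closure (T : Set A.G) = ⊤ := by
    rw [show (T : Set A.G) = ((↑) : A.G → Pm) ⁻¹' Set.range A.gen from Set.ext hm]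
    exact Subgroup.closure_closure_coe_preimage
  have hb : ∀ n, Subtype.val '' ball T n ⊆ A.ev '' {W | W.length ≤ n} := by
    rintro n _ ⟨_, ⟨l, h1, h2, rfl⟩, rfl⟩
    induction l generalizing n with
    | nil => exact ⟨[], by simp, rfl⟩
    | cons x l ih =>
      obtain ⟨W, a1, a2⟩ := ih l.length le_rfl fun y hy => h2 y (by simp [hy])
      obtain ⟨s, hs⟩ : ∃ s, A.gen s = x.1 := by
        rcases (h2 x (by simp)).imp (hm _).1 (hm _).1 with h | ⟨s, h⟩
        · exact h
        · exact ⟨A.inv s, by rw [← A.gen_inv, h, Subgroup.coe_inv, inv_inv]⟩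
      refine ⟨W ++ [s], ?_, ?_⟩
      · simp only [Set.mem_ofPred_eq, List.length_cons, List.length_append, List.length_nil]
          at a1 h1 ⊢
        omega
      · rw [List.prod_cons, Subgroup.coe_mul, ← a2, ← hs, A.ev_append]
        simp
  have hb' : ∀ δ : ℝ, 0 < δ → ∀ n : ℕ,
      Subtype.val '' ball T n ⊆ A.ev '' {W | δ * W.length ≤ δ * n} := fun δ hδ n =>
    (hb n).trans (Set.image_mono fun W hW =>
      mul_le_mul_of_nonneg_left (Nat.cast_le.2 hW) hδ.le)
  have hf : ∀ n, (ball T n).Finite := fun n => by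
    obtain ⟨K, _, hK⟩ := sCount _ _ _ _ (hS 1 one_pos)
    exact ((hK _).1.subset (hb' 1 one_pos n)).of_finite_image Subtype.val_injective.injOn
  refine ⟨T, hc, poly_Int (fun m n h => Set.ncard_le_ncard (mono_Int h) (hf n)) fun j => ?_,
    subexp_Int fun δ hδ => ?_⟩
  · obtain ⟨l, l1, l2⟩ := hP j
    refine low_Int hc hf (fun i => ⟨l i, l1 i⟩) fun e e' h => l2 ?_
    have := congrArg A.G.subtype h
    simpa only [map_list_prod, List.map_ofFn, Function.comp_def, map_pow,
      Subgroup.subtype_apply] using this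
  · obtain ⟨K, _, hK⟩ := sCount _ _ _ _ (hS δ hδ)
    refine ⟨K, fun n => ?_⟩
    have h1 := Set.ncard_le_ncard (hb' δ hδ n) (hK _).1
    rw [Set.ncard_image_of_injective _ Subtype.val_injective] at h1
    exact le_trans (Nat.cast_le.2 h1) (hK _).2

end Pool.Agent.MP_61ef33_al.Ctr
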