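import Pool.Agent.MP_61ef33_al.Ctr.St

set_option autoImplicit false

namespace Pool.Agent.MP_61ef33_al.Ctr

variable {S I : Type} [Fintype I] {A : GA S} {C : A.CS I}

omit [Fintype I] in
theorem th_mono_Key {k l : ℕ} (h : k ≤ l) : C.th k ≤ C.th l := by
  induction h with
  | refl => exact le_rfl
  | step _ ih => simp only [GA.CS.th]; omega

omit [Fintype I] in
theorem th_le_Key (k : ℕ) : C.th k + C.c3 ≤ 2 ^ k * (3 + C.c3) := by
  induction k with
  | zero => simp [GA.CS.th]
  | succ k ih => simp only [GA.CS.th, pow_succ]; nlinarith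

omit [Fintype I] in
theorem lv_len_Key (j : ℕ) (t : WT S I) : (C.lv j t).length = 2 ^ j := by
  induction j generalizing t with
  | zero => rfl
  | succ j ih => simp only [GA.CS.lv, List.length_append, ih, pow_succ]; omega

theorem down_Key (hMid : SMid) (hStep : SStep) (ho : C.Odd) {k : ℕ} {P m m' Y : WT S I}
    (h : C.Tri P m Y) (h' : C.Tri P m' Y) (hn : C.n m = C.n m') (hk : C.L ≤ k)
    (hP : C.th (k + 1 + 1) ≤ C.n P) (hY : C.th (k + 1 + 1) ≤ C.n Y) :
    A.par m.W = A.par m'.W ∧ ∀ y, ∃ P' Y', C.Tri P' (C.child m y) Y' ∧ C.Tri P' (C.child m' y) Y' ∧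
      C.n (C.child m y) = C.n (C.child m' y) ∧ C.th (k + 1) ≤ C.n P' ∧ C.th (k + 1) ≤ C.n Y' := by
  have os := hStep S I A C ho P m m' Y h h' hn ((th_mono_Key (by omega)).trans hP)
    ((th_mono_Key (by omega)).trans hY)
  have ch : ∀ {m : WT S I}, C.Tri P m Y → ∀ y, C.Tri (C.child P y)
      (C.child m (xor y (A.par P.W))) (C.child Y (xor (xor y (A.par P.W)) (A.par m.W))) := by
    intro m h y
    refine ⟨h.ad2.child (h.ad1.perf_right h.perf) _, ?_, ?_⟩
    · rw [← GA.CS.child_comp]; exact h.ad1.child h.perf y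
    · rw [← GA.CS.child_comp, ← GA.CS.child_comp]; exact h.perf.child y
  have tc : ∀ {t : WT S I}, C.Perf t → C.th (k + 1 + 1) ≤ C.n t → ∀ y,
      C.th (k + 1) ≤ C.n (C.child t y) := by
    intro t ht h1 y
    have := ((hMid S I A C ho t ht).2 y).2
    rw [GA.CS.th] at h1
    omega
  refine ⟨os.1, fun y' => ?_⟩
  obtain ⟨y, rfl⟩ : ∃ y, y' = xor y (A.par P.W) := ⟨xor y' (A.par P.W), by simp⟩
  exact ⟨_, _, ch h y, os.1 ▸ ch h' y, os.2 _, tc (h.ad1.perf_left h.perf) hP _,
    tc (h.ad2.perf_right (h.ad1.perf_right h.perf)) hY _⟩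

theorem same_Key (hMid : SMid) (hStep : SStep) (ho : C.Odd) (d : ℕ) {P m m' Y : WT S I}
    (h : C.Tri P m Y) (h' : C.Tri P m' Y) (hn : C.n m = C.n m')
    (hP : C.th (d + C.L + 1) ≤ C.n P) (hY : C.th (d + C.L + 1) ≤ C.n Y)
    (v : List Bool) (hv : v.length ≤ d) : A.ev m.W v = A.ev m'.W v := by
  induction d generalizing P m m' Y v with
  | zero =>
    have : v = [] := by simpa using hv
    simp [this]
  | succ d ih =>
    cases v with
    | nil => simp
    | cons y v =>
      rw [Nat.add_right_comm d 1] at hP hY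
      obtain ⟨e, os⟩ := down_Key hMid hStep ho h h' hn (Nat.le_add_left _ _) hP hY
      obtain ⟨P', Y', t1, t2, e1, b1, b2⟩ := os y
      rw [GA.ev_apply_cons, GA.ev_apply_cons, ← e]
      exact congrArg _ (ih t1 t2 e1 b1 b2 v (by simpa using hv))

theorem sKey (hMid : SMid) (hStep : SStep) : SKey := by
  intro S I _ A C ho Ξ c0 hΞ j P m m' Y h h' hn hP hY
  replace hP := (Nat.le_add_right _ _).trans ((th_le_Key _).trans hP)
  replace hY := (Nat.le_add_right _ _).trans ((th_le_Key _).trans hY)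
  induction j generalizing P m m' Y with
  | zero =>
    intro e
    simp only [GA.CS.lv, List.map_cons, List.map_nil, List.cons.injEq, and_true] at e
    rw [Nat.zero_add] at hP hY
    split_ifs at e with h1 h2
    · exact hΞ _ h1 _ h2 (same_Key hMid hStep ho c0 h h' hn hP hY)
    · exact Option.some.inj e
  | succ j ih =>
    intro e
    rw [show j + 1 + c0 + C.L + 1 = j + c0 + C.L + 1 + 1 by ring] at hP hY
    obtain ⟨e0, os⟩ := down_Key hMid hStep ho h h' hn (Nat.le_add_left _ _) hP hY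
    simp only [GA.CS.lv, List.map_append] at e
    obtain ⟨e1, e2⟩ := List.append_inj e (by simp [lv_len_Key])
    refine A.ev_eq_of_sec e0 fun y => ?_
    obtain ⟨P', Y', t1, t2, e3, b1, b2⟩ := os y
    exact ih P' _ _ Y' t1 t2 e3 b1 b2 (by cases y; exacts [e1, e2])

end Pool.Agent.MP_61ef33_al.Ctr
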