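import Pool.Agent.MP_61ef33_al.Ctr.St

set_option autoImplicit false

namespace Pool.Agent.MP_61ef33_al.Ctr

open Air (qc)

theorem chart_Lab {S : Type} (Q : RC S) (z : ℂ) (m : ℕ) : ∃ P : List Bool, ∀ D : Set S,
    (0 < ((qc Q.c)^[m] z).im → Q.U m D z = P) ∧
    (((qc Q.c)^[m] z).im < 0 → Q.r (Q.U m D z) D = P) := by
  induction m with
  | zero => exact ⟨[], fun j => ⟨fun _ => rfl, fun _ => rfl⟩⟩
  | succ m ih =>
    obtain ⟨P, hP⟩ := ih
    rw [Function.iterate_succ_apply']
    refine ⟨decide (0 < ((qc Q.c)^[m] z).re) :: P, fun j => ?_⟩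
    simp only [RC.U]
    generalize (qc Q.c)^[m] z = w at hP ⊢
    have e : (qc Q.c w).im = 2 * (w.re * w.im) := by simp [qc, sq]; ring
    rw [e]
    refine ⟨fun h => ?_, fun h => ?_⟩
    · rcases mul_pos_iff.1 (show 0 < w.re * w.im by linarith) with ⟨a, b⟩ | ⟨a, b⟩
      · have s : RC.sd j w = true := by unfold RC.sd; split_ifs <;> simpa
        simp [s, a, (hP _).1 b]
      · have s : RC.sd j w = false := by
          unfold RC.sd; split_ifs
          · simpa using b.le
          · simpa using a.le
        simp [s, a.le, (hP _).2 b]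
    · rcases mul_neg_iff.1 (show w.re * w.im < 0 by linarith) with ⟨a, b⟩ | ⟨a, b⟩
      · by_cases h0 : j = ∅
        · have s : RC.sd j w = false := by simpa [RC.sd, h0] using b.le
          rw [s]
          simp [RC.r, h0, a, (hP _).2 b]
        · have s : RC.sd j w = true := by simpa [RC.sd, h0] using a
          simp [s, RC.r, h0, a, (hP _).2 b]
      · by_cases h0 : j = ∅
        · have s : RC.sd j w = true := by simpa [RC.sd, h0] using b
          rw [s]
          simp [RC.r, h0, a.le, (hP _).1 b]
        · have s : RC.sd j w = false := by simpa [RC.sd, h0] using a.le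
          simp [s, RC.r, h0, a.le, RC.r_r, (hP _).1 b]

theorem loc_Lab {S : Type} (Q : RC S) (z : ℂ) (m : ℕ) : ∀ D : Set S,
    (qc Q.c)^[m] z ∈ Q.O D → ∀ᶠ z' in nhds z, Q.U m D z' = Q.U m D z := by
  classical
  induction m with
  | zero => exact fun j _ => Filter.Eventually.of_forall fun _ => rfl
  | succ m ih =>
    intro j hz
    rw [Function.iterate_succ_apply'] at hz
    obtain ⟨a, b⟩ := Q.markov hz
    have hq : Continuous (qc Q.c) := by unfold qc; fun_prop
    have hc : Continuous fun z' =>
        if j = ∅ then ((qc Q.c)^[m] z').im else ((qc Q.c)^[m] z').re := by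
      split_ifs
      · exact Complex.continuous_im.comp (hq.iterate m)
      · exact Complex.continuous_re.comp (hq.iterate m)
    have hs : ∀ᶠ z' in nhds z, RC.sd j ((qc Q.c)^[m] z') = RC.sd j ((qc Q.c)^[m] z) := by
      rcases a.lt_or_gt with a | a
      · filter_upwards [hc.continuousAt.eventually_lt continuousAt_const a] with z' hz'
        simp only [RC.sd, decide_eq_decide]
        exact iff_of_false hz'.not_gt a.not_gt
      · filter_upwards [continuousAt_const.eventually_lt hc.continuousAt a] with z' hz'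
        simp only [RC.sd, decide_eq_decide]
        exact iff_of_true hz' a
    filter_upwards [hs, ih _ b] with z' e1 e2
    simp only [RC.U, e1]
    cases e : RC.sd j ((qc Q.c)^[m] z) <;> rw [e] at e2 <;> simp [e2]

theorem sLab : SLab := by
  intro S Q m j z hz
  refine ⟨loc_Lab Q z m j hz, fun i => ?_⟩
  obtain ⟨P, hP⟩ := chart_Lab Q z m
  refine ⟨fun a => by rw [(hP i).1 a, (hP j).1 a], fun a => ?_⟩
  rw [Equiv.Perm.mul_apply, RC.Rf_apply, RC.Rf_apply, (hP j).2 a, ← (hP i).2 a, RC.r_r]

end Pool.Agent.MP_61ef33_al.Ctr
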