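import Pool.Agent.MP_61ef33_al.Ctr.St
import Pool.Agent.MP_61ef33_al.Air.Link

set_option autoImplicit false

namespace Pool.Agent.MP_61ef33_al.Ctr

open Polynomial unitInterval Set Air

variable {S : Type} (Q : RC S)

theorem nx_Link (s : S) : qc Q.c (Q.pt s) = Q.pt (Q.A.nx s) := by
  rw [qc, Q.hnx]; push_cast; rfl

theorem iter_Link (k : ℕ) : (qc Q.c)^[k] Q.c = Q.pt (Q.A.nx^[k] Q.A.sg) := by
  induction k with
  | zero => rw [Function.iterate_zero_apply, Function.iterate_zero_apply, Q.pt_sg]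
  | succ k ih => rw [Function.iterate_succ_apply', Function.iterate_succ_apply', ih, nx_Link]

theorem post_Link (z : ℂ) : z ∉ postcrit (X ^ 2 + C (Q.c : ℂ)) ↔ ∀ s, z ≠ Q.pt s := by
  have e : z ∈ postcrit (X ^ 2 + C (Q.c : ℂ)) ↔ ∃ k, (qc Q.c)^[k] Q.c = z := by
    simp only [postcrit, eval_Link, mem_ofPred_eq]
    constructor
    · rintro ⟨m, hm, w, h1, rfl⟩
      have : w = 0 := by simpa using h1
      subst this
      obtain ⟨k, rfl⟩ : ∃ k, m = k + 1 := ⟨m - 1, by omega⟩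
      exact ⟨k, by simp [qc]⟩
    · rintro ⟨k, rfl⟩
      exact ⟨k + 1, by omega, 0, by simp, by simp [qc]⟩
  rw [e]
  constructor
  · rintro h3 s rfl
    obtain ⟨k, rfl⟩ := Q.A.hc s
    exact h3 ⟨k, iter_Link Q k⟩
  · rintro h3 ⟨k, rfl⟩
    exact h3 _ (iter_Link Q k)

theorem chart_Link (hU : Q.Val univ) {t : ℂ} (ht : ∀ s, t ≠ Q.pt s) :
    ∃ D, Q.Val D ∧ t ∈ Q.O D := by
  by_cases e : t.im = 0
  · have h : t.re ∈ Q.Iv {s | Q.pt s < t.re} := by
      refine ⟨fun s hs => hs, fun s hs => (not_lt.1 hs).lt_of_ne fun q => ht s ?_⟩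
      exact Complex.ext (by simpa using q) (by simpa using e)
    exact ⟨_, ⟨_, h⟩, fun _ => h⟩
  · exact ⟨univ, hU, fun q => absurd q e⟩

theorem lift_Link (m : ℕ) : ∀ (γ : I → ℂ), Continuous γ → (∀ τ s, γ τ ≠ Q.pt s) →
    ∀ z, (qc Q.c)^[m] z = γ 0 →
    ∃ Γ : I → ℂ, Continuous Γ ∧ Γ 0 = z ∧ ∀ τ, (qc Q.c)^[m] (Γ τ) = γ τ := by
  induction m with
  | zero => exact fun γ hγ _ z hz => ⟨γ, hγ, hz.symm, fun _ => rfl⟩
  | succ m ih =>
    intro γ hγ hp z hz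
    rw [Function.iterate_succ_apply', qc] at hz
    obtain ⟨v, v1, v2, v3⟩ := sqrt_Link (γ := fun τ => γ τ - Q.c) (by fun_prop)
      (fun τ e => hp τ Q.A.sg (by rw [Q.pt_sg]; exact sub_eq_zero.1 e))
      (v0 := (qc Q.c)^[m] z) (eq_sub_of_add_eq hz)
    have v4 : ∀ τ, qc Q.c (v τ) = γ τ := fun τ => by rw [qc, v2, sub_add_cancel]
    obtain ⟨Γ, a1, a2, a3⟩ := ih v v1
      (fun τ s e => hp τ (Q.A.nx s) (by rw [← v4, e, nx_Link])) z v3.symm
    exact ⟨Γ, a1, a2, fun τ => by rw [Function.iterate_succ_apply', a3, v4]⟩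

theorem sLink (hB : SBij) (hM : SMon) (hW1 : SW1) : SLink := by
  intro S _ Q t ht
  have hP := post_Link Q
  obtain ⟨D, hD, htD⟩ := chart_Link Q (hW1 S Q).2.1 ((hP t).1 ht)
  obtain ⟨hM1, hM2⟩ := hM S Q D t hD htD
  have hbij0 := hB S Q D t htD
  have hfe := eval_Link Q.c
  generalize (X ^ 2 + C (Q.c : ℂ) : ℂ[X]) = f at hP hfe ht ⊢
  have hit : ∀ m z, (fun x => f.eval x)^[m] z = (qc Q.c)^[m] z := fun m z => by rw [hfe]
  have hv : ∀ v : PreTree f t, (qc Q.c)^[v.1.1] v.1.2 = t := fun v => (hit _ _).symm.trans v.2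
  have hbij : Function.Bijective fun v : PreTree f t => Q.U v.1.1 D v.1.2 := by
    constructor
    · intro v w e
      have := congrArg Subtype.val (hbij0.1 (a₁ := ⟨v.1, hv v⟩) (a₂ := ⟨w.1, hv w⟩) e)
      exact Subtype.ext this
    · intro l
      obtain ⟨v, rfl⟩ := hbij0.2 l
      exact ⟨⟨v.1, (hit _ _).trans v.2⟩, rfl⟩
  let e : PreTree f t ≃ List Bool := Equiv.ofBijective _ hbij
  have he : ∀ v, e v = Q.U v.1.1 D v.1.2 := fun _ => rfl
  have key : ∀ (γ : Path t t) (g : Equiv.Perm (List Bool)), Q.Mon D γ g →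
      ∀ v w : PreTree f t, w.1.1 = v.1.1 →
        (∃ Γ : Path v.1.2 w.1.2, ∀ τ, (fun x => f.eval x)^[v.1.1] (Γ τ) = γ τ) →
        e w = g (e v) := by
    rintro γ g hg v w hn ⟨Γ, hΓ⟩
    have := hg v.1.1 Γ Γ.continuous fun τ => (hit _ _).symm.trans (hΓ τ)
    rw [Γ.source, Γ.target] at this
    rw [he, he, hn, this]
  have hmap : (IMG f t).map (e.permCongrHom : Equiv.Perm (PreTree f t) →* _) = Q.Ev := by
    apply le_antisymm
    · rw [IMG, MonoidHom.map_closure, Subgroup.closure_le]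
      rintro _ ⟨π, ⟨γ, h1, h2⟩, rfl⟩
      have h3 := fun τ => (hP _).1 (h1 τ)
      obtain ⟨g, g1, g2⟩ := hM1 γ h3
      have : e.permCongrHom π = g := by
        ext1 x
        obtain ⟨v, rfl⟩ := e.surjective x
        obtain ⟨Γ, b1, b2, b3⟩ := lift_Link Q v.1.1 γ γ.continuous h3 v.1.2
          ((hv v).trans γ.source.symm)
        let w : PreTree f t := ⟨(v.1.1, Γ 1), (hit _ _).trans ((b3 1).trans γ.target)⟩
        have b4 : ∃ Γ : Path v.1.2 w.1.2, ∀ τ, (fun x => f.eval x)^[v.1.1] (Γ τ) = γ τ :=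
          ⟨⟨⟨Γ, b1⟩, b2, rfl⟩, fun τ => (hit _ _).trans (b3 τ)⟩
        rw [← key γ g g2 v w rfl b4, ← h2 v w rfl b4]
        simp
      exact this ▸ g1
    · rw [RC.Ev, Subgroup.closure_le]
      rintro _ ⟨a, b, ha, hb, rfl⟩
      obtain ⟨γ, h1, h2⟩ := hM2 a b ha hb
      refine ⟨e.permCongrHom.symm (Q.Rf a * Q.Rf b), Subgroup.subset_closure ⟨γ,
        fun τ => (hP _).2 (h1 τ), fun v w hn hT => ?_⟩, e.permCongrHom.apply_symm_apply _⟩
      apply e.injective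
      rw [key γ _ h2 v w hn hT]
      simp [Equiv.permCongrHom]
  exact ⟨((e.permCongrHom.subgroupMap _).trans (MulEquiv.subgroupCongr hmap)).symm⟩

end Pool.Agent.MP_61ef33_al.Ctr
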