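import Pool.Agent.MP_61ef33_al.Ctr.St

set_option autoImplicit false

namespace Pool.Agent.MP_61ef33_al.Ctr

section
variable {S I : Type} [Fintype I] {A : GA S} (C : A.CS I)

theorem len_Lv (j : ℕ) (t : WT S I) : (C.lv j t).length = 2 ^ j ∧
    (C.bits j t).length + 1 = 2 ^ j ∧ ((C.lv j t).map C.len).sum ≤ C.len t := by
  induction j generalizing t with
  | zero => simp [GA.CS.lv, GA.CS.bits]
  | succ j ih =>
    obtain ⟨a1, a2, a3⟩ := ih (C.child t false)
    obtain ⟨b1, b2, b3⟩ := ih (C.child t true)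
    have := C.len_child_le t
    simp only [GA.CS.lv, GA.CS.bits, List.length_append, List.length_cons, List.map_append,
      List.sum_append, pow_succ]
    omega

theorem ev_Lv (j : ℕ) (t t' : WT S I) (h : C.bits j t = C.bits j t')
    (h' : (C.lv j t).map (fun u => A.ev u.W) = (C.lv j t').map (fun u => A.ev u.W)) :
    A.ev t.W = A.ev t'.W := by
  induction j generalizing t t' with
  | zero => simpa [GA.CS.lv] using h'
  | succ j ih =>
    simp only [GA.CS.lv, GA.CS.bits, List.map_append, List.cons.injEq] at h h'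
    have a := len_Lv C j (C.child t false)
    have b := len_Lv C j (C.child t' false)
    have h1 := List.append_inj h.2 (by omega)
    have h2 := List.append_inj h' (by rw [List.length_map, List.length_map, a.1, b.1])
    refine A.ev_eq_of_sec h.1 fun y => ?_
    cases y
    · exact ih _ _ h1.1 h2.1
    · exact ih _ _ h1.2 h2.2

theorem zero_Lv (t : WT S I) : ∃ t1 t2, t = t1.comp t2 ∧ C.Add t1 t2 ∧ C.n t1 = 0 :=
  ⟨⟨t.a, [], t.a⟩, t, rfl, ⟨rfl, by rw [C.len_nil, zero_add]; rfl⟩, by simp [GA.CS.n, GA.CS.cr]⟩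

theorem cut_Lv (t : WT S I) (M : ℕ) (h : M ≤ C.n t) :
    ∃ t1 t2, t = t1.comp t2 ∧ C.Add t1 t2 ∧ C.n t1 = M := by
  obtain ⟨a, W, b⟩ := t
  induction W generalizing a M with
  | nil =>
    rcases Nat.eq_zero_or_pos M with rfl | hM
    · exact zero_Lv C _
    · have : C.n ⟨a, [], b⟩ ≤ 1 := bd_le _ _
      exact ⟨⟨a, [], b⟩, ⟨b, [], b⟩, rfl, ⟨rfl, by rw [C.len_nil]; rfl⟩, by omega⟩
  | cons s W ih =>
    rcases Nat.eq_zero_or_pos M with rfl | hM
    · exact zero_Lv C _
    have e : ∀ W b, C.n ⟨a, s :: W, b⟩ = bd (a C.i1) (C.F C.i1 s) + C.n ⟨C.pos s, W, b⟩ :=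
      fun _ _ => rfl
    have hb := bd_le (a C.i1) (C.F C.i1 s)
    have e0 := C.len_cons a b s W
    rw [e] at h
    obtain ⟨⟨a1, W1, b1⟩, t2, h1, h2, h3⟩ := ih (M - bd (a C.i1) (C.F C.i1 s)) (C.pos s) (by omega)
    have h5 := h2.2
    rw [← h1] at h5
    simp only [WT.comp, WT.mk.injEq] at h1
    obtain ⟨rfl, rfl, rfl⟩ := h1
    have e1 := C.len_cons a b1 s W1
    exact ⟨⟨a, s :: W1, b1⟩, t2, rfl, ⟨h2.1, by
      simp only [WT.comp, List.cons_append]; omega⟩, by rw [e]; omega⟩

end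

theorem sLv (hMid : SMid) : SLv := by
  intro S I _ A C
  refine ⟨len_Lv C, fun hO j => ?_, ev_Lv C, cut_Lv C⟩
  induction j with
  | zero =>
    intro t _ h u hu
    obtain rfl : u = t := by simpa [GA.CS.lv] using hu
    omega
  | succ j ih =>
    intro t ht h u hu
    have key : ∀ y, C.n (C.child t y) ≤ 2 ^ j + C.c3 := fun y => by
      have := ((hMid S I A C hO t ht).2 y).1
      rw [pow_succ] at h
      omega
    rcases List.mem_append.1 hu with hu | hu
    · exact ih _ (ht.child _) (key _) u hu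
    · exact ih _ (ht.child _) (key _) u hu

end Pool.Agent.MP_61ef33_al.Ctr
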