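import Pool.Agent.MP_61ef33_al.Ctr.St

set_option autoImplicit false

namespace Pool.Agent.MP_61ef33_al.Ctr

theorem maxC_Max {S : Type} [Finite S] (A : KP S) (hS : Nontrivial S) : ∃ R, A.MaxC R := by
  have h0 : A.Cong Eq ∧ ∃ s t : S, ¬ s = t :=
    ⟨⟨eq_equivalence, fun _ _ h => congrArg _ h, fun _ _ h _ => congrArg _ h⟩, hS.exists_pair_ne⟩
  obtain ⟨R, -, hR⟩ := Finite.exists_le_maximal
    (p := fun R : S → S → Prop => A.Cong R ∧ ∃ s t, ¬ R s t) h0
  refine ⟨R, hR.1.1, hR.1.2, fun R' h1 h2 => ?_⟩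
  by_cases h : ∀ s t, R' s t
  · exact Or.inl h
  · push Not at h
    exact Or.inr fun s t => hR.2 ⟨h1, h⟩ (fun s t => h2 s t) s t

theorem pow_Max {S : Type} {A : KP S} {R : S → S → Prop} (h : A.Cong R) {p : ℕ}
    (hp : R (A.nx^[p] A.sg) A.sg) (q : ℕ) : R (A.nx^[p * q] A.sg) A.sg := by
  have hi : ∀ k s t, R s t → R (A.nx^[k] s) (A.nx^[k] t) := by
    intro k s t hst
    induction k with
    | zero => exact hst
    | succ k ih =>
      rw [Function.iterate_succ_apply', Function.iterate_succ_apply']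
      exact h.nx _ _ ih
  induction q with
  | zero => exact h.eqv.refl _
  | succ q ih =>
    rw [Nat.mul_succ, add_comm, Function.iterate_add_apply]
    exact h.eqv.trans (hi p _ _ ih) hp

theorem sMax (hOrd : SOrd) : SMax := by
  classical
  intro S _ A hS
  obtain ⟨R, hR⟩ := maxC_Max A hS
  obtain ⟨n, hn, hper⟩ := (hOrd S A).1
  have hc := hR.cong
  have hex : ∃ m, 0 < m ∧ R (A.nx^[m] A.sg) A.sg := ⟨n, hn, by rw [hper]; exact hc.eqv.refl _⟩
  have hP : A.IsPer R (Nat.find hex) := ⟨(Nat.find_spec hex).1, (Nat.find_spec hex).2,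
    fun m h0 hm h => Nat.find_min hex hm ⟨h0, h⟩⟩
  generalize Nat.find hex = p at hP
  have h1 : p ≠ 1 := by
    rintro rfl
    have h2 : ∀ s, R s A.sg := fun s => by
      obtain ⟨k, rfl⟩ := A.hc s
      simpa using pow_Max hc hP.per k
    obtain ⟨s, t, hst⟩ := hR.ne
    exact hst (hc.eqv.trans (h2 s) (hc.eqv.symm (h2 t)))
  have h0 := hP.pos
  refine ⟨R, p, hR, hP, by omega, ?_⟩
  rintro rfl
  have hz : ¬ R A.sg A.z := fun h => hP.min 1 one_pos one_lt_two (by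
    have := hc.nx _ _ h
    rwa [A.nx_z] at this)
  have hodd : ∀ i, ¬ 2 * 1 ∣ i → R (A.nx^[i] A.z) A.sg := by
    intro i hi
    obtain ⟨q, rfl⟩ : ∃ q, i = 2 * q + 1 := ⟨i / 2, by omega⟩
    rw [Function.iterate_succ_apply, A.nx_z]
    exact pow_Max hc hP.per q
  refine ⟨1, le_rfl, fun i j hi hj _ => ?_⟩
  have h2 : ¬ R (A.nx^[i] A.z) A.z := fun h => hz (hc.eqv.trans (hc.eqv.symm (hodd i hi)) h)
  exact ⟨fun e => h2 (by rw [e]; exact hc.eqv.refl _),
    hc.cl _ _ (hc.eqv.trans (hodd i hi) (hc.eqv.symm (hodd j hj))) h2⟩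

end Pool.Agent.MP_61ef33_al.Ctr
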