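import Pool.Agent.MP_61ef33_al.Ctr.St

set_option autoImplicit false

namespace Pool.Agent.MP_61ef33_al.Ctr

theorem first_Mid {S : Type} (F : S → Bool) (W : List S) : (∀ s ∈ W, F s = false) ∨
    ∃ U w V, W = U ++ w :: V ∧ F w = true ∧ ∀ s ∈ U, F s = false := by
  induction W with
  | nil => simp
  | cons s W ih =>
    cases h : F s
    · rcases ih with ih | ⟨U, w, V, rfl, h1, h2⟩
      · exact Or.inl (List.forall_mem_cons.2 ⟨h, ih⟩)
      · exact Or.inr ⟨s :: U, w, V, rfl, h1, List.forall_mem_cons.2 ⟨h, h2⟩⟩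
    · exact Or.inr ⟨[], s, W, rfl, h, by simp⟩

theorem crs_Mid (b : Bool) (l : List Bool) (h : ∀ d ∈ l, d = false) :
    crs false l b = bd false b := by
  induction l with
  | nil => rfl
  | cons d l ih =>
    obtain rfl := h d (by simp)
    simpa using ih fun e he => h e (by simp [he])

section
variable {S I : Type} {A : GA S}

theorem lifted_Mid (F : S → Bool) (e : Bool) (W : List S) (h : ∀ s ∈ W, F s = false) :
    ∀ d ∈ A.lifted F e W, d = false := by
  induction W generalizing e with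
  | nil => simp [GA.lifted]
  | cons s W ih =>
    rw [GA.lifted, List.forall_mem_cons]
    exact ⟨by simp [h s (by simp)], ih _ fun u hu => h u (by simp [hu])⟩

theorem le_Mid (C : A.CS I) (t : WT S I) (h : ∀ s ∈ t.W, C.F C.i1 s = false) (e : Bool) :
    C.N C.i1 e t ≤ 2 := crs_const _ _ false _ (lifted_Mid _ e _ h)

theorem crD_Mid (C : A.CS I) (D : ℕ) (t : WT S I) : C.crD C.i0 D t ≤ C.crD C.i1 D t + 2 * 2 ^ D ∧
    C.crD C.i1 D t ≤ C.crD C.i0 D t + 2 * 2 ^ D := by
  induction D generalizing t with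
  | zero =>
    simp only [GA.CS.crD, GA.CS.cr, C.h01]
    exact ⟨crs_ends _ _ _ _ _, crs_ends _ _ _ _ _⟩
  | succ D ih =>
    have h1 := ih (C.child t false)
    have h2 := ih (C.child t true)
    simp only [GA.CS.crD, pow_succ]
    omega

variable [Fintype I] {C : A.CS I}

theorem cut_Mid {a b : I → Bool} {U V : List S} {w : S} (h : C.Perf ⟨a, U ++ w :: V, b⟩)
    (hw : C.F C.i1 w = true) : C.Perf ⟨a, U, C.pos w⟩ ∧ C.Perf ⟨C.pos w, V, b⟩ ∧
    ∀ e, C.N C.i1 e ⟨a, U ++ w :: V, b⟩ =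
      C.N C.i1 e ⟨a, U, C.pos w⟩ + C.N C.i1 (xor e (A.par U)) ⟨C.pos w, V, b⟩ := by
  have h1 := C.add_cut a b U V w
  have h2 : C.Add ⟨C.pos w, [w], C.pos w⟩ ⟨C.pos w, V, b⟩ := ⟨rfl, by
    have e1 := C.len_cons (C.pos w) b w V
    have e2 := C.len_cons (C.pos w) (C.pos w) w []
    have e3 := C.len_nil (C.pos w)
    simp only [WT.comp, List.singleton_append]
    omega⟩
  have hs : A.isg w = false := by
    cases e : A.isg w
    · rfl
    · rw [C.hsg _ _ e] at hw; exact absurd hw (by simp)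
  refine ⟨h1.perf_left h, h2.perf_right (h1.perf_right h), fun e => (h1.N C.i1 e).trans ?_⟩
  simp [GA.CS.N, GA.Nc, GA.lifted, GA.CS.pos, hs]

theorem eq_Mid (hO : C.Odd) (k : ℕ) : ∀ (a b : I → Bool) (W : List S), W.length ≤ k →
    C.Perf ⟨a, W, b⟩ → a C.i1 = true → b C.i1 = true →
    C.N C.i1 false ⟨a, W, b⟩ = C.N C.i1 true ⟨a, W, b⟩ := by
  induction k using Nat.strong_induction_on with
  | _ k ih =>
  intro a b W hk h ha hb
  rcases first_Mid (C.F C.i1) W with h0 | ⟨U, w, V, rfl, hw, -⟩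
  · cases W with
    | nil => simp [GA.CS.N, GA.Nc, GA.lifted, ha, hb]
    | cons s W =>
      have hp := hO _ h ha hb (by simp) h0
      have hs := h0 s (by simp)
      have hl := fun e b => crs_Mid b _ (lifted_Mid (A := A) (C.F C.i1) e W
        fun u hu => h0 u (by simp [hu]))
      simp only [GA.CS.N, GA.Nc, GA.lifted, crs_cons, ha, hb, hs, Bool.false_and, hl] at hp ⊢
      rw [hp]
      rfl
  · obtain ⟨h1, h2, h3⟩ := cut_Mid h hw
    simp only [List.length_append, List.length_cons] at hk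
    have e1 := ih U.length (by omega) _ _ U le_rfl h1 ha hw
    have e2 := ih V.length (by omega) _ _ V le_rfl h2 hw hb
    rw [h3, h3, e1]
    cases A.par U <;> simp [e2]

theorem two_Mid (hO : C.Odd) (k : ℕ) : ∀ (a b : I → Bool) (W : List S), W.length ≤ k →
    C.Perf ⟨a, W, b⟩ → a C.i1 = true → ∀ e e',
    C.N C.i1 e ⟨a, W, b⟩ ≤ C.N C.i1 e' ⟨a, W, b⟩ + 2 := by
  induction k using Nat.strong_induction_on with
  | _ k ih =>
  intro a b W hk h ha e e'
  rcases first_Mid (C.F C.i1) W with h0 | ⟨U, w, V, rfl, hw, -⟩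
  · exact (le_Mid C _ h0 e).trans (Nat.le_add_left _ _)
  · obtain ⟨h1, h2, h3⟩ := cut_Mid h hw
    simp only [List.length_append, List.length_cons] at hk
    have e1 := eq_Mid hO _ _ _ U le_rfl h1 ha hw
    have e2 := ih V.length (by omega) _ _ V le_rfl h2 hw (xor e (A.par U)) (xor e' (A.par U))
    rw [h3, h3]
    cases e <;> cases e' <;> omega

theorem four_Mid (hO : C.Odd) (t : WT S I) (h : C.Perf t) (e e' : Bool) :
    C.N C.i1 e t ≤ C.N C.i1 e' t + 4 := by
  obtain ⟨a, W, b⟩ := t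
  rcases first_Mid (C.F C.i1) W with h0 | ⟨U, w, V, rfl, hw, hU⟩
  · have := le_Mid C ⟨a, W, b⟩ h0 e
    omega
  · obtain ⟨-, h2, h3⟩ := cut_Mid h hw
    have e1 := le_Mid C ⟨a, U, C.pos w⟩ hU e
    have e2 := two_Mid hO _ _ _ V le_rfl h2 hw (xor e (A.par U)) (xor e' (A.par U))
    rw [h3, h3]
    omega

end

theorem sMid : SMid := by
  intro S I _ A C hO t h
  refine ⟨fun ha hb => ⟨eq_Mid hO _ t.a t.b t.W le_rfl h ha hb, ?_⟩, fun y => ?_⟩
  · simp [GA.CS.N, GA.Nc, crs_mod, hb]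
  · have hc := h.child y
    have a1 := hc.crD C.i0 C.L
    have a2 := hc.crD C.i1 C.L
    rw [C.hL0] at a1
    rw [C.hL1] at a2
    have a3 := crD_Mid C C.L (C.child t y)
    have a4 := crD_Mid C 0 (C.child t y)
    simp only [GA.CS.crD] at a4
    have a5 := h.cr_child C.j1 y
    rw [C.hj1] at a5
    have a6 := C.N_add C.i1 (xor (C.x C.j1) y) t
    have a7 := four_Mid hO t h (xor (C.x C.j1) y) (!xor (C.x C.j1) y)
    have a8 := four_Mid hO t h (!xor (C.x C.j1) y) (xor (C.x C.j1) y)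
    unfold GA.CS.n GA.CS.c3
    omega

end Pool.Agent.MP_61ef33_al.Ctr
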