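import Pool.Agent.MP_61ef33_al.Ctr.St

set_option autoImplicit false

namespace Pool.Agent.MP_61ef33_al.Ctr

/-- the growing hulls -/
def X_Mix {S : Type} (A : KP S) (pt : S → ℝ) (m : S) : ℕ → Set S
  | 0 => {A.sg, m}
  | N + 1 => hull pt (A.nx '' X_Mix A pt m N)

theorem sMix (hOrd : SOrd) (hTL : STL) (hUp : SUp) : SMix := by
  intro S _ A pt R hU hM
  obtain ⟨h0, hstep⟩ := hUp S A pt R hU hM
  obtain ⟨m, hm, hmin⟩ := Set.exists_min_image {s | A.cut R s = true} pt (Set.toFinite _) h0.ne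
  have hm' : ¬ R m A.sg := by simpa [KP.cut] using hm
  have inv : ∀ N F, A.UpC R pt F → ∀ s ∈ X_Mix A pt m N, ∀ t ∈ X_Mix A pt m N, F s = false →
      F t = true → ∃ xs : List Bool, xs.length = N ∧ xs.foldl A.step F = A.cut R := by
    intro N
    induction N with
    | zero =>
      intro F hF s _ t ht _ h2
      obtain rfl : t = m := ht.resolve_left fun e => by simp [e, hF.sg] at h2
      refine ⟨[], rfl, funext fun u => ?_⟩
      cases e : A.cut R u
      · exact (hF.sat u _ (by simpa [KP.cut] using e)).trans hF.sg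
      · exact hF.up _ _ (hmin u e) h2
    | succ N ih =>
      rintro F hF s ⟨_, ⟨s', hs', rfl⟩, -, -, h3, -⟩ t ⟨-, -, _, ⟨t', ht', rfl⟩, -, h4⟩ h1 h2
      have a1 : F (A.nx s') = false := by
        cases e : F (A.nx s')
        · rfl
        · rw [← h1, hF.up _ _ h3 e]
      have a2 : F (A.nx t') = true := hF.up _ _ h4 h2
      have hF' := (hstep F hF).2 t' a2
      obtain ⟨xs, e1, e2⟩ : ∃ xs : List Bool, xs.length = N ∧
          xs.foldl A.step (A.step F (A.cl t')) = A.cut R := by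
        cases k : (F (A.nx A.sg) && (A.cl A.sg == A.cl t'))
        · exact ih _ hF' s' hs' t' ht' (by rw [KP.step, k, a1]; rfl) (by rw [KP.step, k, a2]; simp)
        · exact ih _ hF' t' ht' s' hs' (by rw [KP.step, k, a2]; simp) (by rw [KP.step, k, a1]; rfl)
      exact ⟨A.cl t' :: xs, by simp [e1], e2⟩
  have mono : Monotone fun N => A.nx^[N] ⁻¹' X_Mix A pt m N := by
    refine monotone_nat_of_le_succ fun N y hy => ?_
    rw [Set.mem_preimage, Function.iterate_succ_apply']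
    exact ⟨_, ⟨_, hy, rfl⟩, _, ⟨_, hy, rfl⟩, le_rfl, le_rfl⟩
  obtain ⟨N1, hN⟩ := WellFoundedGT.monotone_chain_condition ⟨_, mono⟩
  have him : ∀ i, A.nx^[i] '' X_Mix A pt m (N1 + 1) = X_Mix A pt m (i + (N1 + 1)) := fun i => by
    have e : A.nx^[N1 + 1] ⁻¹' X_Mix A pt m (N1 + 1) =
        A.nx^[i + (N1 + 1)] ⁻¹' X_Mix A pt m (i + (N1 + 1)) :=
      (hN (N1 + 1) (by omega)).symm.trans (hN (i + (N1 + 1)) (by omega))
    rw [← Set.image_preimage_eq (X_Mix A pt m (N1 + 1)) (A.nx.surjective.iterate (N1 + 1)), e,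
      ← Set.image_comp, ← Function.iterate_add, Set.image_preimage_eq _ (A.nx.surjective.iterate _)]
  have hR : ∀ k s t, R (A.nx^[k] s) (A.nx^[k] t) → R s t := fun k => by
    induction k with
    | zero => exact fun _ _ h => h
    | succ k ih => exact fun s t h => (hOrd S A).2.1 R hM.cong s t (ih _ _ h)
  have huniv : X_Mix A pt m (N1 + 1) = Set.univ := by
    refine hTL S A pt R hU hM _ (fun i => ?_) ⟨_, mono (N1 + 1).zero_le (Or.inr rfl), _,
      mono (N1 + 1).zero_le (Or.inl rfl), fun h => hm' (hR _ _ _ h)⟩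
    rw [him]
    exact fun _ _ _ ⟨a, ha, _, _, h1, _⟩ ⟨_, _, c, hc, _, h2⟩ h3 h4 =>
      ⟨a, ha, c, hc, h1.trans h3, h4.trans h2⟩
  refine ⟨N1 + 1, fun N h F hF => ?_⟩
  obtain ⟨i, rfl⟩ := Nat.exists_eq_add_of_le' h
  have e : X_Mix A pt m (i + (N1 + 1)) = Set.univ := by
    rw [← him, huniv, Set.image_univ_of_surjective (A.nx.surjective.iterate _)]
  obtain ⟨t, ht⟩ := hF.ne
  exact inv _ F hF A.sg (e ▸ trivial) t (e ▸ trivial) hF.sg ht

end Pool.Agent.MP_61ef33_al.Ctr
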