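import Pool.Agent.MP_61ef33_al.Ctr.St

set_option autoImplicit false

namespace Pool.Agent.MP_61ef33_al.Ctr

open Air unitInterval Filter Topology Set

variable {S : Type} {Q : RC S}

theorem isOpen_O_Mon [Finite S] (D : Set S) : IsOpen (Q.O D) := by
  have h1 : IsOpen (Q.Iv D) := by
    have e : Q.Iv D = (⋂ s ∈ D, Ioi (Q.pt s)) ∩ ⋂ s ∈ Dᶜ, Iio (Q.pt s) := by
      ext x
      simp [RC.Iv]
    rw [e]
    exact ((toFinite _).isOpen_biInter fun _ _ => isOpen_Ioi).inter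
      ((toFinite _).isOpen_biInter fun _ _ => isOpen_Iio)
  have : Q.O D = {z : ℂ | z.im ≠ 0} ∪ Complex.re ⁻¹' Q.Iv D := by
    ext z; simp only [RC.O, mem_ofPred_eq, mem_union, mem_preimage]; tauto
  rw [this]
  exact (isOpen_ne_fun Complex.continuous_im continuous_const).union
    (h1.preimage Complex.continuous_re)

theorem ex_chart_Mon (hu : Q.Val univ) {z : ℂ} (hz : ∀ s, z ≠ Q.pt s) :
    ∃ D, Q.Val D ∧ z ∈ Q.O D := by
  by_cases e : z.im = 0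
  · have h : z.re ∈ Q.Iv {s | Q.pt s < z.re} := ⟨fun s hs => hs, fun s hs =>
      lt_of_le_of_ne (not_lt.1 hs) fun e' => hz s (Complex.ext e' e)⟩
    exact ⟨_, ⟨_, h⟩, fun _ => h⟩
  · exact ⟨univ, hu, fun e' => absurd e' e⟩

theorem O_ne_Mon {D : Set S} {z : ℂ} (hz : z ∈ Q.O D) (s : S) : z ≠ Q.pt s := by
  rintro rfl
  obtain ⟨a, b⟩ := hz (by simp)
  simp only [Complex.ofReal_re] at a b
  by_cases e : s ∈ D
  · exact lt_irrefl _ (a s e)
  · exact lt_irrefl _ (b s e)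

theorem chart_Mon (hL : SLab) {D D' : Set S} (hi : Q.Val D) (hj : Q.Val D') {t : ℂ}
    (ti : t ∈ Q.O D) (tj : t ∈ Q.O D') :
    ∃ g ∈ Q.Ev, ∀ m z, (qc Q.c)^[m] z = t → Q.U m D z = g (Q.U m D' z) := by
  rcases lt_trichotomy t.im 0 with e | e | e
  · exact ⟨_, Subgroup.subset_closure ⟨D, D', hi, hj, rfl⟩, fun m z hz =>
      ((hL S Q m D' z (hz ▸ tj)).2 D).2 (hz ▸ e)⟩
  · have : D = D' := by
      ext s
      constructor <;> intro h <;> by_contra h'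
      · exact lt_asymm ((ti e).1 s h) ((tj e).2 s h')
      · exact lt_asymm ((tj e).1 s h) ((ti e).2 s h')
    subst this
    exact ⟨1, one_mem _, fun _ _ _ => rfl⟩
  · exact ⟨1, one_mem _, fun m z hz => ((hL S Q m D' z (hz ▸ tj)).2 D).1 (hz ▸ e)⟩

theorem const_Mon (hL : SLab) {D : Set S} {J : Set I}
    (hJ : IsPreconnected J) {m : ℕ} {Γ : I → ℂ} (hΓ : Continuous Γ)
    (hO : ∀ s ∈ J, (qc Q.c)^[m] (Γ s) ∈ Q.O D) {s s' : I} (hs : s ∈ J) (hs' : s' ∈ J) :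
    Q.U m D (Γ s) = Q.U m D (Γ s') :=
  hJ.induction₂' (fun a b => Q.U m D (Γ a) = Q.U m D (Γ b)) (fun a ha =>
    ((hΓ.tendsto a).eventually (hL S Q m D _ (hO a ha)).1).filter_mono nhdsWithin_le_nhds
      |>.mono fun _ e => ⟨e.symm, e⟩) (fun _ _ _ _ _ _ => Eq.trans) hs hs'

/-- monodromy between two charts -/
def N2_Mon (Q : RC S) (γ : I → ℂ) (s s' : I) (D D' : Set S) (g : Pm) : Prop :=
  ∀ (m : ℕ) (Γ : I → ℂ), Continuous Γ → (∀ τ, (qc Q.c)^[m] (Γ τ) = γ τ) →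
    Q.U m D' (Γ s') = g (Q.U m D (Γ s))

theorem ex_Mon [Finite S] (hL : SLab) (hu : Q.Val univ) {γ : I → ℂ} (hγ : Continuous γ)
    (hP : ∀ τ s, γ τ ≠ Q.pt s) (s s' : I) : ∀ i, Q.Val i → ∀ j, Q.Val j → γ s ∈ Q.O i →
      γ s' ∈ Q.O j → ∃ g ∈ Q.Ev, N2_Mon Q γ s s' i j g := by
  refine PreconnectedSpace.induction₂' (fun s s' => ∀ i, Q.Val i → ∀ j, Q.Val j → γ s ∈ Q.O i →
    γ s' ∈ Q.O j → ∃ g ∈ Q.Ev, N2_Mon Q γ s s' i j g) (fun a => ?_) ⟨?_⟩ s s'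
  · obtain ⟨k, hk, ha⟩ := ex_chart_Mon hu (hP a)
    obtain ⟨ε, hε, hb⟩ := Metric.mem_nhds_iff.1 (hγ.continuousAt.preimage_mem_nhds
      ((isOpen_O_Mon k).mem_nhds ha))
    have hJ : IsPreconnected (Metric.ball a ε) := by
      refine OrdConnected.isPreconnected ⟨fun x hx y hy z hz => ?_⟩
      simp only [Metric.mem_ball, Subtype.dist_eq, Real.dist_eq, abs_lt] at hx hy ⊢
      have a1 : (x : ℝ) ≤ z := hz.1
      have a2 : (z : ℝ) ≤ y := hz.2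
      exact ⟨by linarith [hx.1], by linarith [hy.2]⟩
    have key : ∀ x ∈ Metric.ball a ε, ∀ y ∈ Metric.ball a ε, ∀ i, Q.Val i → ∀ j, Q.Val j →
        γ x ∈ Q.O i → γ y ∈ Q.O j → ∃ g ∈ Q.Ev, N2_Mon Q γ x y i j g := by
      intro x hx y hy i hi j hj xi yj
      obtain ⟨g1, a1, a2⟩ := chart_Mon hL hk hi (hb hx) xi
      obtain ⟨g2, b1, b2⟩ := chart_Mon hL hj hk yj (hb hy)
      refine ⟨g2 * g1, mul_mem b1 a1, fun m Γ c1 c2 => ?_⟩
      rw [b2 m _ (c2 y), const_Mon hL hJ c1 (fun s hs => c2 s ▸ hb hs) hy hx, a2 m _ (c2 x)]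
      rfl
    filter_upwards [Metric.ball_mem_nhds a hε] with b hb'
    exact ⟨key a (Metric.mem_ball_self hε) b hb', key b hb' a (Metric.mem_ball_self hε)⟩
  · intro x y z h1 h2 i hi j hj xi zj
    obtain ⟨k, hk, yk⟩ := ex_chart_Mon hu (hP y)
    obtain ⟨g1, a1, a2⟩ := h1 i hi k hk xi yk
    obtain ⟨g2, b1, b2⟩ := h2 k hk j hj yk zj
    exact ⟨g2 * g1, mul_mem b1 a1, fun m Γ c1 c2 => by rw [b2 m Γ c1 c2, a2 m Γ c1 c2]; rfl⟩

theorem trans_Mon {x y z : ℂ} {γ : Path x y} {δ : Path y z} {i j k : Set S}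
    {g g' : Pm} (h1 : N2_Mon Q γ 0 1 i j g) (h2 : N2_Mon Q δ 0 1 j k g') :
    N2_Mon Q (γ.trans δ) 0 1 i k (g' * g) := by
  intro m Γ c1 c2
  let u : I → I := fun τ => ⟨τ / 2, by linarith [τ.2.1], by linarith [τ.2.2]⟩
  let v : I → I := fun τ => ⟨(1 + τ) / 2, by linarith [τ.2.1], by linarith [τ.2.2]⟩
  have hu : Continuous u := Continuous.subtype_mk (by fun_prop) _
  have hv : Continuous v := Continuous.subtype_mk (by fun_prop) _
  have a1 := h1 m (Γ ∘ u) (c1.comp hu) fun τ => by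
    rw [Function.comp, c2, ← Path.extend_extends', Path.extend_trans_of_le_half _ _
      (by simp only [u]; linarith [τ.2.2]), ← Path.extend_extends']
    congr 1; simp only [u]; ring
  have a2 := h2 m (Γ ∘ v) (c1.comp hv) fun τ => by
    rw [Function.comp, c2, ← Path.extend_extends', Path.extend_trans_of_half_le _ _
      (by simp only [v]; linarith [τ.2.1]), ← Path.extend_extends']
    congr 1; simp only [v]; ring
  have e1 : u 0 = 0 := Subtype.ext (by simp [u])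
  have e2 : u 1 = v 0 := Subtype.ext (by simp [u, v])
  have e3 : v 1 = 1 := Subtype.ext (by simp [v])
  simp only [Function.comp, e1, e2, e3] at a1 a2
  rw [a2, a1]
  rfl

theorem joined_Mon {D : Set S} (hj : Q.Val D) {x y : ℂ} (hx : x ∈ Q.O D)
    (hy : y ∈ Q.O D) : ∃ γ : Path x y, ∀ τ, γ τ ∈ Q.O D := by
  have hconv : Convex ℝ (Q.Iv D) := OrdConnected.convex ⟨fun a ha b hb z hz =>
    ⟨fun s q => (ha.1 s q).trans_le hz.1, fun s q => hz.2.trans_lt (hb.2 s q)⟩⟩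
  obtain ⟨x0, h0⟩ := hj
  have hs : StarConvex ℝ (x0 : ℂ) (Q.O D) := by
    intro z hz a b ha hb hab e
    simp only [Complex.add_im, Complex.smul_im, Complex.ofReal_im, smul_eq_mul, mul_zero,
      zero_add, mul_eq_zero] at e
    simp only [Complex.add_re, Complex.smul_re, Complex.ofReal_re]
    rcases e with e | e
    · subst e
      rw [add_zero] at hab
      simpa [hab] using h0
    · exact hconv h0 (hz e) ha hb hab
  exact (hs.isPathConnected fun _ => by simpa using h0).joinedIn x hx y hy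

theorem sMon (hL : SLab) (hW1 : SW1) : SMon := by
  intro S _ Q j t hj ht
  refine ⟨fun γ hγ => ex_Mon hL (hW1 S Q).2.1 γ.continuous hγ 0 1 j hj j hj (by simpa using ht)
    (by simpa using ht), fun a b ha hb => ?_⟩
  have up : ∀ i, Complex.I ∈ Q.O i := fun i e => by simp at e
  have dn : ∀ i, -Complex.I ∈ Q.O i := fun i e => by simp at e
  obtain ⟨γ1, h1⟩ := joined_Mon hj ht (up j)
  obtain ⟨γ2, h2⟩ := joined_Mon hb (up b) (dn b)
  obtain ⟨γ3, h3⟩ := joined_Mon ha (dn a) (up a)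
  obtain ⟨γ4, h4⟩ := joined_Mon hj (up j) ht
  have cs : ∀ {x y : ℂ} (γ : Path x y) {i : Set S}, (∀ τ, γ τ ∈ Q.O i) → ∀ (m : ℕ)
      (Γ : I → ℂ), Continuous Γ → (∀ τ, (qc Q.c)^[m] (Γ τ) = γ τ) →
      Q.U m i (Γ 1) = Q.U m i (Γ 0) := fun γ i hγ m Γ c1 c2 =>
    const_Mon hL isPreconnected_univ c1 (fun s _ => c2 s ▸ hγ s) (mem_univ _) (mem_univ _)
  have m1 : N2_Mon Q γ1 0 1 j b 1 := fun m Γ c1 c2 => by
    rw [((hL S Q m j _ (c2 1 ▸ h1 1)).2 b).1 (by rw [c2]; simp), cs γ1 h1 m Γ c1 c2]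
    rfl
  have m2 : N2_Mon Q γ2 0 1 b a (Q.Rf a * Q.Rf b) := fun m Γ c1 c2 => by
    rw [((hL S Q m b _ (c2 1 ▸ h2 1)).2 a).2 (by rw [c2]; simp), cs γ2 h2 m Γ c1 c2]
  have m3 : N2_Mon Q γ3 0 1 a j 1 := fun m Γ c1 c2 => by
    rw [((hL S Q m a _ (c2 1 ▸ h3 1)).2 j).1 (by rw [c2]; simp), cs γ3 h3 m Γ c1 c2]
    rfl
  have m4 : N2_Mon Q γ4 0 1 j j 1 := cs γ4 h4
  refine ⟨((γ1.trans γ2).trans γ3).trans γ4, fun τ i => ?_, ?_⟩
  · have : (((γ1.trans γ2).trans γ3).trans γ4) τ ∈ range _ := mem_range_self τ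
    simp only [Path.trans_range, mem_union, mem_range] at this
    rcases this with ((⟨s, e⟩ | ⟨s, e⟩) | ⟨s, e⟩) | ⟨s, e⟩ <;> rw [← e]
    exacts [O_ne_Mon (h1 s) i, O_ne_Mon (h2 s) i, O_ne_Mon (h3 s) i, O_ne_Mon (h4 s) i]
  · have := trans_Mon (trans_Mon (trans_Mon m1 m2) m3) m4
    simp only [one_mul, mul_one] at this
    exact this

end Pool.Agent.MP_61ef33_al.Ctr
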