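import Pool.Agent.MP_61ef33_al.Ctr.St

set_option autoImplicit false

namespace Pool.Agent.MP_61ef33_al.Ctr

theorem step_Odd {S I : Type} [Fintype I] {A : GA S} (C : A.CS I) (j : I) (u : WT S I) (β : Bool)
    (hp : C.Perf u) (hW : u.W ≠ []) (hF : ∀ s ∈ u.W, C.F (C.pa j) s = β)
    (ha : u.a (C.pa j) = !β) (hb : u.b (C.pa j) = !β) (hpar : A.par u.W = false) :
    (C.child u (C.x j)).W ≠ [] ∧ (C.child u (C.x j)).a j = (!xor β (C.fl j)) ∧
      (C.child u (C.x j)).b j = (!xor β (C.fl j)) := by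
  have e1 : (C.child u (C.x j)).a j = (!xor β (C.fl j)) := by
    simp only [GA.CS.child, GA.CS.lp, ha]
    cases β <;> cases C.fl j <;> simp
  have e2 : (C.child u (C.x j)).b j = (!xor β (C.fl j)) := by
    simp only [GA.CS.child, GA.CS.lp, hb, hpar]
    cases β <;> cases C.fl j <;> simp
  refine ⟨fun h0 => ?_, e1, e2⟩
  have h := hp.cr_child j (C.x j)
  unfold GA.CS.cr GA.CS.N GA.Nc at h
  rw [h0, e1, e2, ha] at h
  obtain ⟨s, W, e⟩ := List.exists_cons_of_ne_nil hW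
  have hs : C.F (C.pa j) s = β := hF s (by rw [e]; simp)
  rw [e] at h
  simp only [List.map_nil, crs_nil, bd_self, Bool.xor_self, GA.lifted, crs_cons, hs,
    Bool.not_false, Bool.and_true] at h
  have : bd (!β) β = 1 := by cases β <;> simp [bd]
  omega

theorem sOdd : SOdd := by
  intro S I _ A C k Cl hk h0 h1 h2 h3 t hp ha hb hW hF
  by_contra hpar
  have hpar' : A.par t.W = false := by simpa using hpar
  have hi : ∀ m, C.pa (C.pa.symm^[m + 1] C.i1) = C.pa.symm^[m] C.i1 := fun m => by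
    rw [Function.iterate_succ_apply', Equiv.apply_symm_apply]
  have key : ∀ m, m + 1 ≤ k → ∃ (u : WT S I) (β : Bool), C.Perf u ∧ u.W ≠ [] ∧
      (∀ s ∈ u.W, Cl (m + 1) s ∧ C.F (C.pa.symm^[m + 1] C.i1) s = β) ∧
      u.a (C.pa.symm^[m + 1] C.i1) = (!β) ∧ u.b (C.pa.symm^[m + 1] C.i1) = (!β) := by
    intro m
    induction m with
    | zero =>
      intro _
      have e := hi 0
      set j := C.pa.symm^[0 + 1] C.i1 with hj
      have e' : C.pa j = C.i1 := e
      obtain ⟨a1, a2, a3⟩ := step_Odd C j t false hp hW (by rw [e']; exact hF)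
        (by rw [e']; exact ha) (by rw [e']; exact hb) hpar'
      refine ⟨C.child t (C.x j), xor false (C.fl j), hp.child _, a1, fun s hs => ?_, a2, a3⟩
      obtain ⟨r, hr, y, hy⟩ := A.mem_sec hs
      refine ⟨h1 0 y r s (h0 r (hF r hr)) hy, ?_⟩
      rw [C.hF j y r s hy, e', hF r hr]
      simp
    | succ m ih =>
      intro hm
      obtain ⟨u, β, b1, b2, b3, b4, b5⟩ := ih (by omega)
      have e := hi (m + 1)
      set j := C.pa.symm^[m + 1 + 1] C.i1 with hj
      have hn : ∀ s ∈ u.W, A.isg s = false := fun s hs =>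
        h2 (m + 1) s (by omega) (by omega) (b3 s hs).1
      obtain ⟨a1, a2, a3⟩ := step_Odd C j u β b1 b2 (by rw [e]; exact fun s hs => (b3 s hs).2)
        (by rw [e]; exact b4) (by rw [e]; exact b5) (A.par_of_not hn)
      refine ⟨C.child u (C.x j), xor β (C.fl j), b1.child _, a1, fun s hs => ?_, a2, a3⟩
      obtain ⟨r, hr, hy⟩ := A.mem_sec_of_not hn hs
      refine ⟨h1 (m + 1) _ r s (b3 r hr).1 hy, ?_⟩
      rw [C.hF j _ r s hy, e, (b3 r hr).2]
      simp
  obtain ⟨m, rfl⟩ : ∃ m, k = m + 1 := ⟨k - 1, by omega⟩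
  obtain ⟨u, β, b1, b2, b3, b4, b5⟩ := key m le_rfl
  have e := hi (m + 1)
  have hn : ∀ s ∈ u.W, A.isg s = false := fun s hs =>
    h2 (m + 1) s (by omega) le_rfl (b3 s hs).1
  obtain ⟨a1, -, -⟩ := step_Odd C (C.pa.symm^[m + 1 + 1] C.i1) u β b1 b2
    (by rw [e]; exact fun s hs => (b3 s hs).2) (by rw [e]; exact b4) (by rw [e]; exact b5)
    (A.par_of_not hn)
  obtain ⟨s, hs⟩ := List.exists_mem_of_ne_nil _ a1
  obtain ⟨r, hr, hy⟩ := A.mem_sec_of_not hn hs
  rw [h3 r (b3 r hr).1] at hy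
  exact absurd hy (by simp)

end Pool.Agent.MP_61ef33_al.Ctr
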