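import Pool.Agent.MP_61ef33_al.Ctr.St

set_option autoImplicit false

namespace Pool.Agent.MP_61ef33_al.Ctr

open scoped commutatorElement

/-- the wreath recursion of a kneading automaton -/
structure Hy_Poly {Γ S : Type} [Group Γ] (A : KP S) (T : Bool → Γ →* Γ) (s : Γ) (g : S → Γ) :
    Prop where
  ss : s * s = 1
  sT : ∀ y h, s * T y h = T (!y) h * s
  cm : ∀ y a b, Commute (T y a) (T (!y) b)
  inj : ∀ y a b, T y a * T (!y) b = 1 → a = 1 ∧ b = 1
  ns : ∀ y a b, T y a * T (!y) b ≠ s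
  hx : g A.sg = s * T (A.cl A.z) (g A.z)
  hb : ∀ t, t ≠ A.z → g (A.nx t) = T (A.cl t) (g t)

section
variable {Γ S : Type} [Group Γ] {A : KP S} {T : Bool → Γ →* Γ} {s : Γ} {g : S → Γ}

/-- the group generated by the states -/
def H_Poly (g : S → Γ) : Subgroup Γ := Subgroup.closure (Set.range g)

theorem mem_Poly (g : S → Γ) (t : S) : g t ∈ H_Poly g := Subgroup.subset_closure ⟨t, rfl⟩

theorem KH_Poly : ⁅H_Poly g, H_Poly g⁆ ≤ H_Poly g :=
  Subgroup.commutator_le.2 fun _ ha _ hb =>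
    mul_mem (mul_mem (mul_mem ha hb) (inv_mem ha)) (inv_mem hb)

theorem Kc_Poly {u k : Γ} (hu : u ∈ H_Poly g) (hk : k ∈ ⁅H_Poly g, H_Poly g⁆) :
    u * k * u⁻¹ ∈ ⁅H_Poly g, H_Poly g⁆ := by
  have := mul_mem (Subgroup.commutator_mem_commutator hu (KH_Poly hk)) hk
  simpa [commutatorElement_def] using this

variable (Y : Hy_Poly A T s g)
include Y

theorem mul_Poly (y : Bool) (a b c d : Γ) :
    T y a * T (!y) b * (T y c * T (!y) d) = T y (a * c) * T (!y) (b * d) := by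
  rw [map_mul, map_mul, mul_assoc, ← mul_assoc (T (!y) b), ← (Y.cm y c b).eq, mul_assoc, mul_assoc]

theorem inv_Poly (y : Bool) (a b : Γ) : (T y a * T (!y) b)⁻¹ = T y a⁻¹ * T (!y) b⁻¹ := by
  rw [mul_inv_rev, ← map_inv, ← map_inv, (Y.cm y _ _).eq]

theorem inj_Poly {y : Bool} {a b c d : Γ} (h : T y a * T (!y) b = T y c * T (!y) d) :
    a = c ∧ b = d := by
  have : T y (a * c⁻¹) * T (!y) (b * d⁻¹) = 1 := by
    rw [← mul_Poly Y, ← inv_Poly Y, h, mul_inv_cancel]
  obtain ⟨h1, h2⟩ := Y.inj _ _ _ this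
  exact ⟨mul_inv_eq_one.1 h1, mul_inv_eq_one.1 h2⟩

theorem xx_Poly (y : Bool) : g A.sg * g A.sg = T y (g A.z) * T (!y) (g A.z) := by
  have e : g A.sg * g A.sg = T (A.cl A.z) (g A.z) * T (!A.cl A.z) (g A.z) := by
    rw [Y.hx, Y.sT, mul_assoc, ← Y.sT, ← mul_assoc s, Y.ss, one_mul, (Y.cm _ _ _).eq]
  rw [e]
  have := (Y.cm y (g A.z) (g A.z)).eq
  revert this
  cases y <;> cases A.cl A.z <;> simp +contextual

theorem cj_Poly (y : Bool) (k : Γ) : ∃ u, (u = g A.z ∨ u = 1) ∧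
    g A.sg * T y k * (g A.sg)⁻¹ = T (!y) (u * k * u⁻¹) := by
  have hs : s⁻¹ = s := inv_eq_of_mul_eq_one_right Y.ss
  have e : ∀ w, s * T y w * s = T (!y) w := fun w => by rw [Y.sT, mul_assoc, Y.ss, mul_one]
  by_cases h : A.cl A.z = y
  · refine ⟨g A.z, Or.inl rfl, ?_⟩
    rw [Y.hx, h, mul_inv_rev, hs, ← e, map_mul, map_mul, map_inv]
    simp only [mul_assoc]
  · have h2 : A.cl A.z = !y := by revert h; cases A.cl A.z <;> cases y <;> simp
    refine ⟨1, Or.inr rfl, ?_⟩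
    rw [Y.hx, h2, mul_inv_rev, hs, mul_assoc s, ← (Y.cm y k _).eq, one_mul, inv_one, mul_one,
      ← e k]
    simp [mul_assoc]

theorem lift_Poly (y : Bool) {h : Γ} (hh : h ∈ H_Poly g) :
    ∃ h', T y h * T (!y) h' ∈ H_Poly g := by
  let P : Subgroup Γ :=
    { carrier := {k | ∃ k', T y k * T (!y) k' ∈ H_Poly g}
      one_mem' := ⟨1, by simp [one_mem]⟩
      mul_mem' := fun ⟨a, ha⟩ ⟨b, hb⟩ => ⟨a * b, mul_Poly Y y _ _ _ _ ▸ mul_mem ha hb⟩
      inv_mem' := fun ⟨a, ha⟩ => ⟨a⁻¹, inv_Poly Y y _ _ ▸ inv_mem ha⟩ }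
  have hz : g A.z ∈ P := ⟨g A.z, xx_Poly Y y ▸ mul_mem (mem_Poly g _) (mem_Poly g _)⟩
  have : H_Poly g ≤ P := by
    refine (Subgroup.closure_le _).2 ?_
    rintro _ ⟨t, rfl⟩
    by_cases ht : t = A.z
    · exact ht ▸ hz
    have h1 : T (A.cl t) (g t) ∈ H_Poly g := Y.hb t ht ▸ mem_Poly g _
    by_cases hy : A.cl t = y
    · exact ⟨1, by simpa [hy] using h1⟩
    have h2 : (!A.cl t) = y := by revert hy; cases A.cl t <;> cases y <;> simp
    obtain ⟨u, hu, e⟩ := cj_Poly Y (A.cl t) (g t)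
    have h3 : u * g t * u⁻¹ ∈ P := ⟨1, by
      rw [← h2, ← e, map_one, mul_one]
      exact mul_mem (mul_mem (mem_Poly g _) h1) (inv_mem (mem_Poly g _))⟩
    have h4 : u ∈ P := by
      rcases hu with rfl | rfl
      exacts [hz, one_mem _]
    have h5 := mul_mem (mul_mem (inv_mem h4) h3) h4
    simpa [mul_assoc] using h5
  exact this hh

theorem conj_Poly (y : Bool) (k h h' : Γ) :
    T y (h * k * h⁻¹) = T y h * T (!y) h' * T y k * (T y h * T (!y) h')⁻¹ := by
  have : T y k = T y k * T (!y) 1 := by simp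
  rw [inv_Poly Y, this, mul_Poly Y, mul_Poly Y]
  simp

theorem Tg_Poly (y : Bool) {t : S} (ht : t ≠ A.z) : T y (g t) ∈ H_Poly g := by
  have h1 : T (A.cl t) (g t) ∈ H_Poly g := Y.hb t ht ▸ mem_Poly g _
  by_cases hy : A.cl t = y
  · exact hy ▸ h1
  have h2 : (!A.cl t) = y := by revert hy; cases A.cl t <;> cases y <;> simp
  obtain ⟨u, hu, e⟩ := cj_Poly Y (A.cl t) (g t)
  have h3 : T y (u * g t * u⁻¹) ∈ H_Poly g := by
    rw [← h2, ← e]
    exact mul_mem (mul_mem (mem_Poly g _) h1) (inv_mem (mem_Poly g _))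
  have h4 : u ∈ H_Poly g := by
    rcases hu with rfl | rfl
    exacts [mem_Poly g _, one_mem _]
  obtain ⟨h', hh⟩ := lift_Poly Y y (inv_mem h4)
  have := mul_mem (mul_mem hh h3) (inv_mem hh)
  rw [← conj_Poly Y] at this
  simpa [mul_assoc] using this

theorem Sc_Poly (y : Bool) {u k : Γ} (hu : u ∈ H_Poly g) (hk : T y k ∈ ⁅H_Poly g, H_Poly g⁆) :
    T y (u * k * u⁻¹) ∈ ⁅H_Poly g, H_Poly g⁆ := by
  obtain ⟨h', hh⟩ := lift_Poly Y y hu
  rw [conj_Poly Y y k u h']
  exact Kc_Poly hh hk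

theorem SN_Poly (y : Bool) {k h : Γ} (hk : T y k ∈ H_Poly g) (hh : h ∈ H_Poly g) :
    T y ⁅k, h⁆ ∈ ⁅H_Poly g, H_Poly g⁆ := by
  obtain ⟨h', h1⟩ := lift_Poly Y y hh
  have e : T y ⁅k, h⁆ = ⁅T y k, T y h * T (!y) h'⁆ := by
    have := conj_Poly Y y k⁻¹ h h'
    rw [commutatorElement_def, commutatorElement_def, mul_assoc, mul_assoc, map_mul,
      ← mul_assoc h, this, map_inv]
    simp only [mul_assoc]
  rw [e]
  exact Subgroup.commutator_mem_commutator hk h1

theorem key_Poly (y : Bool) {h : Γ} (hh : h ∈ H_Poly g)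
    (hz : T y ⁅g A.z, h⁆ ∈ ⁅H_Poly g, H_Poly g⁆) {k : Γ} (hk : k ∈ H_Poly g) :
    T y ⁅k, h⁆ ∈ ⁅H_Poly g, H_Poly g⁆ := by
  induction hk using Subgroup.closure_induction with
  | mem k hk =>
    obtain ⟨t, rfl⟩ := hk
    by_cases ht : t = A.z
    · exact ht ▸ hz
    · exact SN_Poly Y y (Tg_Poly Y y ht) hh
  | one => simp [one_mem]
  | mul a b ha _ iha ihb =>
    have e : ⁅a * b, h⁆ = a * ⁅b, h⁆ * a⁻¹ * ⁅a, h⁆ := by
      simp only [commutatorElement_def]; group
    rw [e, map_mul]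
    exact mul_mem (Sc_Poly Y y ha ihb) iha
  | inv a ha iha =>
    have e : ⁅a⁻¹, h⁆ = a⁻¹ * ⁅a, h⁆⁻¹ * a⁻¹⁻¹ := by
      simp only [commutatorElement_def]; group
    rw [e]
    exact Sc_Poly Y y (inv_mem ha) (by rw [map_inv]; exact inv_mem iha)

theorem KT_Poly (y : Bool) {k : Γ} (hk : k ∈ ⁅H_Poly g, H_Poly g⁆) :
    T y k ∈ ⁅H_Poly g, H_Poly g⁆ := by
  have : ⁅H_Poly g, H_Poly g⁆ ≤ (⁅H_Poly g, H_Poly g⁆ : Subgroup Γ).comap (T y) := by
    refine Subgroup.commutator_le.2 fun a ha b hb => ?_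
    refine key_Poly Y y hb ?_ ha
    have := key_Poly Y y (mem_Poly g A.z) (by simp [one_mem]) hb
    rw [← commutatorElement_inv, map_inv]
    exact inv_mem this
  exact this hk

theorem ord_Poly (m : ℕ) (hm : 0 < m) (t : S) : g t ^ m ≠ 1 := by
  induction m using Nat.strong_induction_on generalizing t with
  | _ m ih =>
    intro h
    have h0 : ∀ k, g (A.nx^[k] A.sg) ^ m = 1 → g A.sg ^ m = 1 := by
      intro k
      induction k with
      | zero => exact id
      | succ k ihk =>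
        rw [Function.iterate_succ_apply']
        intro h1
        by_cases ht : A.nx^[k] A.sg = A.z
        · rwa [ht, A.nx_z] at h1
        · rw [Y.hb _ ht, ← map_pow] at h1
          exact ihk (Y.inj _ _ 1 (by rw [h1, map_one, mul_one])).1
    obtain ⟨k, rfl⟩ := A.hc t
    have h1 := h0 k h
    have e : ∀ j : ℕ, g A.sg ^ (2 * j) =
        T (!A.cl A.z) (g A.z ^ j) * T (!!A.cl A.z) (g A.z ^ j) := fun j => by
      rw [pow_mul, sq, xx_Poly Y (!A.cl A.z), (Y.cm _ _ _).mul_pow, map_pow, map_pow]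
    obtain ⟨j, rfl | rfl⟩ := Nat.even_or_odd' m
    · rw [e] at h1
      exact ih j (by omega) (by omega) _ (Y.inj _ _ _ h1).1
    · rw [pow_succ, e, Y.hx, Y.sT, ← mul_assoc, mul_assoc (T _ _), ← (Y.cm _ _ _).eq,
        ← mul_assoc, ← map_mul, mul_eq_one_iff_eq_inv, inv_eq_of_mul_eq_one_right Y.ss] at h1
      exact Y.ns _ _ _ h1

theorem h_Poly (hz : A.sg ≠ A.z) :
    ∃ h ∈ ⁅H_Poly g, H_Poly g⁆, Function.Injective fun m : ℕ => h ^ m := by
  refine ⟨⁅g A.sg, g (A.nx A.sg)⁆,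
    Subgroup.commutator_mem_commutator (mem_Poly g _) (mem_Poly g _), ?_⟩
  have hx : Function.Injective fun m : ℕ => g A.sg ^ m := by
    rw [injective_pow_iff_not_isOfFinOrder, isOfFinOrder_iff_pow_eq_one]
    exact fun ⟨m, hm, h⟩ => ord_Poly Y m hm _ h
  obtain ⟨u, _, e⟩ := cj_Poly Y (A.cl A.sg) (g A.sg)
  intro m n h
  simp only [commutatorElement_def, Y.hb _ hz, e] at h
  rw [← map_inv, ← (Y.cm _ _ _).eq, (Y.cm _ _ _).mul_pow, (Y.cm _ _ _).mul_pow, ← map_pow,
    ← map_pow, ← map_pow, ← map_pow] at h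
  have := (inj_Poly Y h).1
  rw [inv_pow, inv_pow, inv_inj] at this
  exact hx this

theorem ind_Poly (hz : A.sg ≠ A.z) (j : ℕ) : ∃ l : Fin j → Γ, (∀ i, l i ∈ ⁅H_Poly g, H_Poly g⁆) ∧
    Function.Injective fun e : Fin j → ℕ => (List.ofFn fun i => l i ^ e i).prod := by
  obtain ⟨h, hK, hi⟩ := h_Poly Y hz
  induction j with
  | zero => exact ⟨fun i => i.elim0, fun i => i.elim0, fun a b _ => Subsingleton.elim a b⟩
  | succ j ih =>
    obtain ⟨l, h1, h2⟩ := ih
    refine ⟨Fin.cons (T true h) fun i => T (!true) (l i), fun i => ?_, fun a b hab => ?_⟩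
    · exact Fin.cases (KT_Poly Y _ hK) (fun i => KT_Poly Y _ (h1 i)) i
    · have e : ∀ a : Fin (j + 1) → ℕ, (List.ofFn fun i =>
          (Fin.cons (T true h) fun i => T (!true) (l i) : Fin (j + 1) → Γ) i ^ a i).prod
            = T true (h ^ a 0) * T (!true) (List.ofFn fun i => l i ^ a i.succ).prod := fun a => by
        rw [List.ofFn_succ, List.prod_cons, map_list_prod, List.map_ofFn, map_pow]
        simp [Function.comp_def]
      simp only [e] at hab
      obtain ⟨e1, e2⟩ := inj_Poly Y hab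
      have e3 := h2 (a₁ := fun i => a i.succ) (a₂ := fun i => b i.succ) e2
      funext i
      exact Fin.cases (hi e1) (fun i => congrFun e3 i) i

end

/-- action below the first-level vertex `y` -/
def atF_Poly (y : Bool) (h : Pm) : List Bool → List Bool
  | [] => []
  | a :: w => a :: if a = y then h w else w

theorem atF_mul_Poly (y : Bool) (a b : Pm) (w : List Bool) :
    atF_Poly y a (atF_Poly y b w) = atF_Poly y (a * b) w := by
  cases w with
  | nil => rfl
  | cons c w => by_cases h : c = y <;> simp [atF_Poly, h]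

theorem atF_one_Poly (y : Bool) (w : List Bool) : atF_Poly y 1 w = w := by
  cases w <;> simp [atF_Poly]

/-- the embedding below `y` -/
def at_Poly (y : Bool) : Pm →* Pm where
  toFun h := ⟨atF_Poly y h, atF_Poly y h⁻¹,
    fun w => by rw [atF_mul_Poly, inv_mul_cancel, atF_one_Poly],
    fun w => by rw [atF_mul_Poly, mul_inv_cancel, atF_one_Poly]⟩
  map_one' := Equiv.ext (atF_one_Poly y)
  map_mul' a b := Equiv.ext fun w => (atF_mul_Poly y a b w).symm

theorem at_apply_Poly (y : Bool) (h : Pm) (w : List Bool) : at_Poly y h w = atF_Poly y h w := rfl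

/-- change of the first letter -/
def swF_Poly : List Bool → List Bool
  | [] => []
  | a :: w => (!a) :: w

/-- change of the first letter as a permutation -/
def sw_Poly : Pm := Function.Involutive.toPerm swF_Poly fun w => by cases w <;> simp [swF_Poly]

theorem sw_apply_Poly (w : List Bool) : sw_Poly w = swF_Poly w := rfl

theorem hy_Poly {S : Type} (A : KP S) :
    Hy_Poly A at_Poly sw_Poly fun t => A.ga.gen (t, false) where
  ss := Equiv.ext fun w => by cases w <;> simp [sw_apply_Poly, swF_Poly]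
  sT y h := Equiv.ext fun w => by
    cases w <;> simp [sw_apply_Poly, swF_Poly, at_apply_Poly, atF_Poly]
  cm y a b := Equiv.ext fun w => by
    rcases w with _ | ⟨c, w⟩
    · rfl
    · cases c <;> cases y <;> simp [at_apply_Poly, atF_Poly]
  inj y a b h := by
    refine ⟨Equiv.ext fun v => ?_, Equiv.ext fun v => ?_⟩
    · simpa [at_apply_Poly, atF_Poly] using DFunLike.congr_fun h (y :: v)
    · simpa [at_apply_Poly, atF_Poly] using DFunLike.congr_fun h ((!y) :: v)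
  ns y a b h := by
    simpa [at_apply_Poly, atF_Poly, sw_apply_Poly, swF_Poly] using DFunLike.congr_fun h [y]
  hx := Equiv.ext fun w => by
    rcases w with _ | ⟨c, w⟩
    · rfl
    · by_cases h : A.cl (A.nx.symm A.sg) = c
      · simp [GA.gen_apply, GA.act, KP.ga, KP.z, at_apply_Poly, atF_Poly, sw_apply_Poly,
          swF_Poly, h]
      · simp [GA.gen_apply, GA.act, KP.ga, KP.z, at_apply_Poly, atF_Poly, sw_apply_Poly,
          swF_Poly, h, Ne.symm h]
  hb t ht := Equiv.ext fun w => by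
    have h0 : A.nx t ≠ A.sg := fun e => ht (by rw [KP.z, ← e, Equiv.symm_apply_apply])
    rcases w with _ | ⟨c, w⟩
    · rfl
    · by_cases h : A.cl t = c
      · simp [GA.gen_apply, GA.act, KP.ga, at_apply_Poly, atF_Poly, h, h0]
      · simp [GA.gen_apply, GA.act, KP.ga, at_apply_Poly, atF_Poly, h, h0, Ne.symm h]

theorem sPoly : SPoly := by
  intro S _ A hS j
  have hz : A.sg ≠ A.z := fun h => by
    have h1 : A.nx A.sg = A.sg := by
      have := A.nx_z
      rwa [← h] at this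
    have h2 : ∀ t, t = A.sg := fun t => by
      obtain ⟨k, rfl⟩ := A.hc t
      exact Function.iterate_fixed h1 k
    obtain ⟨a, b, hab⟩ := hS
    exact hab ((h2 a).trans (h2 b).symm)
  obtain ⟨l, h1, h2⟩ := ind_Poly (hy_Poly A) hz j
  refine ⟨l, fun i => ?_, h2⟩
  refine Subgroup.closure_mono ?_ (KH_Poly (h1 i))
  rintro _ ⟨t, rfl⟩
  exact ⟨_, rfl⟩

end Pool.Agent.MP_61ef33_al.Ctr
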