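import Pool.Agent.MP_61ef33_al.Ctr.St

set_option autoImplicit false

namespace Pool.Agent.MP_61ef33_al.Ctr

open Air

section
variable {S : Type} (A : KP S)

theorem mono_Prop {B B' : Set S} (h : B' ⊆ B) (hB : A.Sub B) : A.Sub B' := fun ε hε =>
  (hB ε hε).comp fun W : {W : List (S × Bool) // ∀ a ∈ W, a.1 ∈ B'} =>
    ⟨W.1, fun a ha => h (W.2 a ha)⟩

theorem len_Prop (W : List (S × Bool)) (y : Bool) :
    (A.ga.sec W y).length + (A.ga.sec W (!y)).length = W.length := by
  induction W generalizing y with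
  | nil => rfl
  | cons a W ih =>
    have h1 : (A.ga.prev y a).toList.length + (A.ga.prev (!y) a).toList.length = 1 := by
      simp only [KP.ga]
      generalize A.cl (A.nx.symm a.1) = c
      generalize (@decide (a.1 = A.sg) (Classical.propDecidable _) && a.2) = d
      cases y <;> cases c <;> cases d <;> simp
    have h2 := ih (xor y (A.ga.isg a))
    rw [GA.sec_cons, GA.sec_cons, List.length_append, List.length_append, List.length_cons,
      Bool.not_xor]
    omega

theorem two_Prop {B : Set S} (By : Bool → Set S)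
    (h : ∀ W : List (S × Bool), (∀ a ∈ W, a.1 ∈ B) → ∀ y, ∀ a ∈ A.ga.sec W y, a.1 ∈ By y)
    (hs : ∀ y, A.Sub (By y)) : A.Sub B := fun ε hε => by
  refine ((Sm.fin fun W : {W : List (S × Bool) // ∀ a ∈ W, a.1 ∈ B} => A.ga.par W.1).pair
    (((hs false ε hε).comp fun W => ⟨_, h W.1 W.2 false⟩).pair
      ((hs true ε hε).comp fun W => ⟨_, h W.1 W.2 true⟩))).det ?_ 0 ?_
  · intro a a' e
    simp only [Prod.mk.injEq] at e
    refine A.ga.ev_eq_of_sec e.1 fun y => ?_
    cases y
    exacts [e.2.1, e.2.2]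
  · intro a
    have h1 := len_Prop A a.1 false
    rw [Bool.not_false] at h1
    simp only [← h1, Nat.cast_add]
    linarith

theorem pre_Prop {B : Set S} (h : A.Sub (A.nx ⁻¹' B)) : A.Sub B :=
  two_Prop A (fun _ => A.nx ⁻¹' B) (fun W hW y a ha => by
    obtain ⟨s, h1, y', h2⟩ := A.ga.mem_sec ha
    show A.nx a.1 ∈ B
    rw [(A.prev_eq_some.1 h2).1]
    exact hW s h1) fun _ => h

theorem iter_Prop {B : Set S} (i : ℕ) (h : A.Sub (A.nx^[i] ⁻¹' B)) : A.Sub B := by
  induction i with
  | zero => exact h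
  | succ i ih => exact ih (pre_Prop A h)

theorem split_Prop {B : Set S} (hB : A.sg ∉ B)
    (h : ∀ y, A.Sub (A.nx ⁻¹' B ∩ {s | A.cl s = y})) : A.Sub B :=
  two_Prop A (fun y => A.nx ⁻¹' B ∩ {s | A.cl s = y}) (fun W hW y a ha => by
    have h0 : ∀ s ∈ W, A.ga.isg s = false := fun s hs => by
      rw [A.isg_eq, decide_eq_false_iff_not]
      exact fun e => hB (e ▸ hW s hs)
    obtain ⟨s, h1, h2⟩ := A.ga.mem_sec_of_not h0 ha
    obtain ⟨h3, -, h4⟩ := A.prev_eq_some.1 h2
    refine ⟨?_, ?_⟩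
    · show A.nx a.1 ∈ B
      rw [h3]
      exact hW s h1
    · show A.cl a.1 = y
      rw [h4, h0 s h1, Bool.false_and, Bool.xor_false]) h

theorem back_Prop [Finite S] {R : S → S → Prop} (hR : A.Cong R) (i : ℕ) {s t : S}
    (h : R (A.nx^[i] s) (A.nx^[i] t)) : R s t := by
  have h1 : ∀ (k : ℕ) (a b : S), R a b → R (A.nx^[k] a) (A.nx^[k] b) := fun k => by
    induction k with
    | zero => exact fun _ _ h => h
    | succ k ih => exact fun a b h => ih _ _ (hR.nx a b h)
  obtain ⟨n, hn⟩ : ∃ n, orderOf (G := Equiv.Perm S) A.nx = n + 1 :=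
    Nat.exists_eq_succ_of_ne_zero (orderOf_pos _).ne'
  have h2 : ∀ a, A.nx^[n * i] (A.nx^[i] a) = a := fun a => by
    rw [← Function.iterate_add_apply, ← Nat.succ_mul, Equiv.Perm.iterate_eq_pow, pow_mul,
      Nat.succ_eq_add_one, ← hn, pow_orderOf_eq_one, one_pow]
    rfl
  have h3 := h1 (n * i) _ _ h
  rwa [h2, h2] at h3

end

theorem sProp (hSplit : SSplit) : SProp := by
  intro S _ A pt R hU hM hS B
  induction hn : B.ncard using Nat.strong_induction_on generalizing B with
  | _ n ih =>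
    intro hB
    by_cases hp : ∃ s ∈ B, ∃ t ∈ B, ¬ R s t
    · obtain ⟨i, h1, s, t, hs, ht, hst⟩ := hSplit S A pt R hU hM B hB hp
      refine iter_Prop A i (split_Prop A h1 fun y => ?_)
      have hc : (A.nx ⁻¹' (A.nx^[i] ⁻¹' B)).ncard = n := by
        rw [← hn]
        exact Set.ncard_preimage_of_injective_subset_range (A.nx.injective.iterate (i + 1))
          (by rw [(A.nx.surjective.iterate (i + 1)).range_eq]; exact Set.subset_univ _)
      have hx : ∃ u ∈ A.nx ⁻¹' (A.nx^[i] ⁻¹' B), A.cl u ≠ y := by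
        by_cases e : A.cl s = y
        · exact ⟨t, ht, fun e' => hst (e.trans e'.symm)⟩
        · exact ⟨s, hs, e⟩
      obtain ⟨u, hu, hu'⟩ := hx
      refine ih _ (hc ▸ Set.ncard_lt_ncard
        ⟨Set.inter_subset_left, fun h => hu' (h hu).2⟩ (Set.toFinite _)) _ rfl fun e => hu' ?_
      exact (e.symm ▸ Set.mem_univ u : u ∈ _ ∩ {s | A.cl s = y}).2
    · push Not at hp
      rcases B.eq_empty_or_nonempty with rfl | ⟨s, hs⟩
      · exact mono_Prop A (Set.empty_subset _) hS
      · obtain ⟨i, rfl⟩ := A.hc s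
        exact iter_Prop A i (mono_Prop A
          (fun u hu => back_Prop A hM.cong i (hp _ hu _ hs)) hS)

end Pool.Agent.MP_61ef33_al.Ctr
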