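import Pool.Agent.MP_61ef33_al.Ctr.St

set_option autoImplicit false

namespace Pool.Agent.MP_61ef33_al.Ctr

open Air

theorem sRate : SRate := by
  classical
  intro X s f τ hτ
  refine ⟨fun h δ hδ => ?_, fun h δ hδ => ?_⟩
  · obtain ⟨K, K0, hK⟩ := h.pos (δ / 2) (by linarith)
    refine ⟨fun x => ∑' n : ℕ, (cnt s f n).indicator
      (fun _ => ENNReal.ofReal (Real.exp (-((τ + δ) * n)))) x, ?_, fun a => ?_⟩
    · rw [ENNReal.tsum_comm]
      have h1 : Summable fun n : ℕ => K * Real.exp (-(δ / 2)) ^ n :=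
        (summable_geometric_of_lt_one (Real.exp_pos _).le
          (Real.exp_lt_one_iff.2 (by linarith))).mul_left K
      refine ne_top_of_le_ne_top (ENNReal.ofReal_ne_top (r := ∑' n : ℕ,
        K * Real.exp (-(δ / 2)) ^ n)) ?_
      rw [ENNReal.ofReal_tsum_of_nonneg (fun n => by positivity) h1]
      refine ENNReal.tsum_le_tsum fun n => ?_
      rw [tsum_eq_sum (s := (hK n).1.toFinset) fun x hx =>
        Set.indicator_of_notMem (by simpa using hx) _,
        Finset.sum_congr rfl fun x hx => Set.indicator_of_mem ((hK n).1.mem_toFinset.1 hx) _,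
        Finset.sum_const, ← Set.ncard_eq_toFinset_card _ (hK n).1, nsmul_eq_mul,
        ← ENNReal.ofReal_natCast, ← ENNReal.ofReal_mul (Nat.cast_nonneg _)]
      refine ENNReal.ofReal_le_ofReal ((mul_le_mul_of_nonneg_right (hK n).2
        (Real.exp_pos _).le).trans (le_of_eq ?_))
      rw [mul_assoc, ← Real.exp_add, ← Real.exp_nat_mul]
      congr 2
      ring
    · refine le_trans ?_ (ENNReal.le_tsum (f a.1))
      rw [Set.indicator_of_mem (show a.1 ∈ cnt s f (f a.1) from ⟨a.2, le_rfl⟩)]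
  · obtain ⟨K, -, hK⟩ := sCount _ _ _ _ (h δ hδ)
    refine ⟨K, fun n => ?_⟩
    obtain ⟨h1, h2⟩ := hK ((τ + δ) * n)
    have h3 : cnt s f n ⊆ (fun x : s => x.1) '' {a | (τ + δ) * f a.1 ≤ (τ + δ) * n} :=
      fun x hx => ⟨⟨x, hx.1⟩, mul_le_mul_of_nonneg_left (Nat.cast_le.2 hx.2)
        (add_nonneg hτ hδ.le), rfl⟩
    exact ⟨h1.subset h3, (Nat.cast_le.2 (Set.ncard_le_ncard h3 h1)).trans h2⟩

end Pool.Agent.MP_61ef33_al.Ctr
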