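import Pool.Agent.MP_61ef33_al.Ctr.St

set_option autoImplicit false

namespace Pool.Agent.MP_61ef33_al.Ctr

theorem ep_Real {S : Type} (nx : S ≃ S) (sg : S) (hc : ∀ s, ∃ k, nx^[k] sg = s) (b : S → Bool) :
    ∃ ep : S → Bool, ∀ t, nx t ≠ sg → ep (nx t) = xor (ep t) (b t) := by
  classical
  have hi : ∀ t, nx t ≠ sg → Nat.find (hc (nx t)) = Nat.find (hc t) + 1 := by
    intro t ht
    refine le_antisymm (Nat.find_min' _ ?_) ?_
    · rw [Function.iterate_succ_apply', Nat.find_spec (hc t)]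
    · have h1 := Nat.find_spec (hc (nx t))
      generalize Nat.find (hc (nx t)) = m at h1
      cases m with
      | zero => exact absurd h1.symm ht
      | succ m =>
        rw [Function.iterate_succ_apply'] at h1
        exact Nat.succ_le_succ (Nat.find_min' _ (nx.injective h1))
  let e : ℕ → Bool := fun k => Nat.rec false (fun k r => xor r (b (nx^[k] sg))) k
  refine ⟨fun s => e (Nat.find (hc s)), fun t ht => ?_⟩
  change e (Nat.find (hc (nx t))) = xor (e (Nat.find (hc t))) (b t)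
  rw [hi t ht]
  change xor (e (Nat.find (hc t))) (b (nx^[Nat.find (hc t)] sg)) = _
  rw [Nat.find_spec (hc t)]

theorem orb_Real (f : ℝ → ℝ) (m : ℕ) (h : f^[m + 1] 0 = 0) :
    ∃ (S : Type) (_ : Fintype S) (nx : S ≃ S) (z : S) (pt : S → ℝ), Function.Injective pt ∧
      pt z = 0 ∧ (∀ s, pt (nx s) = f (pt s)) ∧ ∀ s, ∃ k, nx^[k] (nx z) = s := by
  let S : Type := {x : ℝ // ∃ k, f^[k] 0 = x}
  have hp : Function.IsPeriodicPt f (m + 1) 0 := h
  have hfin : Finite S := by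
    refine Finite.of_surjective (fun i : Fin (m + 1) => (⟨f^[i] 0, i, rfl⟩ : S)) ?_
    rintro ⟨_, k, rfl⟩
    exact ⟨⟨k % (m + 1), Nat.mod_lt _ m.succ_pos⟩, Subtype.ext (hp.iterate_mod_apply k)⟩
  let nx0 : S → S := fun s => ⟨f s.1, by
    obtain ⟨k, hk⟩ := s.2
    exact ⟨k + 1, by rw [Function.iterate_succ_apply', hk]⟩⟩
  have hk : ∀ k, f^[k + m + 1] 0 = f^[k] 0 := fun k => by
    rw [add_assoc, Function.iterate_add_apply, h]
  have hs : Function.Surjective nx0 := by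
    rintro ⟨_, k, rfl⟩
    refine ⟨⟨f^[k + m] 0, _, rfl⟩, Subtype.ext ?_⟩
    change f (f^[k + m] 0) = f^[k] 0
    rw [← hk k, Function.iterate_succ_apply']
  let nx : S ≃ S := Equiv.ofBijective nx0 (Finite.surjective_iff_bijective.1 hs)
  have hit : ∀ k (s : S), (nx^[k] s).1 = f^[k] s.1 := by
    intro k s
    induction k with
    | zero => rfl
    | succ k ih =>
      rw [Function.iterate_succ_apply', Function.iterate_succ_apply', ← ih]
      rfl
  refine ⟨S, Fintype.ofFinite S, nx, ⟨0, 0, rfl⟩, Subtype.val, Subtype.val_injective, rfl,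
    fun _ => rfl, ?_⟩
  rintro ⟨_, k, rfl⟩
  refine ⟨k + m, Subtype.ext ?_⟩
  rw [hit]
  exact hk k

theorem sReal : SReal := by
  classical
  intro c n hn h
  obtain ⟨m, rfl⟩ : ∃ m, n = m + 1 := ⟨n - 1, by omega⟩
  obtain ⟨S, hS, nx, z, pt, hinj, hz, hnx, hc⟩ := orb_Real _ m h
  obtain ⟨ep, hep⟩ := ep_Real nx (nx z) hc fun s => decide (pt s < 0)
  let A : KP S := ⟨nx z, nx, fun s => if s = z then ep z else decide (0 < pt s), hc⟩
  have hAz : A.z = z := nx.symm_apply_apply z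
  have hcl : ∀ s, s ≠ z → A.cl s = decide (0 < pt s) := fun s hs => if_neg hs
  have hne : ∀ s, s ≠ z ↔ pt s ≠ 0 := fun s => by rw [← hz]; exact hinj.ne_iff.symm
  have hit : ∀ k, pt (nx^[k] z) = (fun x : ℝ => x ^ 2 + c)^[k] 0 := by
    intro k
    induction k with
    | zero => exact hz
    | succ k ih => rw [Function.iterate_succ_apply', Function.iterate_succ_apply', hnx, ih]
  let Q : RC S := ⟨A, c, pt, ep, hinj, by rw [hAz, hz], hnx, by rw [hAz]; exact hcl,
    by rw [hAz]; exact if_pos rfl,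
    fun t ht => hep t fun e => ht (by rw [hAz]; exact nx.injective e)⟩
  refine ⟨S, hS, Q, rfl, ⟨hinj, ?_, ?_, ?_⟩, fun hc0 => ⟨nx z, z, ?_⟩, ?_⟩
  · change ∀ s t, s ≠ A.z → t ≠ A.z → (A.cl s = A.cl t ↔ (pt s < pt A.z ↔ pt t < pt A.z))
    rw [hAz, hz]
    intro s t hs ht
    have h1 := (hne s).1 hs
    have h2 := (hne t).1 ht
    rw [hcl s hs, hcl t ht, decide_eq_decide, ← h1.le_iff_lt, ← h2.le_iff_lt, ← not_lt (a := 0),
      ← not_lt (a := 0), not_iff_not]
  · change ∀ s t, pt A.z ≤ pt s → pt s < pt t → pt (nx s) < pt (nx t)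
    rw [hAz, hz]
    intro s t h1 h2
    rw [hnx, hnx]
    nlinarith
  · change ∀ s t, pt s < pt t → pt t ≤ pt A.z → pt (nx t) < pt (nx s)
    rw [hAz, hz]
    intro s t h1 h2
    rw [hnx, hnx]
    nlinarith
  · rw [hne, hnx, hz]
    simpa using hc0
  · change (∃ g, 1 ≤ g ∧ ∀ i j, ¬ 2 * g ∣ i → ¬ 2 * g ∣ j → i ≡ j [MOD g] →
      nx^[i] A.z ≠ A.z ∧ A.cl (nx^[i] A.z) = A.cl (nx^[j] A.z)) ↔ _
    rw [hAz]
    refine exists_congr fun g => and_congr_right fun _ => ⟨fun H i j hi hj hij => ?_,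
      fun H i j hi hj hij => ?_⟩
    · obtain ⟨h1, h2⟩ := H i j hi hj hij
      have h3 := (H j i hj hi hij.symm).1
      rw [hcl _ h1, hcl _ h3, decide_eq_decide] at h2
      rw [hne] at h1 h3
      rw [← hit, ← hit]
      by_cases h4 : 0 < pt (nx^[i] z)
      · exact mul_pos h4 (h2.1 h4)
      · exact mul_pos_of_neg_of_neg (lt_of_le_of_ne (not_lt.1 h4) h1)
          (lt_of_le_of_ne (not_lt.1 fun h5 => h4 (h2.2 h5)) h3)
    · have h0 := H i j hi hj hij
      rw [← hit, ← hit] at h0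
      have h1 := (hne _).2 (left_ne_zero_of_mul h0.ne')
      have h3 := (hne _).2 (right_ne_zero_of_mul h0.ne')
      refine ⟨h1, ?_⟩
      rw [hcl _ h1, hcl _ h3, decide_eq_decide]
      exact pos_iff_pos_of_mul_pos h0

end Pool.Agent.MP_61ef33_al.Ctr
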