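import Pool.Agent.MP_61ef33_al.Ctr.St

set_option autoImplicit false

namespace Pool.Agent.MP_61ef33_al.Ctr

theorem iff_Ren1 {T : Type} {f g : T → ℝ} (hg : Function.Injective g)
    (h : ∀ s t, g s < g t → f s < f t) (s t : T) : f s < f t ↔ g s < g t := by
  refine ⟨fun h1 => ?_, h s t⟩
  rcases lt_trichotomy (g s) (g t) with h2 | h2 | h2
  · exact h2
  · rw [hg h2] at h1; exact absurd h1 (lt_irrefl _)
  · exact absurd (h t s h2) (lt_asymm h1)

theorem it_Ren1 {S : Type} {A : KP S} {R : S → S → Prop} (hR : A.Cong R) (m : ℕ) {s t : S}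
    (h : R s t) : R (A.nx^[m] s) (A.nx^[m] t) := by
  induction m with
  | zero => exact h
  | succ m ih => rw [Function.iterate_succ_apply', Function.iterate_succ_apply']; exact hR.nx _ _ ih

theorem mono_Ren1 {S : Type} {A : KP S} {pt : S → ℝ} {R : S → S → Prop} {p : ℕ} (hU : A.UM pt)
    (hR : A.Cong R) (hp : A.IsPer R p) (m : ℕ) (hm : m < p) :
    (∀ s t : {s // R s A.sg}, pt s.1 < pt t.1 → pt (A.nx^[m] s.1) < pt (A.nx^[m] t.1)) ∨
      ∀ s t : {s // R s A.sg}, pt s.1 < pt t.1 → pt (A.nx^[m] t.1) < pt (A.nx^[m] s.1) := by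
  induction m with
  | zero => exact Or.inl fun s t h => h
  | succ m ih =>
    have h1 : ∀ s, R s A.sg → ¬ R (A.nx^[m] s) A.z := fun s hs h => by
      have h2 := hR.nx _ _ h
      rw [A.nx_z, ← Function.iterate_succ_apply' A.nx] at h2
      exact hp.min (m + 1) (Nat.succ_pos m) hm
        (hR.eqv.trans (hR.eqv.symm (it_Ren1 hR (m + 1) hs)) h2)
    have h2 : ∀ s, R s A.sg → A.nx^[m] s ≠ A.z := fun s hs h => h1 s hs (h ▸ hR.eqv.refl _)
    have h3 : ∀ s, R s A.sg → (pt (A.nx^[m] s) < pt A.z ↔ pt (A.nx^[m] A.sg) < pt A.z) :=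
      fun s hs => (hU.cl_eq _ _ (h2 s hs) (h2 _ (hR.eqv.refl _))).1
        (hR.cl _ _ (it_Ren1 hR m hs) (h1 s hs))
    simp only [Function.iterate_succ_apply']
    by_cases h4 : pt (A.nx^[m] A.sg) < pt A.z
    · rcases ih (by omega) with h | h
      · exact Or.inr fun s t hst => hU.dn _ _ (h s t hst) ((h3 _ t.2).2 h4).le
      · exact Or.inl fun s t hst => hU.dn _ _ (h s t hst) ((h3 _ s.2).2 h4).le
    · rcases ih (by omega) with h | h
      · exact Or.inl fun s t hst => hU.up _ _ (not_lt.1 (mt (h3 _ s.2).1 h4)) (h s t hst)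
      · exact Or.inr fun s t hst => hU.up _ _ (not_lt.1 (mt (h3 _ t.2).1 h4)) (h s t hst)

theorem ex_Ren1 {S : Type} [Finite S] {A : KP S} {R : S → S → Prop} {p : ℕ}
    (hR : A.Cong R) (hp : A.IsPer R p) : ∃ A' : KP {s // R s A.sg}, A.IsRen R p A' := by
  let f : {s // R s A.sg} → {s // R s A.sg} := fun s =>
    ⟨A.nx^[p] s.1, hR.eqv.trans (it_Ren1 hR p s.2) hp.per⟩
  have hf : Function.Injective f := fun s t h =>
    Subtype.ext (A.nx.injective.iterate p (congrArg Subtype.val h))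
  have hq : ∀ (q : ℕ) (s : {s // R s A.sg}), (f^[q] s).1 = A.nx^[p * q] s.1 := by
    intro q s
    induction q with
    | zero => rfl
    | succ q ih =>
      rw [Function.iterate_succ_apply', Nat.mul_succ, add_comm, Function.iterate_add_apply, ← ih]
  refine ⟨⟨⟨A.sg, hR.eqv.refl _⟩, Equiv.ofBijective f (Finite.injective_iff_bijective.1 hf),
    fun s => A.cl (A.nx^[p - 1] s.1), fun s => ?_⟩, rfl, fun _ => rfl, fun _ => rfl⟩
  obtain ⟨k, hk⟩ := A.hc s.1
  rw [← Nat.mod_add_div k p, Function.iterate_add_apply] at hk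
  have h1 := (f^[k / p] ⟨A.sg, hR.eqv.refl _⟩).2
  rw [hq] at h1
  have h2 : R (A.nx^[k % p] A.sg) A.sg :=
    hR.eqv.trans (hR.eqv.symm (it_Ren1 hR (k % p) h1)) (hk ▸ s.2)
  have h3 : k % p = 0 := by
    by_contra h
    exact hp.min _ (Nat.pos_of_ne_zero h) (Nat.mod_lt k hp.pos) h2
  rw [h3] at hk
  exact ⟨k / p, Subtype.ext ((hq _ _).trans hk)⟩

theorem sRen1 (hOrd : SOrd) : SRen1 := by
  intro S _ A pt R p hU hR hp
  obtain ⟨A', hA⟩ := ex_Ren1 hR hp
  refine ⟨A', hA, ?_⟩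
  have hp0 := hp.pos
  have hi : Function.Injective fun s : {s // R s A.sg} => pt s.1 :=
    hU.inj.comp Subtype.val_injective
  have h1 : ∀ s, (A'.nx s).1 = A.nx (A.nx^[p - 1] s.1) := fun s => by
    rw [hA.nx, ← Function.iterate_succ_apply' A.nx, Nat.succ_eq_add_one, Nat.sub_add_cancel hp0]
  have h2 : A.nx^[p - 1] A'.z.1 = A.z := A.nx.injective (by rw [← h1, A'.nx_z, hA.sg, A.nx_z])
  have h3 : ∀ s, s ≠ A'.z → A.nx^[p - 1] s.1 ≠ A.z := fun s hs h =>
    hs (Subtype.ext (A.nx.injective.iterate (p - 1) (h.trans h2.symm)))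
  rcases mono_Ren1 hU hR hp (p - 1) (by omega) with h | h
  · have e := iff_Ren1 (f := fun s => pt (A.nx^[p - 1] s.1)) hi h
    refine ⟨hi, fun s t hs ht => ?_, fun s t hs hst => ?_, fun s t hst ht => ?_⟩
    · rw [hA.cl, hA.cl, hU.cl_eq _ _ (h3 s hs) (h3 t ht), ← h2]
      exact iff_congr (e s _) (e t _)
    · rw [h1, h1]
      refine hU.up _ _ ?_ (h s t hst)
      rw [← h2]
      exact not_lt.1 (mt (e s _).1 (not_lt.2 hs))
    · rw [h1, h1]
      refine hU.dn _ _ (h s t hst) ?_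
      rw [← h2]
      exact not_lt.1 (mt (e _ t).1 (not_lt.2 ht))
  · have e0 := iff_Ren1 (f := fun s => -pt (A.nx^[p - 1] s.1)) hi
      fun s t hst => neg_lt_neg (h s t hst)
    have e : ∀ s t : {s // R s A.sg},
        pt (A.nx^[p - 1] t.1) < pt (A.nx^[p - 1] s.1) ↔ pt s.1 < pt t.1 :=
      fun s t => neg_lt_neg_iff.symm.trans (e0 s t)
    refine ⟨hi, fun s t hs ht => ?_, fun s t hs hst => ?_, fun s t hst ht => ?_⟩
    · have k : ∀ s, s ≠ A'.z → (pt A'.z.1 < pt s.1 ↔ ¬ pt s.1 < pt A'.z.1) := fun s hs =>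
        ⟨lt_asymm, fun h' => lt_of_le_of_ne (not_lt.1 h') fun h'' => hs (hi h'').symm⟩
      rw [hA.cl, hA.cl, hU.cl_eq _ _ (h3 s hs) (h3 t ht), ← h2, e, e, k s hs, k t ht]
      exact not_iff_not
    · rw [h1, h1]
      refine hU.dn _ _ (h s t hst) ?_
      rw [← h2]
      exact not_lt.1 (mt (e s _).1 (not_lt.2 hs))
    · rw [h1, h1]
      refine hU.up _ _ ?_ (h s t hst)
      rw [← h2]
      exact not_lt.1 (mt (e _ t).1 (not_lt.2 ht))

end Pool.Agent.MP_61ef33_al.Ctr
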