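import Pool.Agent.MP_61ef33_al.Ctr.St

set_option autoImplicit false

namespace Pool.Agent.MP_61ef33_al.Ctr

theorem sRen2 (hOrd : SOrd) : SRen2 := by
  intro S _ A R p A' hR hp hI ⟨g, hg, hE⟩
  have fw : ∀ m s t, R s t → R (A.nx^[m] s) (A.nx^[m] t) := fun m s t h => by
    induction m with
    | zero => exact h
    | succ m ih =>
      rw [Function.iterate_succ_apply', Function.iterate_succ_apply']
      exact hR.nx _ _ ih
  have hit : ∀ k s, (A'.nx^[k] s).1 = A.nx^[p * k] s.1 := fun k s => by
    induction k with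
    | zero => rfl
    | succ k ih =>
      rw [Function.iterate_succ_apply', hI.nx, ih, ← Function.iterate_add_apply, Nat.mul_succ,
        add_comm]
  have hz : A.nx^[p - 1] A'.z.1 = A.z := by
    apply A.nx.injective
    rw [A.nx_z, ← Function.iterate_succ_apply' A.nx, show (p - 1).succ = p by
      have := hp.pos; omega, ← hI.nx, A'.nx_z, hI.sg]
  have hcm : ∀ k, A.nx^[p - 1] (A'.nx^[k] A'.z).1 = A.nx^[p * k] A.z := fun k => by
    rw [hit, ← Function.iterate_add_apply, add_comm, Function.iterate_add_apply, hz]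
  have hper : ∀ q u, R (A.nx^[p * q] u) u := fun q u => by
    induction q with
    | zero => exact hR.eqv.refl u
    | succ q ih =>
      refine hR.eqv.trans ?_ ih
      obtain ⟨k, hk⟩ := A.hc (A.nx^[p * q] u)
      rw [Nat.mul_succ, add_comm, Function.iterate_add_apply, ← hk, ← Function.iterate_add_apply,
        add_comm, Function.iterate_add_apply]
      exact fw k _ _ hp.per
  have hmod : ∀ i u, R (A.nx^[i] u) (A.nx^[i % p] u) := fun i u => by
    have := hper (i / p) (A.nx^[i % p] u)
    rwa [← Function.iterate_add_apply, Nat.div_add_mod] at this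
  refine ⟨p * g, Nat.mul_pos hp.pos hg, fun i j hi hj hij => ?_⟩
  by_cases h : p ∣ i
  · obtain ⟨j, rfl⟩ := (hij.dvd_iff (dvd_mul_right p g)).1 h
    obtain ⟨i, rfl⟩ := h
    rw [mul_left_comm] at hi hj
    obtain ⟨h1, h2⟩ := hE i j (fun k => hi (mul_dvd_mul_left p k))
      (fun k => hj (mul_dvd_mul_left p k)) (hij.mul_left_cancel' hp.pos.ne')
    rw [hI.cl, hI.cl, hcm, hcm] at h2
    refine ⟨fun e => h1 (Subtype.ext (A.nx.injective.iterate (p - 1) ?_)), h2⟩
    rw [hcm, hz, e]
  · have hn : ¬ R (A.nx^[i] A.z) A.z := fun r => by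
      have h1 := hR.nx _ _ r
      rw [← Function.iterate_succ_apply' A.nx, Function.iterate_succ_apply, A.nx_z] at h1
      exact hp.min (i % p) (Nat.pos_of_ne_zero fun k => h (Nat.dvd_of_mod_eq_zero k))
        (Nat.mod_lt i hp.pos) (hR.eqv.trans (hR.eqv.symm (hmod i _)) h1)
    have h2 : i % p = j % p := Nat.ModEq.of_mul_right g hij
    refine ⟨fun e => hn (by rw [e]; exact hR.eqv.refl _), hR.cl _ _ ?_ hn⟩
    refine hR.eqv.trans (hmod i _) ?_
    rw [h2]
    exact hR.eqv.symm (hmod j _)

end Pool.Agent.MP_61ef33_al.Ctr
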