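import Pool.Agent.MP_61ef33_al.Ctr.St

set_option autoImplicit false

namespace Pool.Agent.MP_61ef33_al.Ctr

open Air

section

variable {S : Type} {A : KP S} {R : S → S → Prop} {p : ℕ} {A' : KP {s // R s A.sg}}

/-- the image of a word over the cluster of the active state -/
def mp_Ren3 (A : KP S) (R : S → S → Prop) (i : ℕ) (W : List ({s // R s A.sg} × Bool)) :
    List (S × Bool) := W.map fun a => (A.nx^[i] a.1.1, a.2)

theorem iter_Ren3 (hC : A.Cong R) (i : ℕ) {s t : S} (h : R s t) : R (A.nx^[i] s) (A.nx^[i] t) := by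
  induction i with
  | zero => exact h
  | succ i ih => rw [Function.iterate_succ_apply', Function.iterate_succ_apply']; exact hC.nx _ _ ih

theorem isg0_Ren3 (hR : A.IsRen R p A') (a : {s // R s A.sg} × Bool) :
    A.ga.isg (a.1.1, a.2) = A'.ga.isg a := by
  rw [KP.isg_eq, KP.isg_eq, decide_eq_decide, Subtype.ext_iff, hR.sg]

theorem symm_Ren3 (hP : A.IsPer R p) (hR : A.IsRen R p A') (s : {s // R s A.sg}) :
    A.nx.symm s.1 = A.nx^[p - 1] (A'.nx.symm s).1 := by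
  rw [Equiv.symm_apply_eq, ← Function.iterate_succ_apply' A.nx, Nat.succ_eq_add_one,
    Nat.sub_add_cancel hP.pos, ← hR.nx, Equiv.apply_symm_apply]

theorem prev0_Ren3 (hP : A.IsPer R p) (hR : A.IsRen R p A') (y : Bool)
    (a : {s // R s A.sg} × Bool) : A.ga.prev y (a.1.1, a.2) =
      (A'.ga.prev y a).map fun b => (A.nx^[p - 1] b.1.1, b.2) := by
  have h1 := isg0_Ren3 hR a
  rw [KP.isg_eq, KP.isg_eq] at h1
  simp only [KP.ga] at h1 ⊢
  rw [h1, hR.cl, ← symm_Ren3 hP hR]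
  split_ifs
  · rw [Option.map_some, ← symm_Ren3 hP hR]
  · rfl

theorem par0_Ren3 (hR : A.IsRen R p A') (W : List ({s // R s A.sg} × Bool)) :
    A.ga.par (mp_Ren3 A R 0 W) = A'.ga.par W := by
  induction W with
  | nil => rfl
  | cons a W ih =>
    have : mp_Ren3 A R 0 (a :: W) = (a.1.1, a.2) :: mp_Ren3 A R 0 W := rfl
    rw [this, GA.par_cons, GA.par_cons, ih, isg0_Ren3 hR]

theorem sec0_Ren3 (hP : A.IsPer R p) (hR : A.IsRen R p A') (W : List ({s // R s A.sg} × Bool))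
    (y : Bool) : A.ga.sec (mp_Ren3 A R 0 W) y = mp_Ren3 A R (p - 1) (A'.ga.sec W y) := by
  induction W generalizing y with
  | nil => rfl
  | cons a W ih =>
    have : mp_Ren3 A R 0 (a :: W) = (a.1.1, a.2) :: mp_Ren3 A R 0 W := rfl
    rw [this, GA.sec_cons, GA.sec_cons, ih, isg0_Ren3 hR, prev0_Ren3 hP hR]
    simp only [mp_Ren3, List.map_append]
    cases A'.ga.prev y a <;> rfl

theorem isg1_Ren3 (hC : A.Cong R) (hP : A.IsPer R p) {i : ℕ} (hi : i + 1 < p)
    (a : {s // R s A.sg} × Bool) : A.ga.isg (A.nx^[i + 1] a.1.1, a.2) = false := by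
  rw [KP.isg_eq, decide_eq_false_iff_not]
  intro h
  have h1 := iter_Ren3 hC (i + 1) a.1.2
  rw [show A.nx^[i + 1] a.1.1 = A.sg from h] at h1
  exact hP.min _ (Nat.succ_pos i) hi (hC.eqv.symm h1)

theorem cl1_Ren3 (hC : A.Cong R) (hP : A.IsPer R p) {i : ℕ} (hi : i + 1 < p)
    (s : {s // R s A.sg}) : A.cl (A.nx^[i] s.1) = A.cl (A.nx^[i] A.sg) := by
  refine hC.cl _ _ (iter_Ren3 hC i s.2) fun h => ?_
  have h1 := hC.nx _ _ h
  rw [A.nx_z, ← Function.iterate_succ_apply' A.nx] at h1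
  exact hP.min _ (Nat.succ_pos i) hi
    (hC.eqv.trans (hC.eqv.symm (iter_Ren3 hC (i + 1) s.2)) h1)

theorem prev1_Ren3 (hC : A.Cong R) (hP : A.IsPer R p) {i : ℕ} (hi : i + 1 < p) (y : Bool)
    (a : {s // R s A.sg} × Bool) : A.ga.prev y (A.nx^[i + 1] a.1.1, a.2) =
      if A.cl (A.nx^[i] A.sg) = y then some (A.nx^[i] a.1.1, a.2) else none := by
  have h1 := isg1_Ren3 hC hP hi a
  rw [KP.isg_eq] at h1
  simp only [KP.ga] at h1 ⊢
  rw [h1, Function.iterate_succ_apply', Equiv.symm_apply_apply, cl1_Ren3 hC hP hi,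
    Bool.false_and, Bool.xor_false]

theorem par1_Ren3 (hC : A.Cong R) (hP : A.IsPer R p) {i : ℕ} (hi : i + 1 < p)
    (W : List ({s // R s A.sg} × Bool)) : A.ga.par (mp_Ren3 A R (i + 1) W) = false := by
  refine A.ga.par_of_not fun s hs => ?_
  obtain ⟨a, -, rfl⟩ := List.mem_map.1 hs
  exact isg1_Ren3 hC hP hi a

theorem sec1_Ren3 (hC : A.Cong R) (hP : A.IsPer R p) {i : ℕ} (hi : i + 1 < p)
    (W : List ({s // R s A.sg} × Bool)) (y : Bool) : A.ga.sec (mp_Ren3 A R (i + 1) W) y =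
      if A.cl (A.nx^[i] A.sg) = y then mp_Ren3 A R i W else [] := by
  induction W with
  | nil => simp [mp_Ren3]
  | cons a W ih =>
    have e : ∀ j, mp_Ren3 A R j (a :: W) = (A.nx^[j] a.1.1, a.2) :: mp_Ren3 A R j W := fun _ => rfl
    rw [e, e, GA.sec_cons, isg1_Ren3 hC hP hi, Bool.xor_false, ih, prev1_Ren3 hC hP hi]
    split_ifs <;> rfl

theorem ev_Ren3 (hC : A.Cong R) (hP : A.IsPer R p) (hR : A.IsRen R p A') (v : List Bool) :
    ∀ i < p, ∀ W W' : List ({s // R s A.sg} × Bool), A'.ga.ev W = A'.ga.ev W' →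
      A.ga.ev (mp_Ren3 A R i W) v = A.ga.ev (mp_Ren3 A R i W') v := by
  induction v with
  | nil => intro i _ W W' _; simp
  | cons y v ih =>
    intro i hi W W' h
    rw [GA.ev_apply_cons, GA.ev_apply_cons]
    rcases i with _ | i
    · rw [par0_Ren3 hR, par0_Ren3 hR, sec0_Ren3 hP hR, sec0_Ren3 hP hR, A'.ga.par_eq_of_ev h,
        ih (p - 1) (by omega) _ _ (A'.ga.sec_eq_of_ev h y)]
    · rw [par1_Ren3 hC hP hi, par1_Ren3 hC hP hi, sec1_Ren3 hC hP hi, sec1_Ren3 hC hP hi]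
      split_ifs
      · rw [ih i (by omega) _ _ h]
      · rfl

theorem lift_Ren3 (W : List (S × Bool)) (h : ∀ a ∈ W, a.1 ∈ {s | R s A.sg}) :
    ∃ W', mp_Ren3 A R 0 W' = W := by
  induction W with
  | nil => exact ⟨[], rfl⟩
  | cons a W ih =>
    obtain ⟨W', e⟩ := ih fun b hb => h b (List.mem_cons_of_mem _ hb)
    exact ⟨(⟨a.1, h a List.mem_cons_self⟩, a.2) :: W', congrArg (List.cons a) e⟩

end

theorem sRen3 : SRen3 := by
  intro S _ A R p A' hC hP hR h ε hε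
  choose g hg using fun W : {W : List (S × Bool) // ∀ a ∈ W, a.1 ∈ {s | R s A.sg}} =>
    lift_Ren3 W.1 W.2
  refine ((h ε hε).comp fun W => ⟨g W, fun _ _ => Set.mem_univ _⟩).det (fun W W' e => ?_) 0
    fun W => ?_
  · rw [← hg W, ← hg W']
    exact Equiv.ext fun v => ev_Ren3 hC hP hR v 0 hP.pos _ _ e
  · rw [add_zero, ← hg W, mp_Ren3, List.length_map]

end Pool.Agent.MP_61ef33_al.Ctr
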