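import Pool.Agent.MP_61ef33_al.Ctr.St
import Pool.Agent.MP_61ef33_al.Air.Sparse

set_option autoImplicit false

namespace Pool.Agent.MP_61ef33_al.Ctr

open Air
open scoped ENNReal

theorem lst_Sm {A X : Type} (φ : A → X) (c : A → ℝ) (K : ℝ) (w : X → ℝ≥0∞) (h : ∑' x, w x < 1)
    (hw : ∀ a, ENNReal.ofReal (Real.exp (-c a)) * ENNReal.ofReal (Real.exp (-K)) ≤ w (φ a)) :
    Sm (fun l : List A => l.map φ) fun l => (l.map c).sum + K * l.length := by
  refine ⟨fun l => (l.map w).prod, list_Sparse w h, fun l => ?_⟩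
  induction l with
  | nil => simp
  | cons a l ih =>
    simp only [List.map_cons, List.prod_cons, List.sum_cons, List.length_cons] at ih ⊢
    refine le_trans (le_of_eq ?_) (mul_le_mul' (hw a) ih)
    rw [← ENNReal.ofReal_mul (Real.exp_pos _).le, ← ENNReal.ofReal_mul (by positivity),
      ← Real.exp_add, ← Real.exp_add]
    congr 2
    push_cast
    ring

theorem opt_Sm {X : Type} (w : Option X → ℝ≥0∞) : ∑' x, w x = w none + ∑' x, w (some x) := by
  classical
  rw [ENNReal.tsum_eq_add_tsum_ite none]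
  congr 1
  refine ((Option.some_injective X).tsum_eq fun x hx => ?_).symm.trans (tsum_congr fun x => by simp)
  cases x with
  | none => simp at hx
  | some x => exact ⟨x, rfl⟩

theorem sSm : SSm := by
  classical
  refine ⟨fun A X φ c ⟨w, h1, h2⟩ => ?_, fun A X φ c ⟨w, h1, h2⟩ hc ε hε => ?_,
    fun A X φ c P ⟨w, h1, h2⟩ ⟨w', h1', h2'⟩ => ?_⟩
  · obtain ⟨T, hT, e⟩ : ∃ T : ℝ, 0 ≤ T ∧ ∑' x, w x = ENNReal.ofReal T :=
      ⟨_, ENNReal.toReal_nonneg, (ENNReal.ofReal_toReal h1).symm⟩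
    refine ⟨Real.log (T + 1), Real.log_nonneg (by linarith), lst_Sm φ c _
      (fun x => w x * ENNReal.ofReal (Real.exp (-Real.log (T + 1)))) ?_
      fun a => mul_le_mul' (h2 a) le_rfl⟩
    rw [ENNReal.tsum_mul_right, e, ← ENNReal.ofReal_mul hT, ENNReal.ofReal_lt_one, Real.exp_neg,
      Real.exp_log (by linarith), ← div_eq_mul_inv, div_lt_one (by linarith)]
    linarith
  · have h3 : 0 < Real.exp ε - 1 := sub_pos.2 (Real.one_lt_exp_iff.2 hε)
    obtain ⟨s, hs⟩ := ((tendsto_order.1 (ENNReal.tendsto_tsum_compl_atTop_zero h1)).2 _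
      (ENNReal.ofReal_pos.2 h3)).exists
    refine ⟨s, s.finite_toSet, lst_Sm _ c ε (fun o => o.elim 1 ((↑s : Set X)ᶜ.indicator w) *
      ENNReal.ofReal (Real.exp (-ε))) ?_ fun a => mul_le_mul' ?_ le_rfl⟩
    · rw [ENNReal.tsum_mul_right, opt_Sm]
      simp only [Option.elim_none, Option.elim_some]
      rw [← tsum_subtype]
      have h4 : 1 + ∑' x : ((↑s : Set X)ᶜ : Set X), w x < ENNReal.ofReal (Real.exp ε) := by
        rw [← add_sub_cancel 1 (Real.exp ε), ENNReal.ofReal_add zero_le_one h3.le,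
          ENNReal.ofReal_one]
        exact ENNReal.add_lt_add_left ENNReal.one_ne_top hs
      refine (ENNReal.mul_lt_mul_left (ENNReal.ofReal_pos.2 (Real.exp_pos _)).ne'
        ENNReal.ofReal_ne_top h4).trans_eq ?_
      rw [← ENNReal.ofReal_mul (Real.exp_pos _).le, ← Real.exp_add]
      simp
    · split_ifs with h
      · exact ENNReal.ofReal_le_one.2 (Real.exp_le_one_iff.2 (neg_nonpos.2 (hc a)))
      · rw [Option.elim_some, Set.indicator_of_mem (Set.mem_compl h)]
        exact h2 a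
  · refine ⟨fun x => w x + w' x, ?_, fun a => ?_⟩
    · rw [ENNReal.tsum_add]
      exact ENNReal.add_ne_top.2 ⟨h1, h1'⟩
    · by_cases h : P a
      · exact (h2 ⟨a, h⟩).trans le_self_add
      · exact (h2' ⟨a, h⟩).trans le_add_self

end Pool.Agent.MP_61ef33_al.Ctr
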