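import Pool.Agent.MP_61ef33_al.Ctr.St

set_option autoImplicit false

namespace Pool.Agent.MP_61ef33_al.Ctr

theorem cvx_Split {S : Type} (pt : S → ℝ) (X : Set S) : Cvx pt (hull pt X) :=
  fun _ _ _ ⟨a, ha, _, _, h1, _⟩ ⟨_, _, c, hc, _, h2⟩ h3 h4 =>
    ⟨a, ha, c, hc, h1.trans h3, h4.trans h2⟩

theorem sSplit (hOrd : SOrd) (hTL : STL) : SSplit := by
  intro S _ A pt R hU hM B hB ⟨s0, hs0, t0, ht0, hR⟩
  by_contra hc
  push Not at hc
  obtain ⟨⟨n, hn, hper⟩, -, h3⟩ := hOrd S A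
  obtain ⟨hmin, -, hh, -⟩ := h3 pt hU
  let H : ℕ → Set S := fun i => hull pt (A.nx^[i] ⁻¹' B)
  have key : ∀ i, A.nx '' H (i + 1) ⊆ H i := fun i => by
    refine (hh _ ?_).trans ?_
    · by_cases hz : A.z ∈ A.nx^[i + 1] ⁻¹' B
      · exact Or.inl hz
      · refine Or.inr fun s hs t ht => (hU.cl_eq s t (fun e => hz (e ▸ hs))
          (fun e => hz (e ▸ ht))).1 (hc i (fun h => hz ?_) s t hs ht)
        rwa [Set.mem_preimage, Function.iterate_succ_apply, A.nx_z]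
    · rintro b ⟨_, ⟨a, ha, rfl⟩, _, ⟨c, hc, rfl⟩, h⟩
      exact ⟨_, ha, _, hc, h⟩
  have anti : Antitone fun i => A.nx^[i] '' H i := antitone_nat_of_succ_le fun i => by
    rw [Function.iterate_succ, Set.image_comp]
    exact Set.image_mono (key i)
  have hid : ∀ q, A.nx^[n * q] = id := fun q => by
    rw [Function.iterate_mul, show A.nx^[n] = id from funext hper, Function.iterate_id]
  have hC : ∀ i, A.nx^[i] '' H i = hull pt B := fun i => by
    refine subset_antisymm (by simpa [H] using anti (Nat.zero_le i)) ?_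
    simpa [H, hid] using anti (Nat.le_mul_of_pos_left i hn)
  have huniv : hull pt B = Set.univ := by
    refine hTL S A pt R hU hM _ (fun i => ?_)
      ⟨s0, ⟨s0, hs0, s0, hs0, le_rfl, le_rfl⟩, t0, ⟨t0, ht0, t0, ht0, le_rfl, le_rfl⟩, hR⟩
    obtain ⟨j, hj⟩ := Nat.exists_eq_add_of_le (Nat.le_mul_of_pos_left i hn)
    rw [← hC j, ← Set.image_comp, ← Function.iterate_add, ← hj, hid, Set.image_id]
    exact cvx_Split _ _
  refine hB (Set.eq_univ_of_forall fun s => ?_)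
  obtain ⟨j, rfl⟩ := A.hc s
  obtain ⟨x, ⟨a, ha, -, -, h1, -⟩, e⟩ : A.nx^[j] A.sg ∈ A.nx^[j] '' H j := by
    rw [hC, huniv]; trivial
  obtain rfl := A.nx.injective.iterate j e
  rwa [hU.inj (le_antisymm h1 (hmin a))] at ha

end Pool.Agent.MP_61ef33_al.Ctr
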