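import Pool.Agent.MP_61ef33_al.Ctr.St

/- One level of the comparison of perfect words with the same ends. -/

set_option autoImplicit false

namespace Pool.Agent.MP_61ef33_al.Ctr

namespace GA.CS

variable {S I : Type} {A : GA S} (C : A.CS I)

/-- All descendants of depth `D` have nonempty words. -/
def NE_Step : ℕ → WT S I → Prop
  | 0, t => t.W ≠ []
  | D + 1, t => NE_Step D (C.child t false) ∧ NE_Step D (C.child t true)

def al_Step : ℕ → WT S I → ℤ
  | 0, t => (crs (t.a C.i0) (t.W.map (C.F C.i1)) false : ℤ) -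
      crs (t.a C.i1) (t.W.map (C.F C.i1)) false
  | D + 1, t => al_Step D (C.child t false) + al_Step D (C.child t true)

def be_Step : ℕ → WT S I → ℤ
  | 0, t => (crs false (t.W.map (C.F C.i1)) (t.b C.i0) : ℤ) -
      crs false (t.W.map (C.F C.i1)) (t.b C.i1)
  | D + 1, t => be_Step D (C.child t false) + be_Step D (C.child t true)

theorem crD_diff_Step (D : ℕ) {P m Y : WT S I} (hP : C.NE_Step D P) (hY : C.NE_Step D Y) :
    (C.crD C.i0 D (P.comp (m.comp Y)) : ℤ) - C.crD C.i1 D (P.comp (m.comp Y)) =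
      C.al_Step D P + C.be_Step D Y := by
  induction D generalizing P m Y with
  | zero =>
    simp only [crD, cr, WT.comp, C.h01, List.map_append, al_Step, be_Step]
    exact crs_diff _ _ _ _ _ _ _ (by simpa [NE_Step] using hP) (by simpa [NE_Step] using hY)
  | succ D ih =>
    have hY' : ∀ y, C.NE_Step D (C.child Y y) := fun y => by cases y; exact hY.1; exact hY.2
    have h1 := ih (m := C.child m (xor false (A.par P.W))) hP.1
      (hY' (xor (xor false (A.par P.W)) (A.par m.W)))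
    have h2 := ih (m := C.child m (xor true (A.par P.W))) hP.2
      (hY' (xor (xor true (A.par P.W)) (A.par m.W)))
    simp only [crD, child_comp, al_Step, be_Step]
    push_cast
    revert h1 h2
    cases A.par P.W <;> cases A.par m.W <;> simp <;> omega

theorem th_ge_Step (k : ℕ) : 3 ≤ C.th k := by
  induction k with
  | zero => exact le_rfl
  | succ k ih => simp only [th]; omega

theorem th_mono_Step {k l : ℕ} (h : k ≤ l) : C.th k ≤ C.th l := by
  induction h with
  | refl => exact le_rfl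
  | step _ ih => simp only [th]; omega

theorem letter_Step {t : WT S I} (h : 3 ≤ C.n t) : ∃ w ∈ t.W, C.F C.i1 w = true := by
  by_contra h'
  have := crs_const (t.a C.i1) (t.b C.i1) false (t.W.map (C.F C.i1)) (by
    intro d hd
    obtain ⟨s, hs, rfl⟩ := List.mem_map.1 hd
    exact Bool.eq_false_iff.2 fun e => h' ⟨s, hs, e⟩)
  unfold n cr at h
  omega

variable [Fintype I] {C}

theorem Tri.pP_Step {P m Y : WT S I} (h : C.Tri P m Y) : C.Perf P := h.ad1.perf_left h.perf

theorem Tri.pY_Step {P m Y : WT S I} (h : C.Tri P m Y) : C.Perf Y :=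
  h.ad2.perf_right (h.ad1.perf_right h.perf)

theorem Tri.n_eq_Step {P m Y : WT S I} (h : C.Tri P m Y) :
    C.n (P.comp (m.comp Y)) = C.n P + C.n m + C.n Y := by
  unfold n
  rw [h.ad1.cr, h.ad2.cr, add_assoc]

theorem Tri.child_Step {P m Y : WT S I} (h : C.Tri P m Y) (y : Bool) :
    C.Tri (C.child P y) (C.child m (xor y (A.par P.W)))
      (C.child Y (xor (xor y (A.par P.W)) (A.par m.W))) := by
  refine ⟨h.ad2.child (h.ad1.perf_right h.perf) _, ?_, ?_⟩
  · rw [← child_comp]; exact h.ad1.child h.perf y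
  · rw [← child_comp, ← child_comp]; exact h.perf.child y

variable (hMid : SMid) (hO : C.Odd)
include hMid hO

theorem th_child_Step {t : WT S I} (h : C.Perf t) {k : ℕ} (hk : C.th (k + 1) ≤ C.n t)
    (y : Bool) : C.th k ≤ C.n (C.child t y) := by
  have := (hMid S I A C hO t h).2 y
  simp only [th] at hk
  omega

theorem ne_Step {t : WT S I} (h : C.Perf t) {k : ℕ} (hk : C.th k ≤ C.n t) : C.NE_Step k t := by
  induction k generalizing t with
  | zero =>
    obtain ⟨w, hw, _⟩ := C.letter_Step hk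
    exact List.ne_nil_of_mem hw
  | succ k ih =>
    exact ⟨ih (h.child _) (th_child_Step hMid hO h hk _),
      ih (h.child _) (th_child_Step hMid hO h hk _)⟩

theorem stepA_Step {a b : I → Bool} {P1 M M' Y2 : List S} {w w' : S} (hw : C.F C.i1 w = true)
    (hw' : C.F C.i1 w' = true) (h : C.Perf ⟨a, P1 ++ w :: (M ++ w' :: Y2), b⟩)
    (h' : C.Perf ⟨a, P1 ++ w :: (M' ++ w' :: Y2), b⟩)
    (hn : C.n ⟨a, P1 ++ w :: (M ++ w' :: Y2), b⟩ = C.n ⟨a, P1 ++ w :: (M' ++ w' :: Y2), b⟩) :
    A.par M = A.par M' ∧ ∀ e, C.N C.i1 e ⟨a, P1 ++ w :: (M ++ w' :: Y2), b⟩ =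
      C.N C.i1 e ⟨a, P1 ++ w :: (M' ++ w' :: Y2), b⟩ := by
  have hi : A.isg w = false := Bool.eq_false_iff.2 fun e => by
    rw [C.hsg _ _ e] at hw
    exact Bool.false_ne_true hw
  have key : ∀ M : List S, C.Perf ⟨a, P1 ++ w :: (M ++ w' :: Y2), b⟩ →
      ∃ k, k % 2 = bd false (A.par M) ∧ C.n ⟨a, P1 ++ w :: (M ++ w' :: Y2), b⟩ =
        C.n ⟨a, P1, C.pos w⟩ + 2 * k + C.n ⟨C.pos w', w' :: Y2, b⟩ ∧
      ∀ e, C.N C.i1 e ⟨a, P1 ++ w :: (M ++ w' :: Y2), b⟩ = C.N C.i1 e ⟨a, P1, C.pos w⟩ + k +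
        C.N C.i1 (xor (xor e (A.par P1)) (A.par M)) ⟨C.pos w', w' :: Y2, b⟩ := by
    intro M h
    have ad1 := C.add_cut a b P1 (M ++ w' :: Y2) w
    have ad2 := C.add_cut (C.pos w) b (w :: M) Y2 w'
    have p1 := ad1.perf_right h
    have p2 := ad2.perf_left p1
    have hm := (hMid S I A C hO _ p2).1 hw hw'
    have hpar : A.par (w :: M) = A.par M := by simp [hi]
    refine ⟨C.N C.i1 true ⟨C.pos w, w :: M, C.pos w'⟩, by rw [hm.2, hpar], ?_, fun e => ?_⟩
    · have e1 := ad1.cr C.i1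
      have e2 := ad2.cr C.i1
      have e3 := C.N_add C.i1 false ⟨C.pos w, w :: M, C.pos w'⟩
      simp only [WT.comp, List.cons_append, Bool.not_false] at e1 e2 e3
      unfold n
      omega
    · have e1 := ad1.N C.i1 e
      have e2 := ad2.N C.i1 (xor e (A.par P1))
      simp only [WT.comp, List.cons_append, hpar] at e1 e2
      rw [e1, e2]
      have := hm.1
      cases xor e (A.par P1) <;> omega
  obtain ⟨k, k1, k2, k3⟩ := key M h
  obtain ⟨k', k1', k2', k3'⟩ := key M' h'
  have hk : k = k' := by omega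
  have hp : A.par M = A.par M' := by
    rw [hk, k1'] at k1
    revert k1
    cases A.par M <;> cases A.par M' <;> simp [bd]
  exact ⟨hp, fun e => by rw [k3, k3', hk, hp]⟩

theorem one_Step {P m m' Y : WT S I} (h : C.Tri P m Y) (h' : C.Tri P m' Y) (hn : C.n m = C.n m')
    (hP : C.th (C.L + 1) ≤ C.n P) (hY : C.th (C.L + 1) ≤ C.n Y) :
    A.par m.W = A.par m'.W ∧ ∀ y, C.n (C.child m y) = C.n (C.child m' y) := by
  obtain ⟨w, hw1, hw⟩ := C.letter_Step ((C.th_ge_Step _).trans hP)
  obtain ⟨w', hw1', hw'⟩ := C.letter_Step ((C.th_ge_Step _).trans hY)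
  obtain ⟨P1, P2, eP⟩ := List.append_of_mem hw1
  obtain ⟨Y1, Y2, eY⟩ := List.append_of_mem hw1'
  have e : ∀ m : WT S I, P.comp (m.comp Y) =
      ⟨P.a, P1 ++ w :: ((P2 ++ m.W ++ Y1) ++ w' :: Y2), Y.b⟩ := fun m => by
    simp [WT.comp, eP, eY]
  have hnn : C.n (P.comp (m.comp Y)) = C.n (P.comp (m'.comp Y)) := by
    rw [h.n_eq_Step, h'.n_eq_Step, hn]
  have sA := stepA_Step hMid hO (a := P.a) (b := Y.b) (P1 := P1) (Y2 := Y2)
    (M := P2 ++ m.W ++ Y1) (M' := P2 ++ m'.W ++ Y1) hw hw' (e m ▸ h.perf) (e m' ▸ h'.perf)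
    (by rw [← e, ← e]; exact hnn)
  rw [← e, ← e] at sA
  have hp : A.par m.W = A.par m'.W := by
    have := sA.1
    simp only [par_append] at this
    revert this
    cases A.par P2 <;> cases A.par Y1 <;> cases A.par m.W <;> cases A.par m'.W <;> simp
  refine ⟨hp, fun y' => ?_⟩
  obtain ⟨y, rfl⟩ : ∃ y, y' = xor y (A.par P.W) := ⟨xor y' (A.par P.W), by simp⟩
  have t1 := h.child_Step y
  have t2 := h'.child_Step y
  rw [← hp] at t2
  have key : ∀ m : WT S I, ∀ z, C.Tri (C.child P y) m (C.child Y z) →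
      (C.n ((C.child P y).comp (m.comp (C.child Y z))) : ℤ) =
        C.cr C.j1 ((C.child P y).comp (m.comp (C.child Y z))) +
        (C.al_Step C.L (C.child P y) + C.be_Step C.L (C.child Y z)) -
        (C.al_Step 0 (C.child P y) + C.be_Step 0 (C.child Y z)) := by
    intro m z t
    have b1 := th_child_Step hMid hO h.pP_Step hP y
    have b2 := th_child_Step hMid hO h.pY_Step hY z
    have d1 := C.crD_diff_Step C.L (m := m) (ne_Step hMid hO t.pP_Step b1)
      (ne_Step hMid hO t.pY_Step b2)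
    have d0 := C.crD_diff_Step 0 (m := m)
      (ne_Step hMid hO t.pP_Step ((C.th_mono_Step (Nat.zero_le _)).trans b1))
      (ne_Step hMid hO t.pY_Step ((C.th_mono_Step (Nat.zero_le _)).trans b2))
    rw [t.perf.crD, t.perf.crD, C.hL0, C.hL1] at d1
    simp only [CS.crD] at d0
    unfold n
    omega
  have k1 := key _ _ t1
  have k2 := key _ _ t2
  have j1 := h.perf.cr_child C.j1 y
  have j2 := h'.perf.cr_child C.j1 y
  rw [C.hj1] at j1 j2
  rw [child_comp, child_comp] at j1 j2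
  rw [← hp] at j2
  rw [sA.2] at j1
  have n1 := t1.n_eq_Step
  have n2 := t2.n_eq_Step
  omega

end GA.CS

theorem sStep (hMid : SMid) : SStep := fun _ _ _ _ _ hO _ _ _ _ h h' hn hP hY =>
  GA.CS.one_Step hMid hO h h' hn hP hY

end Pool.Agent.MP_61ef33_al.Ctr
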