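import Pool.Agent.MP_61ef33_al.Ctr.St

set_option autoImplicit false

namespace Pool.Agent.MP_61ef33_al.Ctr

theorem nest_TL {S : Type} {pt : S → ℝ} {m : S} (hm : ∀ s, pt m ≤ pt s) {Y Y' : Set S}
    (h : Cvx pt Y) (h' : Cvx pt Y') (a : m ∈ Y) (a' : m ∈ Y') : Y ⊆ Y' ∨ Y' ⊆ Y := by
  by_contra hc
  obtain ⟨h1, h2⟩ := not_or.1 hc
  obtain ⟨x, hx, hx'⟩ := Set.not_subset.1 h1
  obtain ⟨y, hy, hy'⟩ := Set.not_subset.1 h2
  rcases le_total (pt x) (pt y) with h3 | h3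
  · exact hx' (h' m x y a' hy (hm x) h3)
  · exact hy' (h m y x a hx (hm y) h3)

theorem sTL (hOrd : SOrd) : STL := by
  intro S _ A pt R hU hM X hX hst
  obtain ⟨s0, hs0, t0, ht0, hR0⟩ := hst
  obtain ⟨⟨n, hn, hper⟩, hback, hpt⟩ := hOrd S A
  obtain ⟨hmin, -, -, hcv⟩ := hpt pt hU
  have inj : ∀ k, Function.Injective A.nx^[k] := fun k => A.nx.injective.iterate k
  have hmul : ∀ k s, A.nx^[n * k] s = s := fun k s => by
    rw [Function.iterate_mul]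
    exact Function.iterate_fixed (hper s) k
  have inv : ∀ k s, A.nx^[(n - 1) * k] (A.nx^[k] s) = s := fun k s => by
    rw [← Function.iterate_add_apply, show (n - 1) * k + k = n * k by
      obtain ⟨m, rfl⟩ := Nat.exists_eq_add_of_le' hn
      simp [add_mul], hmul]
  have h1 : ∀ s, ∃ k, A.nx^[k] s = A.sg := fun s => by
    obtain ⟨k, rfl⟩ := A.hc s
    exact ⟨_, inv k _⟩
  obtain ⟨T, hT⟩ : ∃ T : ℕ → Set S, ∀ i, T i = A.nx^[i] '' X := ⟨_, fun _ => rfl⟩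
  have Tadd : ∀ k i, T (k + i) = A.nx^[k] '' T i := fun k i => by
    rw [hT, hT, Function.iterate_add, Set.image_comp]
  have Tc : ∀ i, (T i).ncard = X.ncard := fun i => by
    rw [hT, Set.ncard_image_of_injective _ (inj i)]
  have Tv : ∀ i, Cvx pt (T i) := fun i => hT i ▸ hX i
  have T0 : T 0 = X := by rw [hT]; simp
  have eqT : ∀ i j, A.sg ∈ T i → A.sg ∈ T j → T i = T j := fun i j a b => by
    rcases nest_TL hmin (Tv i) (Tv j) a b with h | h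
    · exact Set.eq_of_subset_of_ncard_le h (by rw [Tc, Tc]) (Set.toFinite _)
    · exact (Set.eq_of_subset_of_ncard_le h (by rw [Tc, Tc]) (Set.toFinite _)).symm
  have mv : ∀ k i u, u ∈ T i → A.nx^[k] u ∈ T (k + i) := fun k i u hu => by
    rw [Tadd]
    exact ⟨u, hu, rfl⟩
  have meet : ∀ i j u, u ∈ T i → u ∈ T j → T i = T j := fun i j u a b => by
    obtain ⟨k, hk⟩ := h1 u
    have h := eqT _ _ (hk ▸ mv k i u a) (hk ▸ mv k j u b)
    rw [Tadd, Tadd] at h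
    exact (inj k).image_injective h
  have hC : A.Cong fun s t => ∃ i, s ∈ T i ∧ t ∈ T i := by
    refine ⟨⟨fun s => ?_, fun ⟨i, a, b⟩ => ⟨i, b, a⟩, fun ⟨i, a, b⟩ ⟨j, c, d⟩ =>
      ⟨i, a, meet i j _ b c ▸ d⟩⟩, fun s t ⟨i, a, b⟩ => ⟨1 + i, mv 1 i s a, mv 1 i t b⟩, ?_⟩
    · obtain ⟨k, hk⟩ := h1 s0
      obtain ⟨l, rfl⟩ := A.hc s
      have h := mv l _ _ (hk ▸ mv k 0 s0 (T0 ▸ hs0))
      exact ⟨_, h, h⟩
    · rintro s t ⟨i, a, b⟩ hz
      have hz' : A.z ∉ T i := fun h => hz ⟨i, a, h⟩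
      refine (hU.cl_eq s t (fun h => hz' (h ▸ a)) (fun h => hz' (h ▸ b))).2 ⟨fun h => ?_, fun h => ?_⟩
      · by_contra h'
        exact hz' (Tv i s _ t a b h.le (not_lt.1 h'))
      · by_contra h'
        exact hz' (Tv i t _ s b a h.le (not_lt.1 h'))
  have fw : ∀ k s t, R s t → R (A.nx^[k] s) (A.nx^[k] t) := fun k => by
    induction k with
    | zero => exact fun _ _ h => h
    | succ k ih => exact fun s t h => ih _ _ (hM.cong.nx s t h)
  have bw : ∀ k s t, R (A.nx^[k] s) (A.nx^[k] t) → R s t := fun k => by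
    induction k with
    | zero => exact fun _ _ h => h
    | succ k ih => exact fun s t h => hback R hM.cong s t (ih _ _ h)
  obtain ⟨k, hk⟩ := h1 s0
  have hS0 : {u | R A.sg u} ⊆ T k := by
    rcases nest_TL hmin (Tv k) (hcv R hM.cong A.sg) (hk ▸ mv k 0 s0 (T0 ▸ hs0))
      (hM.cong.eqv.refl _) with h | h
    · refine absurd (bw k s0 t0 ?_) hR0
      rw [hk]
      exact h (mv k 0 t0 (T0 ▸ ht0))
    · exact h
  have hle : ∀ s t, R s t → ∃ i, s ∈ T i ∧ t ∈ T i := fun s t h => by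
    obtain ⟨l, hl⟩ := h1 s
    have a : A.nx^[l] s ∈ T k := hS0 (hl ▸ hM.cong.eqv.refl _)
    have b : A.nx^[l] t ∈ T k := hS0 (hl ▸ fw l s t h)
    exact ⟨_, inv l s ▸ mv ((n - 1) * l) k _ a, inv l t ▸ mv ((n - 1) * l) k _ b⟩
  rcases hM.max _ hC hle with h | h
  · refine Set.eq_univ_of_forall fun u => ?_
    obtain ⟨i, a, b⟩ := h u s0
    rwa [meet i 0 s0 b (T0 ▸ hs0), T0] at a
  · exact absurd (h s0 t0 ⟨0, T0 ▸ hs0, T0 ▸ ht0⟩) hR0

end Pool.Agent.MP_61ef33_al.Ctr
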