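import Pool.Agent.MP_61ef33_al.Ctr.St

set_option autoImplicit false

namespace Pool.Agent.MP_61ef33_al.Ctr

theorem sUp (hOrd : SOrd) : SUp := by
  intro S _ A pt R hU hM
  obtain ⟨hlo, hhi, -, hcv⟩ := (hOrd S A).2.2 pt hU
  have hE := hM.cong.eqv
  refine ⟨⟨fun s t hst hs => ?_, fun s t h => ?_, ?_, ?_⟩, fun F hF => ?_⟩
  · simp only [KP.cut, decide_eq_true_eq] at hs ⊢
    exact fun h => hs (hE.symm (hcv R hM.cong A.sg _ _ _ (hE.refl _) (hE.symm h) (hlo s) hst))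
  · simp only [KP.cut, decide_eq_decide]
    exact not_congr ⟨hE.trans (hE.symm h), hE.trans h⟩
  · simp [KP.cut, hE.refl]
  · obtain ⟨s, t, h⟩ := hM.ne
    by_contra h'
    simp only [KP.cut, decide_eq_true_eq, not_exists, not_not] at h'
    exact h (hE.trans (h' s) (hE.symm (h' t)))
  have f1 : F (A.nx A.sg) = true := hF.ne.elim fun s hs => hF.up _ _ (hhi s) hs
  have f2 : ∀ s, F (A.nx s) = true → ¬ R s A.z := fun s hs h => by
    have h1 := hF.sat _ _ (hM.cong.nx _ _ h)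
    rw [A.nx_z, hF.sg, hs] at h1
    exact Bool.noConfusion h1
  have f3 : ∀ s, F (A.nx s) = true → s ≠ A.z := fun s hs e => f2 s hs (e ▸ hE.refl _)
  have f4 : pt A.sg < pt A.z := (hlo _).lt_of_ne (hU.inj.ne (f3 _ f1))
  have f5 : ∀ s, s ≠ A.z → (A.cl s = A.cl A.sg ↔ pt s < pt A.z) := fun s hs =>
    (hU.cl_eq s _ hs (f3 _ f1)).trans (iff_true_right f4)
  have hsat : ∀ x s t, R s t → A.step F x s = A.step F x t := fun x s t h => by
    have h1 := hF.sat _ _ (hM.cong.nx _ _ h)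
    unfold KP.step
    cases e : F (A.nx s)
    · rw [← h1, e, Bool.false_and, Bool.false_and]
    · rw [← h1, e, hM.cong.cl s t h (f2 s e)]
  have h1 : A.UpC R pt (A.step F (A.cl A.sg)) := by
    have e : ∀ s, A.step F (A.cl A.sg) s = true ↔ ¬ (F (A.nx s) = true ∧ A.cl s = A.cl A.sg) :=
      fun s => by cases q : F (A.nx s) <;> simp [KP.step, f1, q]
    refine ⟨fun s t hst => ?_, hsat _, Bool.xor_self _, A.z, (e _).2 fun h => f3 _ h.1 rfl⟩
    rw [e, e]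
    refine mt fun ⟨a1, a2⟩ => ?_
    have a3 := (f5 t (f3 t a1)).1 a2
    have a4 := hst.trans_lt a3
    refine ⟨?_, (f5 s fun q => (q ▸ a4).false).2 a4⟩
    rcases hst.eq_or_lt with q | q
    · rwa [hU.inj q]
    · exact hF.up _ _ (hU.dn s t q a3.le).le a1
  refine ⟨h1, fun u hu => ?_⟩
  by_cases hx : A.cl A.sg = A.cl u
  · exact hx ▸ h1
  have e : ∀ s, A.step F (A.cl u) s = true ↔ F (A.nx s) = true ∧ A.cl s = A.cl u :=
    fun s => by rw [KP.step, beq_false_of_ne hx]; simp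
  refine ⟨fun s t hst => ?_, hsat _, Bool.xor_self _, u, (e _).2 ⟨hu, rfl⟩⟩
  rw [e, e]
  rintro ⟨a1, a2⟩
  have a3 : pt A.z < pt s := (not_lt.1 fun q => hx (((f5 s (f3 s a1)).2 q).symm.trans a2)).lt_of_ne
    (hU.inj.ne (f3 s a1).symm)
  have a4 := a3.trans_le hst
  have a5 : A.cl t ≠ A.cl A.sg := fun q => a4.not_gt ((f5 t fun q => (q ▸ a4).false).1 q)
  refine ⟨?_, (Bool.eq_not_of_ne a5).trans (Bool.eq_not_of_ne (Ne.symm hx)).symm⟩
  rcases hst.eq_or_lt with q | q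
  · rwa [← hU.inj q]
  · exact hF.up _ _ (hU.up s t a3.le q).le a1

end Pool.Agent.MP_61ef33_al.Ctr
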