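import Pool.Agent.MP_61ef33_al.Ctr.St

set_option autoImplicit false

namespace Pool.Agent.MP_61ef33_al.Ctr

section
variable {S : Type} [Finite S] (Q : RC S)

theorem val_W1 {D : Set S} (h : ∀ a ∈ D, ∀ b ∉ D, Q.pt a < Q.pt b) : Q.Val D := by
  obtain ⟨x, h1, h2⟩ := Set.Finite.exists_between' (Set.toFinite (Q.pt '' D))
    (Set.toFinite (Q.pt '' Dᶜ)) (by rintro _ ⟨a, ha, rfl⟩ _ ⟨b, hb, rfl⟩; exact h a ha b hb)
  exact ⟨x, fun s hs => h1 _ ⟨s, hs, rfl⟩, fun s hs => h2 _ ⟨s, hs, rfl⟩⟩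

omit [Finite S] in
theorem lt_W1 (s : S) : Q.lo s < Q.hi s :=
  ⟨fun _ h => le_of_lt (α := ℝ) h, fun h => lt_irrefl (Q.pt s) (h (le_refl (Q.pt s)))⟩

omit [Finite S] in
theorem inj_W1 {s t : S} (h : Q.lo s = Q.lo t) : s = t := by
  refine Q.inj (le_antisymm (not_lt.1 fun e => ?_) (not_lt.1 fun e => ?_))
  · have : t ∈ Q.lo s := e
    rw [h] at this
    exact lt_irrefl (Q.pt t) this
  · have : s ∈ Q.lo t := e
    rw [← h] at this
    exact lt_irrefl (Q.pt s) this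

theorem ex_W1 : ∃ w, Q.IsW w := by
  classical
  let F : ∀ D : Set S, (∀ E, E > D → Pm) → Pm := fun D ih =>
    if h : ∃ s, Q.lo s = D then
      (if Q.ep h.choose then Q.Rf (Q.lo h.choose) * Q.Rf (Q.hi h.choose) else 1) *
        ih (Q.hi h.choose) (h.choose_spec.symm.trans_lt (lt_W1 Q _))
    else 1
  refine ⟨(wellFounded_gt (α := Set S)).fix F, ?_, fun s => ?_⟩
  · rw [WellFounded.fix_eq]
    exact dif_neg fun ⟨s, hs⟩ => lt_irrefl (Q.pt s) (show s ∈ Q.lo s from hs ▸ Set.mem_univ s)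
  · have h : ∃ t, Q.lo t = Q.lo s := ⟨s, rfl⟩
    rw [WellFounded.fix_eq]
    refine (dif_pos h).trans ?_
    beta_reduce
    rw [inj_W1 Q h.choose_spec]

end

theorem sW1 : SW1 := by
  intro S _ Q
  have hv : ∀ s, Q.Val (Q.lo s) ∧ Q.Val (Q.hi s) := fun s =>
    ⟨val_W1 Q fun a ha b hb => lt_of_lt_of_le (α := ℝ) ha (not_lt.1 hb),
      val_W1 Q fun a ha b hb => lt_of_le_of_lt (α := ℝ) ha (not_le.1 hb)⟩
  refine ⟨ex_W1 Q, val_W1 Q fun _ _ b hb => absurd (Set.mem_univ b) hb, hv,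
    fun P h0 h1 D => ?_⟩
  induction D using (wellFounded_gt (α := Set S)).induction with
  | _ D ih =>
    rintro ⟨x, x1, x2⟩
    by_cases hD : D = Set.univ
    · rwa [hD]
    obtain ⟨s, hs, hm⟩ := Set.exists_min_image Dᶜ Q.pt (Set.toFinite _)
      (Set.nonempty_compl.2 hD)
    have e : D = Q.lo s := Set.ext fun t =>
      ⟨fun ht => (x1 t ht).trans (x2 s hs), fun ht => by_contra fun h => (hm t h).not_gt ht⟩
    rw [e]
    exact h1 s (ih _ (e.trans_lt (lt_W1 Q s)) (hv s).2)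

end Pool.Agent.MP_61ef33_al.Ctr
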