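import Pool.Agent.MP_61ef33_al.Ctr.St

set_option autoImplicit false

namespace Pool.Agent.MP_61ef33_al.Ctr

theorem inv_W2 {S : Type} (Q : RC S) (D : Set S) : (Q.Rf D)⁻¹ = Q.Rf D :=
  inv_eq_of_mul_eq_one_right (Q.Rf_mul_self D)

theorem sW2 (hW1 : SW1) : SW2 := by
  intro S _ Q w hw
  obtain ⟨-, hu, hv, ind⟩ := hW1 S Q
  have gen : ∀ D D', Q.Val D → Q.Val D' → Q.Rf D * Q.Rf D' ∈ Q.Ev := fun D D' h h' =>
    Subgroup.subset_closure ⟨D, D', h, h', rfl⟩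
  apply le_antisymm
  · have hE : ∀ D, Q.Val D → w D ∈ Q.Ev := by
      refine ind (fun D => w D ∈ Q.Ev) (by rw [hw.1]; exact Q.Ev.one_mem) fun s hs => ?_
      rw [hw.2 s]
      refine Q.Ev.mul_mem ?_ hs
      split_ifs
      · exact gen _ _ (hv s).1 (hv s).2
      · exact Q.Ev.one_mem
    rw [Subgroup.closure_le]
    rintro _ ⟨s, rfl⟩
    exact Q.Ev.mul_mem (Q.Ev.mul_mem (Q.Ev.inv_mem (hE _ (hv s).2)) (gen _ _ (hv s).2 (hv s).1))
      (hE _ (hv s).2)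
  · set H := Subgroup.closure (Set.range (Q.al w)) with hH
    have hal : ∀ s, Q.al w s ∈ H := fun s => Subgroup.subset_closure ⟨s, rfl⟩
    have key : ∀ D, Q.Val D → w D ∈ H ∧ Q.Rf Set.univ * Q.Rf D ∈ H := by
      refine ind (fun D => w D ∈ H ∧ Q.Rf Set.univ * Q.Rf D ∈ H)
        ⟨by rw [hw.1]; exact H.one_mem, by rw [Q.Rf_mul_self]; exact H.one_mem⟩ fun s hs => ?_
      have e : Q.Rf (Q.hi s) * Q.Rf (Q.lo s) = w (Q.hi s) * Q.al w s * (w (Q.hi s))⁻¹ := by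
        unfold RC.al; group
      have h1 : Q.Rf (Q.hi s) * Q.Rf (Q.lo s) ∈ H := by
        rw [e]; exact H.mul_mem (H.mul_mem hs.1 (hal s)) (H.inv_mem hs.1)
      have h2 : Q.Rf (Q.lo s) * Q.Rf (Q.hi s) ∈ H := by
        have := H.inv_mem h1
        rwa [mul_inv_rev, inv_W2, inv_W2] at this
      refine ⟨?_, ?_⟩
      · rw [hw.2 s]
        refine H.mul_mem ?_ hs.1
        split_ifs
        · exact h2
        · exact H.one_mem
      · have e2 : Q.Rf Set.univ * Q.Rf (Q.lo s) =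
            (Q.Rf Set.univ * Q.Rf (Q.hi s)) * (Q.Rf (Q.hi s) * Q.Rf (Q.lo s)) := by
          rw [mul_assoc, ← mul_assoc (Q.Rf (Q.hi s)), Q.Rf_mul_self, one_mul]
        rw [e2]
        exact H.mul_mem hs.2 h1
    unfold RC.Ev
    rw [Subgroup.closure_le]
    rintro _ ⟨D, D', h, h', rfl⟩
    have e : Q.Rf D * Q.Rf D' = (Q.Rf Set.univ * Q.Rf D)⁻¹ * (Q.Rf Set.univ * Q.Rf D') := by
      rw [mul_inv_rev, inv_W2, inv_W2, mul_assoc, ← mul_assoc (Q.Rf Set.univ), Q.Rf_mul_self,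
        one_mul]
    rw [SetLike.mem_coe, e]
    exact H.mul_mem (H.inv_mem (key D h).2) (key D' h').2

end Pool.Agent.MP_61ef33_al.Ctr
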