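import Pool.Agent.MP_61ef33_al.Ctr.St

set_option autoImplicit false

namespace Pool.Agent.MP_61ef33_al.Ctr

/-- `g` sends the subtree at `b` to the subtree at `b'` by `g'` -/
def At_W3 (g : Pm) (b b' : Bool) (g' : Pm) : Prop := ∀ v, g (b :: v) = b' :: g' v

theorem At_W3.one (b : Bool) : At_W3 1 b b 1 := fun _ => rfl

theorem At_W3.mul {g h g' h' : Pm} {b b' b'' : Bool} (h1 : At_W3 g b' b'' g')
    (h2 : At_W3 h b b' h') : At_W3 (g * h) b b'' (g' * h') := fun v => by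
  rw [Equiv.Perm.mul_apply, h2, h1, Equiv.Perm.mul_apply]

theorem At_W3.inv {g g' : Pm} {b b' : Bool} (h : At_W3 g b b' g') : At_W3 g⁻¹ b' b g'⁻¹ :=
  fun v => by
    rw [Equiv.Perm.inv_eq_iff_eq, h]
    simp

theorem At_W3.of_eq {g g' g'' : Pm} {b b' : Bool} (h : At_W3 g b b' g') (e : g' = g'') :
    At_W3 g b b' g'' := e ▸ h

/-- lengths are preserved -/
def LP_W3 (g : Pm) : Prop := ∀ v, (g v).length = v.length

theorem LP_W3.mul {g h : Pm} (h1 : LP_W3 g) (h2 : LP_W3 h) : LP_W3 (g * h) :=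
  fun v => (h1 (h v)).trans (h2 v)

theorem LP_W3.inv {g : Pm} (h : LP_W3 g) : LP_W3 g⁻¹ := fun v => by
  have := h (g⁻¹ v)
  simpa using this.symm

/-- the conjugating map -/
def hh_W3 (ρ : Pm) : List Bool → List Bool
  | [] => []
  | true :: v => true :: hh_W3 ρ v
  | false :: v => false :: ρ (hh_W3 ρ v)

theorem hh_inj_W3 (ρ : Pm) : Function.Injective (hh_W3 ρ) := by
  intro v
  induction v with
  | nil =>
    rintro (_ | ⟨_ | _, v'⟩) h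
    · rfl
    · simp [hh_W3] at h
    · simp [hh_W3] at h
  | cons b v ih =>
    rintro (_ | ⟨b', v'⟩) h
    · cases b <;> simp [hh_W3] at h
    · cases b <;> cases b' <;> simp [hh_W3] at h <;> rw [ih h]

theorem hh_surj_W3 {ρ : Pm} (hρ : LP_W3 ρ) : Function.Surjective (hh_W3 ρ) := by
  have key : ∀ (n : ℕ) (v : List Bool), v.length = n → ∃ u, hh_W3 ρ u = v := by
    intro n
    induction n with
    | zero =>
      intro v hv
      exact ⟨[], (List.length_eq_zero_iff.1 hv).symm⟩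
    | succ n ih =>
      rintro (_ | ⟨_ | _, v⟩) hv
      · simp at hv
      · obtain ⟨u, hu⟩ := ih (ρ⁻¹ v) (by rw [hρ.inv]; simpa using hv)
        exact ⟨false :: u, by simp [hh_W3, hu]⟩
      · obtain ⟨u, hu⟩ := ih v (by simpa using hv)
        exact ⟨true :: u, by simp [hh_W3, hu]⟩
  exact fun v => key _ v rfl

section
variable {S : Type} (Q : RC S)

theorem rinv_W3 (D : Set S) : (Q.Rf D)⁻¹ = Q.Rf D := inv_eq_of_mul_eq_one_right (Q.Rf_mul_self D)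

theorem rr_W3 (D : Set S) (x : Pm) : Q.Rf D * (Q.Rf D * x) = x := by
  rw [← mul_assoc, Q.Rf_mul_self, one_mul]

theorem at_r_W3 {D : Set S} (h : D ≠ ∅) (b : Bool) : At_W3 (Q.Rf D) b b (Q.Rf (Q.ph b D)) :=
  fun v => by simp [RC.Rf_apply, RC.r, h]

theorem at_e_W3 (b : Bool) : At_W3 (Q.Rf ∅) b (!b) 1 := fun v => by simp [RC.Rf_apply, RC.r]

theorem hi_ne_W3 (s : S) : Q.hi s ≠ ∅ := Set.Nonempty.ne_empty ⟨s, le_refl (Q.pt s)⟩

theorem lo_sg_W3 : Q.lo Q.A.sg = ∅ :=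
  Set.eq_empty_of_forall_notMem fun t ht => by
    have h : Q.pt t < Q.pt Q.A.sg := ht
    rw [Q.pt_sg] at h
    exact absurd (Q.c_le t) (not_le.2 h)

theorem lo_ne_W3 {u : S} (h : u ≠ Q.A.z) : Q.lo (Q.A.nx u) ≠ ∅ :=
  Set.Nonempty.ne_empty ⟨Q.A.sg, lt_of_le_of_ne (Q.pt_sg.le.trans (Q.c_le _)) fun e =>
    h (Q.A.nx.injective (by rw [Q.A.nx_z]; exact (Q.inj e).symm))⟩

theorem pt_ne_W3 {u : S} (h : u ≠ Q.A.z) : Q.pt u ≠ 0 := fun e => h (Q.inj (e.trans Q.z0.symm))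

theorem sq_inj_W3 {t u : S} (h : Q.pt t ^ 2 = Q.pt u ^ 2) : Q.pt t = Q.pt u := by
  rw [Q.A.nx.injective (Q.inj (by rw [Q.hnx, Q.hnx, h]) : Q.A.nx t = Q.A.nx u)]

theorem ph_t_W3 {D : Set S} (h : D ≠ ∅) (t : S) :
    t ∈ Q.ph true D ↔ Q.pt t ≤ 0 ∨ Q.A.nx t ∈ D := by simp [RC.ph, h]

theorem ph_f_W3 {D : Set S} (h : D ≠ ∅) (t : S) :
    t ∈ Q.ph false D ↔ Q.pt t < 0 ∧ Q.A.nx t ∉ D := by simp [RC.ph, h]

theorem nx_hi_W3 (t u : S) : Q.A.nx t ∈ Q.hi (Q.A.nx u) ↔ |Q.pt t| ≤ |Q.pt u| := by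
  show Q.pt (Q.A.nx t) ≤ Q.pt (Q.A.nx u) ↔ _
  rw [Q.hnx, Q.hnx, add_le_add_iff_right, sq_le_sq]

theorem nx_lo_W3 (t u : S) : Q.A.nx t ∈ Q.lo (Q.A.nx u) ↔ |Q.pt t| < |Q.pt u| := by
  show Q.pt (Q.A.nx t) < Q.pt (Q.A.nx u) ↔ _
  rw [Q.hnx, Q.hnx, add_lt_add_iff_right, sq_lt_sq]

theorem abs_inj_W3 {t u : S} (h : |Q.pt t| = |Q.pt u|) : Q.pt t = Q.pt u :=
  sq_inj_W3 Q ((sq_eq_sq_iff_abs_eq_abs _ _).2 h)

theorem mem_hi_W3 (t u : S) : t ∈ Q.hi u ↔ Q.pt t ≤ Q.pt u := Iff.rfl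

theorem mem_lo_W3 (t u : S) : t ∈ Q.lo u ↔ Q.pt t < Q.pt u := Iff.rfl

theorem th_W3 {u : S} (h : 0 ≤ Q.pt u) : Q.ph true (Q.hi (Q.A.nx u)) = Q.hi u := by
  ext t
  rw [ph_t_W3 Q (hi_ne_W3 Q _), nx_hi_W3, mem_hi_W3, abs_of_nonneg h, abs_le]
  constructor
  · rintro (k | k)
    · linarith
    · exact k.2
  · intro k
    exact (le_total _ _).imp_right fun k' => ⟨by linarith, k⟩

theorem fh_W3 {u : S} (h : Q.pt u ≤ 0) : Q.ph false (Q.hi (Q.A.nx u)) = Q.lo u := by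
  ext t
  rw [ph_f_W3 Q (hi_ne_W3 Q _), nx_hi_W3, mem_lo_W3, abs_of_nonpos h, not_le]
  constructor
  · rintro ⟨k1, k2⟩
    rw [abs_of_neg k1] at k2
    linarith
  · intro k
    have k1 : Q.pt t < 0 := by linarith
    rw [abs_of_neg k1]
    exact ⟨k1, by linarith⟩

theorem pos_W3 {u : S} (hu : u ≠ Q.A.z) (h : 0 < Q.pt u) :
    Q.ph true (Q.lo (Q.A.nx u)) = Q.lo u ∧
      Q.ph false (Q.lo (Q.A.nx u)) = Q.ph false (Q.hi (Q.A.nx u)) := by
  constructor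
  · ext t
    rw [ph_t_W3 Q (lo_ne_W3 Q hu), nx_lo_W3, mem_lo_W3, abs_of_pos h, abs_lt]
    constructor
    · rintro (k | k)
      · linarith
      · exact k.2
    · intro k
      exact (le_total _ _).imp_right fun k' => ⟨by linarith, k⟩
  · ext t
    rw [ph_f_W3 Q (lo_ne_W3 Q hu), ph_f_W3 Q (hi_ne_W3 Q _), nx_lo_W3, nx_hi_W3, not_lt, not_le]
    refine and_congr_right fun k => ⟨fun k' => lt_of_le_of_ne k' fun e => ?_, le_of_lt⟩
    have := abs_inj_W3 Q e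
    linarith

theorem neg_W3 {u : S} (hu : u ≠ Q.A.z) (h : Q.pt u < 0) :
    Q.ph false (Q.lo (Q.A.nx u)) = Q.hi u ∧
      Q.ph true (Q.lo (Q.A.nx u)) = Q.ph true (Q.hi (Q.A.nx u)) := by
  constructor
  · ext t
    rw [ph_f_W3 Q (lo_ne_W3 Q hu), nx_lo_W3, mem_hi_W3, abs_of_neg h, not_lt]
    constructor
    · rintro ⟨k1, k2⟩
      rw [abs_of_neg k1] at k2
      linarith
    · intro k
      have k1 : Q.pt t < 0 := by linarith
      rw [abs_of_neg k1]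
      exact ⟨k1, by linarith⟩
  · ext t
    rw [ph_t_W3 Q (lo_ne_W3 Q hu), ph_t_W3 Q (hi_ne_W3 Q _), nx_lo_W3, nx_hi_W3]
    refine ⟨Or.imp_right le_of_lt, fun k => k.elim Or.inl fun k' => ?_⟩
    refine k'.eq_or_lt.imp_left fun e => ?_
    have := abs_inj_W3 Q e
    linarith

end

theorem sW3 (hW1 : SW1) : SW3 := by
  intro S _ Q w _ hw
  obtain ⟨-, -, hval, hind⟩ := hW1 S Q
  obtain ⟨ρ, hρ⟩ : ∃ ρ, ρ = Q.Rf ∅ * w ∅ := ⟨_, rfl⟩
  have hR : ∀ D, LP_W3 (Q.Rf D) := fun D v => Q.r_length v D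
  have hLP : ∀ D, Q.Val D → LP_W3 (w D) := by
    refine hind (fun D => LP_W3 (w D)) (by rw [hw.1]; exact fun _ => rfl) fun s hs => ?_
    rw [hw.2]
    refine LP_W3.mul ?_ hs
    split_ifs
    · exact (hR _).mul (hR _)
    · exact fun _ => rfl
  have hρL : LP_W3 ρ := by
    rw [hρ]
    refine (hR _).mul (hLP _ ?_)
    rw [← lo_sg_W3 Q]
    exact (hval _).1
  have hb : ∀ D, Q.Val D → D ≠ ∅ → At_W3 (w D) true true (w (Q.ph true D)) ∧
      At_W3 (w D) false false (Q.Rf (Q.ph false D) * w (Q.ph false D) * ρ⁻¹) := by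
    refine hind (fun D => D ≠ ∅ → At_W3 (w D) true true (w (Q.ph true D)) ∧
      At_W3 (w D) false false (Q.Rf (Q.ph false D) * w (Q.ph false D) * ρ⁻¹)) (fun h => ?_)
      fun s hs h => ?_
    · have e1 : Q.ph true Set.univ = Set.univ := by
        ext t
        simp [ph_t_W3 Q h]
      have e2 : Q.ph false Set.univ = ∅ := by
        ext t
        simp [ph_f_W3 Q h]
      rw [e1, e2, ← hρ, mul_inv_cancel, hw.1]
      exact ⟨At_W3.one _, At_W3.one _⟩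
    · obtain ⟨u, rfl⟩ := Q.A.nx.surjective s
      have hu : u ≠ Q.A.z := fun e => h (by rw [e, Q.A.nx_z, lo_sg_W3])
      obtain ⟨h1, h2⟩ := hs (hi_ne_W3 Q _)
      have k : ∀ b, At_W3 (if Q.ep (Q.A.nx u) then Q.Rf (Q.lo (Q.A.nx u)) * Q.Rf (Q.hi (Q.A.nx u))
          else 1) b b (if Q.ep (Q.A.nx u) then Q.Rf (Q.ph b (Q.lo (Q.A.nx u))) *
            Q.Rf (Q.ph b (Q.hi (Q.A.nx u))) else 1) := fun b => by
        split_ifs
        · exact (at_r_W3 Q h b).mul (at_r_W3 Q (hi_ne_W3 Q _) b)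
        · exact At_W3.one b
      rw [hw.2]
      refine ⟨((k true).mul h1).of_eq ?_, ((k false).mul h2).of_eq ?_⟩ <;>
        rcases (pt_ne_W3 Q hu).lt_or_gt with p | p <;> rw [Q.hep u hu]
      · rw [(neg_W3 Q hu p).2, Q.Rf_mul_self, ite_self, one_mul]
      · rw [(pos_W3 Q hu p).1, th_W3 Q p.le, hw.2]
        simp [p.not_gt]
      · rw [(neg_W3 Q hu p).1, fh_W3 Q p.le, hw.2]
        cases Q.ep u <;> simp [p, mul_assoc, rr_W3]
      · rw [(pos_W3 Q hu p).2, Q.Rf_mul_self, ite_self, one_mul]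
  have hal : ∀ u, u ≠ Q.A.z →
      At_W3 (Q.al w (Q.A.nx u)) true true (if 0 < Q.pt u then Q.al w u else 1) ∧
      At_W3 (Q.al w (Q.A.nx u)) false false (if 0 < Q.pt u then 1 else ρ * Q.al w u * ρ⁻¹) := by
    intro u hu
    obtain ⟨h1, h2⟩ := hb _ (hval (Q.A.nx u)).2 (hi_ne_W3 Q _)
    have k := fun b => (at_r_W3 Q (hi_ne_W3 Q (Q.A.nx u)) b).mul (at_r_W3 Q (lo_ne_W3 Q hu) b)
    refine ⟨((h1.inv.mul (k true)).mul h1).of_eq ?_, ((h2.inv.mul (k false)).mul h2).of_eq ?_⟩ <;>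
      rcases (pt_ne_W3 Q hu).lt_or_gt with p | p
    · rw [(neg_W3 Q hu p).2, Q.Rf_mul_self, mul_one, inv_mul_cancel, if_neg p.not_gt]
    · rw [(pos_W3 Q hu p).1, th_W3 Q p.le, if_pos p, RC.al]
    · rw [(neg_W3 Q hu p).1, fh_W3 Q p.le, if_neg p.not_gt, RC.al, hw.2]
      cases Q.ep u <;> simp [mul_assoc, rr_W3, rinv_W3]
    · rw [(pos_W3 Q hu p).2, Q.Rf_mul_self, mul_one, inv_mul_cancel, if_pos p]
  have hsg : At_W3 (Q.al w Q.A.sg) true false (ρ * if Q.ep Q.A.z then Q.al w Q.A.z else 1) ∧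
      At_W3 (Q.al w Q.A.sg) false true ((if Q.ep Q.A.z then 1 else Q.al w Q.A.z) * ρ⁻¹) := by
    obtain ⟨h1, h2⟩ := hb _ (hval Q.A.sg).2 (hi_ne_W3 Q _)
    have e1 := th_W3 Q Q.z0.ge
    have e2 := fh_W3 Q Q.z0.le
    rw [Q.A.nx_z] at e1 e2
    have k := fun b => (at_r_W3 Q (hi_ne_W3 Q Q.A.sg) (!b)).mul (at_e_W3 Q b)
    rw [RC.al, lo_sg_W3]
    refine ⟨((h2.inv.mul (k true)).mul h1).of_eq ?_, ((h1.inv.mul (k false)).mul h2).of_eq ?_⟩
    · rw [Bool.not_true, e1, e2, RC.al, hw.2]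
      cases Q.ep Q.A.z <;> simp [mul_assoc, rr_W3, rinv_W3]
    · rw [Bool.not_false, e1, e2, RC.al, hw.2]
      cases Q.ep Q.A.z <;> simp [mul_assoc, rr_W3]
  have key : ∀ (v : List Bool) (s : S),
      Q.al w s (hh_W3 ρ v) = hh_W3 ρ (Q.A.ga.act v (s, false)) := by
    intro v
    induction v with
    | nil =>
      intro s
      exact List.length_eq_zero_iff.1 (((hLP _ (hval s).2).inv.mul ((hR _).mul (hR _))).mul
        (hLP _ (hval s).2) [])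
    | cons b v ih =>
      intro s
      obtain ⟨u, rfl⟩ := Q.A.nx.surjective s
      by_cases hu : u = Q.A.z
      · rw [hu, Q.A.nx_z]
        have e' : Q.A.nx.symm Q.A.sg = Q.A.z := rfl
        cases b
        · rw [hh_W3, hsg.2]
          cases h : Q.ep Q.A.z <;> simp [GA.act, KP.ga, e', Q.hz, h, hh_W3, ih]
        · rw [hh_W3, hsg.1]
          cases h : Q.ep Q.A.z <;> simp [GA.act, KP.ga, e', Q.hz, h, hh_W3, ih]
      · have hs : Q.A.nx u ≠ Q.A.sg := fun e => hu (Q.A.nx.injective (e.trans Q.A.nx_z.symm))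
        cases b
        · rw [hh_W3, (hal u hu).2]
          by_cases p : 0 < Q.pt u <;> simp [GA.act, KP.ga, hs, Q.hcl u hu, p, hh_W3, ih]
        · rw [hh_W3, (hal u hu).1]
          by_cases p : 0 < Q.pt u <;> simp [GA.act, KP.ga, hs, Q.hcl u hu, p, hh_W3, ih]
  refine ⟨Equiv.ofBijective _ ⟨hh_inj_W3 ρ, hh_surj_W3 hρL⟩, fun s => ?_⟩
  exact eq_mul_inv_iff_mul_eq.2 (Equiv.ext fun v => key v s)

end Pool.Agent.MP_61ef33_al.Ctr
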