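import Pool.Agent.MP_61ef33_al.Ctr.Asm
import Pool.Agent.MP_61ef33_al.Ctr.Base
import Pool.Agent.MP_61ef33_al.Ctr.Bij
import Pool.Agent.MP_61ef33_al.Ctr.CaseA
import Pool.Agent.MP_61ef33_al.Ctr.CaseB
import Pool.Agent.MP_61ef33_al.Ctr.Cut
import Pool.Agent.MP_61ef33_al.Ctr.Free
import Pool.Agent.MP_61ef33_al.Ctr.HX
import Pool.Agent.MP_61ef33_al.Ctr.Inc
import Pool.Agent.MP_61ef33_al.Ctr.IntG
import Pool.Agent.MP_61ef33_al.Ctr.Kap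
import Pool.Agent.MP_61ef33_al.Ctr.Key
import Pool.Agent.MP_61ef33_al.Ctr.Lab
import Pool.Agent.MP_61ef33_al.Ctr.Link
import Pool.Agent.MP_61ef33_al.Ctr.Lv
import Pool.Agent.MP_61ef33_al.Ctr.Max
import Pool.Agent.MP_61ef33_al.Ctr.Mid
import Pool.Agent.MP_61ef33_al.Ctr.Mix
import Pool.Agent.MP_61ef33_al.Ctr.Mon
import Pool.Agent.MP_61ef33_al.Ctr.Not
import Pool.Agent.MP_61ef33_al.Ctr.Odd
import Pool.Agent.MP_61ef33_al.Ctr.Ord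
import Pool.Agent.MP_61ef33_al.Ctr.Poly
import Pool.Agent.MP_61ef33_al.Ctr.Prop
import Pool.Agent.MP_61ef33_al.Ctr.Rate
import Pool.Agent.MP_61ef33_al.Ctr.Real
import Pool.Agent.MP_61ef33_al.Ctr.Ren1
import Pool.Agent.MP_61ef33_al.Ctr.Ren2
import Pool.Agent.MP_61ef33_al.Ctr.Ren3
import Pool.Agent.MP_61ef33_al.Ctr.Sm
import Pool.Agent.MP_61ef33_al.Ctr.Split
import Pool.Agent.MP_61ef33_al.Ctr.Step
import Pool.Agent.MP_61ef33_al.Ctr.TA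
import Pool.Agent.MP_61ef33_al.Ctr.TL
import Pool.Agent.MP_61ef33_al.Ctr.Up
import Pool.Agent.MP_61ef33_al.Ctr.W1
import Pool.Agent.MP_61ef33_al.Ctr.W2
import Pool.Agent.MP_61ef33_al.Ctr.W3

set_option autoImplicit false

namespace Pool.Agent.MP_61ef33_al.Ctr

open Polynomial

theorem ta_all : STA :=
  sTA sRate (sInc sSm sRate (sLv sMid) (sCaseA sSm (sLv sMid))
    (sCaseB sSm (sLv sMid) (sKey sMid (sStep sMid))))

theorem sub_all (S : Type) [Finite S] (A : KP S) (pt : S → ℝ) (hU : A.UM pt) (hE : ¬ A.E) :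
    A.Sub Set.univ :=
  sub_Asm sBase (sMax sOrd) (sRen1 sOrd) (sRen2 sOrd) sRen3 (sProp (sSplit sOrd (sTL sOrd)))
    (sCut sOrd (sUp sOrd) (sMix sOrd (sTL sOrd) (sUp sOrd)) sOdd) (sHX sSm) ta_all _ S A pt rfl
    hU hE

theorem ctr_all (c : ℝ) (n : ℕ) (hn : 1 ≤ n) (hc : (fun x : ℝ => x ^ 2 + c)^[n] 0 = 0) (h0 : c ≠ 0)
    (t : ℂ) (ht : t ∉ postcrit (X ^ 2 + C (c : ℂ))) :
    IntermediateGrowth (IMG (X ^ 2 + C (c : ℂ)) t) ↔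
      ¬ ∃ g, 1 ≤ g ∧ ∀ i j, ¬ 2 * g ∣ i → ¬ 2 * g ∣ j → i ≡ j [MOD g] →
        0 < (fun x : ℝ => x ^ 2 + c)^[i] 0 * (fun x : ℝ => x ^ 2 + c)^[j] 0 :=
  main_Asm sReal (sLink sBij (sMon sLab sW1) sW1)
    (fun _ _ Q hS => equiv_Asm sW1 (sW2 sW1) (sW3 sW1) Q hS)
    (fun S _ A pt hS hU => iff_Asm sIntG sPoly sKap sFree sNot A hS (sub_all S A pt hU))
    c n hn hc h0 t ht

end Pool.Agent.MP_61ef33_al.Ctr
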