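import Pool.Agent.MP_61ef33_al.Ctr.St

/- Assembly of the steps. -/

set_option autoImplicit false

namespace Pool.Agent.MP_61ef33_al.Ctr

open Polynomial Air

theorem sub_Asm (hBase : SBase) (hMax : SMax) (h1 : SRen1) (h2 : SRen2) (h3 : SRen3)
    (hProp : SProp) (hCut : SCut) (hHX : SHX) (hTA : STA) (n : ℕ) :
    ∀ (S : Type) [Finite S] (A : KP S) (pt : S → ℝ), Nat.card S = n → A.UM pt → ¬ A.E →
      A.Sub Set.univ := by
  induction n using Nat.strong_induction_on with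
  | _ n ih =>
  intro S _ A pt hn hU hE
  rcases subsingleton_or_nontrivial S with hS | hS
  · exact hBase S A hS
  obtain ⟨R, p, hM, hP, p2, pE⟩ := hMax S A hS
  have p3 : 3 ≤ p := by
    by_contra h
    exact hE (pE (by omega))
  obtain ⟨A', r1, r2⟩ := h1 S A pt R p hU hM.cong hP
  obtain ⟨u, hu⟩ : ∃ u, ¬ R u A.sg := by
    by_contra h
    push Not at h
    obtain ⟨s, t, hst⟩ := hM.ne
    exact hst (hM.cong.eqv.trans (h s) (hM.cong.eqv.symm (h t)))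
  have hlt : Nat.card {s // R s A.sg} < n := hn ▸ Finite.card_subtype_lt hu
  have s0 := h3 S A R p A' hM.cong hP r1
    (ih _ hlt _ A' _ rfl r2 fun e => hE (h2 S A R p A' hM.cong hP r1 e))
  have sB := hProp S A pt R hU hM s0
  obtain ⟨I, _, C, c1, c2, c3⟩ := hCut S A pt R p hU hM hP p3
  obtain ⟨x1, x2⟩ := hHX S I A C (A.cut R) c1 c2 fun b => sB _ fun e => by
    have a1 : A.sg ∈ {s | A.cut R s = b} := e ▸ Set.mem_univ _
    have a2 : u ∈ {s | A.cut R s = b} := e ▸ Set.mem_univ _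
    have a3 := a1.trans a2.symm
    simp [KP.cut, hu, hM.cong.eqv.refl] at a3
  exact fun ε hε => (hTA _ I A.ga C c3 x1 x2 ε hε).comp
    fun W : {W : List (S × Bool) // ∀ a ∈ W, a.1 ∈ Set.univ} => W.1

theorem iff_Asm (hInt : SIntG) (hPoly : SPoly) (hKap : SKap) (hFree : SFree) (hNot : SNot)
    {S : Type} [Fintype S] (A : KP S) (hS : Nontrivial S) (h : ¬ A.E → A.Sub Set.univ) :
    IntermediateGrowth A.ga.G ↔ ¬ A.E := by
  refine ⟨fun hG hE => ?_, fun hE => hInt _ A.ga (fun ε hε => (h hE ε hε).comp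
    fun W : List (S × Bool) => ⟨W, fun _ _ => trivial⟩) (hPoly S A hS)⟩
  obtain ⟨p, _, g, κ, u, a1, a2, a3, a4, a5⟩ := hKap S A hE
  exact hNot _ (hFree S A p g κ u a1 a2 a3 a4 a5) hG

theorem equiv_Asm (hW1 : SW1) (hW2 : SW2) (hW3 : SW3) {S : Type} [Finite S] (Q : RC S)
    (hS : Nontrivial S) : Nonempty (Q.A.ga.G ≃* Q.Ev) := by
  obtain ⟨w, hw⟩ := (hW1 S Q).1
  obtain ⟨h, hh⟩ := hW3 S Q w hS hw
  have e : Q.A.ga.G.map (MulAut.conj h).toMonoidHom = Q.Ev := by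
    rw [← hW2 S Q w hw, GA.G, MonoidHom.map_closure]
    apply le_antisymm <;> rw [Subgroup.closure_le]
    · rintro _ ⟨_, ⟨⟨s, b⟩, rfl⟩, rfl⟩
      have a : Q.al w s ∈ Subgroup.closure (Set.range (Q.al w)) := Subgroup.subset_closure ⟨s, rfl⟩
      rw [hh] at a
      cases b
      · exact a
      · have e' : Q.A.ga.gen (s, true) = (Q.A.ga.gen (s, false))⁻¹ :=
          (Q.A.ga.gen_inv (s, false)).symm
        rw [e', map_inv]
        exact inv_mem a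
    · rintro _ ⟨s, rfl⟩
      exact Subgroup.subset_closure ⟨_, ⟨(s, false), rfl⟩, (hh s).symm⟩
  exact ⟨((MulAut.conj h).subgroupMap _).trans (MulEquiv.subgroupCongr e)⟩

theorem main_Asm (hReal : SReal) (hLink : SLink)
    (hEq : ∀ (S : Type) [Finite S] (Q : RC S), Nontrivial S → Nonempty (Q.A.ga.G ≃* Q.Ev))
    (hIff : ∀ (S : Type) [Fintype S] (A : KP S) (pt : S → ℝ), Nontrivial S → A.UM pt →
      (IntermediateGrowth A.ga.G ↔ ¬ A.E))
    (c : ℝ) (n : ℕ) (hn : 1 ≤ n) (hc : (fun x : ℝ => x ^ 2 + c)^[n] 0 = 0) (h0 : c ≠ 0) (t : ℂ)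
    (ht : t ∉ postcrit (X ^ 2 + C (c : ℂ))) :
    IntermediateGrowth (IMG (X ^ 2 + C (c : ℂ)) t) ↔
      ¬ ∃ g, 1 ≤ g ∧ ∀ i j, ¬ 2 * g ∣ i → ¬ 2 * g ∣ j → i ≡ j [MOD g] →
        0 < (fun x : ℝ => x ^ 2 + c)^[i] 0 * (fun x : ℝ => x ^ 2 + c)^[j] 0 := by
  obtain ⟨S, _, Q, rfl, hU, hS, hE⟩ := hReal c n hn hc
  obtain ⟨e1⟩ := hEq S Q (hS h0)
  obtain ⟨e2⟩ := hLink S Q t ht
  rw [← hE, ← hIff S Q.A Q.pt (hS h0) hU]
  exact ⟨IntermediateGrowth.of_equiv (e1.trans e2).symm, IntermediateGrowth.of_equiv (e1.trans e2)⟩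

end Pool.Agent.MP_61ef33_al.Ctr
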