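import Pool.Agent.Mg.F61ef33.G6578bc
import Pool.Agent.MP_61ef33_al.Air.Cnt

/- Automata whose letters have at most one letter in each section; systems of cuts. -/

set_option autoImplicit false

namespace Pool.Agent.MP_61ef33_al.Ctr

/-- letters, the active ones, sections, inverses -/
structure GA (S : Type) where
  isg : S → Bool
  prev : Bool → S → Option S
  inv : S → S
  isg_inv : ∀ a, isg (inv a) = isg a
  prev_inv : ∀ y a, prev (xor y (isg a)) (inv a) = (prev y a).map inv
  inv_inv : ∀ a, inv (inv a) = a

namespace GA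

variable {S : Type} (A : GA S)

/-- Action of a letter on a vertex of the binary tree. -/
def act : List Bool → S → List Bool
  | [], _ => []
  | x :: w, s => (xor x (A.isg s)) :: (match A.prev x s with
      | none => w
      | some t => act w t)

theorem act_inv (w : List Bool) (s : S) : A.act (A.act w s) (A.inv s) = w := by
  induction w generalizing s with
  | nil => rfl
  | cons x w ih =>
    simp only [act, A.prev_inv, A.isg_inv]
    cases A.prev x s <;> simp [ih]

/-- The generator attached to a letter. -/
def gen (s : S) : Equiv.Perm (List Bool) :=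
  ⟨fun w => A.act w s, fun w => A.act w (A.inv s), fun w => A.act_inv w s,
    fun w => by simpa [A.inv_inv] using A.act_inv w (A.inv s)⟩

theorem gen_apply (s : S) (w : List Bool) : A.gen s w = A.act w s := rfl

theorem gen_inv (s : S) : (A.gen s)⁻¹ = A.gen (A.inv s) := Equiv.ext fun _ => rfl

/-- Value of a word (letters are applied from left to right). -/
def ev : List S → Equiv.Perm (List Bool)
  | [] => 1
  | s :: W => ev W * A.gen s

@[simp] theorem ev_nil : A.ev [] = 1 := rfl
@[simp] theorem ev_cons (s : S) (W : List S) : A.ev (s :: W) = A.ev W * A.gen s := rfl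

theorem ev_append (U V : List S) : A.ev (U ++ V) = A.ev V * A.ev U := by
  induction U with
  | nil => simp
  | cons s U ih => simp [ih, mul_assoc]

/-- Parity of the number of active letters. -/
def par : List S → Bool
  | [] => false
  | s :: W => xor (A.isg s) (par W)

@[simp] theorem par_nil : A.par [] = false := rfl
@[simp] theorem par_cons (s : S) (W : List S) : A.par (s :: W) = xor (A.isg s) (A.par W) := rfl

theorem par_append (U V : List S) : A.par (U ++ V) = xor (A.par U) (A.par V) := by
  induction U with
  | nil => simp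
  | cons s U ih => simp [ih]

/-- Section of a word at a first-level vertex. -/
def sec : List S → Bool → List S
  | [], _ => []
  | s :: W, y => (A.prev y s).toList ++ sec W (xor y (A.isg s))

@[simp] theorem sec_nil (y : Bool) : A.sec [] y = [] := rfl
theorem sec_cons (s : S) (W : List S) (y : Bool) :
    A.sec (s :: W) y = (A.prev y s).toList ++ A.sec W (xor y (A.isg s)) := rfl

theorem sec_append (U V : List S) (y : Bool) :
    A.sec (U ++ V) y = A.sec U y ++ A.sec V (xor y (A.par U)) := by
  induction U generalizing y with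
  | nil => simp
  | cons s U ih => simp [sec_cons, ih]

@[simp] theorem ev_apply_nil (W : List S) : A.ev W [] = [] := by
  induction W with
  | nil => rfl
  | cons s W ih => simpa [gen_apply, act] using ih

theorem ev_apply_cons (W : List S) (y : Bool) (v : List Bool) :
    A.ev W (y :: v) = xor y (A.par W) :: A.ev (A.sec W y) v := by
  induction W generalizing y v with
  | nil => simp
  | cons s W ih =>
    simp only [ev_cons, Equiv.Perm.mul_apply, gen_apply, act, ih, par_cons, sec_cons, ev_append,
      Bool.xor_assoc]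
    congr 2
    cases A.prev y s with
    | none => simp
    | some t => simp [gen_apply]

theorem par_eq_of_ev {U V : List S} (h : A.ev U = A.ev V) : A.par U = A.par V := by
  have h1 := A.ev_apply_cons U false []
  rw [h, A.ev_apply_cons] at h1
  simpa using (List.cons.inj h1).1.symm

theorem sec_eq_of_ev {U V : List S} (h : A.ev U = A.ev V) (y : Bool) :
    A.ev (A.sec U y) = A.ev (A.sec V y) := by
  ext1 v
  have h1 := A.ev_apply_cons U y v
  rw [h, A.ev_apply_cons] at h1
  exact (List.cons.inj h1).2.symm

theorem ev_eq_of_sec {U V : List S} (hp : A.par U = A.par V)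
    (h : ∀ y, A.ev (A.sec U y) = A.ev (A.sec V y)) : A.ev U = A.ev V := by
  ext1 v
  cases v with
  | nil => simp
  | cons y v => rw [ev_apply_cons, ev_apply_cons, hp, h]

theorem mem_sec {W : List S} {y : Bool} {t : S} (h : t ∈ A.sec W y) :
    ∃ s ∈ W, ∃ y', A.prev y' s = some t := by
  induction W generalizing y with
  | nil => simp at h
  | cons s W ih =>
    rw [sec_cons, List.mem_append] at h
    rcases h with h | h
    · exact ⟨s, by simp, y, by simpa using h⟩
    · obtain ⟨u, h1, h2⟩ := ih h
      exact ⟨u, List.mem_cons_of_mem _ h1, h2⟩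

theorem par_of_not {W : List S} (hW : ∀ s ∈ W, A.isg s = false) : A.par W = false := by
  induction W with
  | nil => rfl
  | cons s W ih => simp [ih fun u hu => hW u (by simp [hu]), hW s (by simp)]

theorem mem_sec_of_not {W : List S} (hW : ∀ s ∈ W, A.isg s = false) {y : Bool} {t : S}
    (h : t ∈ A.sec W y) : ∃ s ∈ W, A.prev y s = some t := by
  induction W with
  | nil => simp at h
  | cons s W ih =>
    rw [sec_cons, List.mem_append, hW s (by simp)] at h
    rcases h with h | h
    · exact ⟨s, by simp, by simpa using h⟩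
    · obtain ⟨u, h1, h2⟩ := ih (fun u hu => hW u (by simp [hu])) (by simpa using h)
      exact ⟨u, List.mem_cons_of_mem _ h1, h2⟩

/-- The group generated by the letters. -/
def G : Subgroup (Equiv.Perm (List Bool)) := Subgroup.closure (Set.range A.gen)

/-- The cut values seen at those letters that are read at the parity `e`. -/
def lifted (F : S → Bool) : Bool → List S → List Bool
  | _, [] => []
  | e, s :: W => (F s && !e) :: lifted F (xor e (A.isg s)) W

/-- Crossings of the cut `F` taking place at parity `e`. -/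
def Nc (F : S → Bool) (e a : Bool) (W : List S) (b : Bool) : ℕ :=
  crs (a && !e) (A.lifted F e W) (b && !(xor e (A.par W)))

theorem Nc_add {F : S → Bool} (hF : ∀ s, A.isg s = true → F s = false) (e a : Bool) (W : List S)
    (b : Bool) : A.Nc F e a W b + A.Nc F (!e) a W b = crs a (W.map F) b := by
  unfold Nc
  induction W generalizing e a with
  | nil => cases e <;> cases a <;> cases b <;> simp [lifted, bd]
  | cons s W ih =>
    cases h : A.isg s
    · have := ih e (F s)
      simp only [lifted, h, par_cons, List.map_cons, crs_cons, Bool.xor_false,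
        Bool.false_xor] at this ⊢
      rw [← this]
      cases e <;> cases a <;> cases F s <;> simp [bd] <;> omega
    · have := ih (!e) false
      simp only [lifted, hF s h, h, par_cons, List.map_cons, crs_cons] at this ⊢
      rw [← this]
      cases e <;> cases a <;> simp [bd] <;> omega

theorem sec_sublist {F F' : S → Bool} {x : Bool}
    (h : ∀ y s t, A.prev y s = some t → F' t = (F s && (y == x))) (W : List S) (y : Bool) :
    ((A.sec W y).map F').Sublist (A.lifted F (xor x y) W) := by
  induction W generalizing y with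
  | nil => simp [lifted]
  | cons s W ih =>
    rw [sec_cons, lifted, List.map_append, Bool.xor_assoc]
    cases e : A.prev y s with
    | none => simpa using (ih _).cons _
    | some t =>
      have : F' t = (F s && !(xor x y)) := by
        rw [h y s t e]; cases x <;> cases y <;> rfl
      simpa [this] using ih _

theorem lifted_append (F : S → Bool) (e : Bool) (U V : List S) :
    A.lifted F e (U ++ V) = A.lifted F e U ++ A.lifted F (xor e (A.par U)) V := by
  induction U generalizing e with
  | nil => simp [lifted]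
  | cons s U ih => simp [lifted, ih]

/-- A finite system of cuts closed under pull-back with two cycles of lengths `L`, `L + 1` through
the same cut, and weights of letters. -/
structure CS (I : Type) where
  F : I → S → Bool
  pa : I ≃ I
  x : I → Bool
  fl : I → Bool
  om : S → ℕ
  hsg : ∀ i s, A.isg s = true → F i s = false
  hF : ∀ i y s t, A.prev y s = some t → F i t = xor (F (pa i) s && (y == x i)) (fl i)
  om_le : ∀ s, om s ≤ 1
  hom : ∀ s, (A.prev false s).elim 0 om + (A.prev true s).elim 0 om ≤ om s
  i0 : I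
  i1 : I
  j1 : I
  L : ℕ
  h01 : F i0 = F i1
  hj1 : pa j1 = i1
  hL0 : pa^[L] i0 = i0
  hL1 : pa^[L] i1 = j1

/-- Group elements with two end positions. -/
abbrev XT (I : Type) : Type := (I → Bool) × Set.range A.ev × (I → Bool)

def cls {I : Type} (t : WT S I) : A.XT I := (t.a, ⟨A.ev t.W, t.W, rfl⟩, t.b)

theorem cls_eq {I : Type} {t u : WT S I} :
    A.cls t = A.cls u ↔ t.a = u.a ∧ A.ev t.W = A.ev u.W ∧ t.b = u.b := by
  simp [cls]

theorem cls_surj {I : Type} (x : A.XT I) : ∃ t, A.cls t = x := by
  obtain ⟨a, ⟨g, W, rfl⟩, b⟩ := x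
  exact ⟨⟨a, W, b⟩, rfl⟩

theorem cls_comp {I : Type} {t u t' u' : WT S I} (h : A.cls t = A.cls t') (h' : A.cls u = A.cls u') :
    A.cls (t.comp u) = A.cls (t'.comp u') := by
  rw [cls_eq] at *
  simp [WT.comp, ev_append, h, h']

namespace CS

variable {A} {I : Type} (C : A.CS I)

def lp (a : I → Bool) (y : Bool) : I → Bool :=
  fun i => xor (a (C.pa i) && (y == C.x i)) (C.fl i)

def child (t : WT S I) (y : Bool) : WT S I :=
  ⟨C.lp t.a y, A.sec t.W y, C.lp t.b (xor y (A.par t.W))⟩

def cr (i : I) (t : WT S I) : ℕ := crs (t.a i) (t.W.map (C.F i)) (t.b i)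

def N (i : I) (e : Bool) (t : WT S I) : ℕ := A.Nc (C.F i) e (t.a i) t.W (t.b i)

def pos (s : S) : I → Bool := fun i => C.F i s

theorem N_add (i : I) (e : Bool) (t : WT S I) : C.N i e t + C.N i (!e) t = C.cr i t :=
  A.Nc_add (C.hsg i) _ _ _ _

theorem cr_child_le (j : I) (t : WT S I) (y : Bool) :
    C.cr j (C.child t y) ≤ C.N (C.pa j) (xor (C.x j) y) t := by
  have h := crs_sublist (A.sec_sublist (F := C.F (C.pa j)) (F' := fun s => xor (C.F j s) (C.fl j))
    (x := C.x j) (fun y s t e => by rw [C.hF j y s t e]; simp) t.W y)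
    (t.a (C.pa j) && (y == C.x j)) (t.b (C.pa j) && (xor y (A.par t.W) == C.x j))
  rw [← crs_xor _ _ (C.fl j), List.map_map] at h
  have e : ((fun c => xor c (C.fl j)) ∘ fun s => xor (C.F j s) (C.fl j)) = C.F j := by
    funext s; simp
  rw [e] at h
  refine h.trans (le_of_eq ?_)
  unfold N Nc
  congr 2
  · cases y <;> cases C.x j <;> rfl
  · cases y <;> cases C.x j <;> cases A.par t.W <;> rfl

theorem child_comp (t u : WT S I) (y : Bool) :
    C.child (t.comp u) y = (C.child t y).comp (C.child u (xor y (A.par t.W))) := by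
  simp [child, WT.comp, sec_append, par_append]

theorem cr_comp_le (i : I) {t u : WT S I} (h : t.b = u.a) :
    C.cr i (t.comp u) ≤ C.cr i t + C.cr i u := by
  unfold cr WT.comp
  simp only [List.map_append]
  rw [← h]
  exact crs_append_le _ _ _ _ _

theorem N_comp_le (i : I) (e : Bool) {t u : WT S I} (h : t.b = u.a) :
    C.N i e (t.comp u) ≤ C.N i e t + C.N i (xor e (A.par t.W)) u := by
  unfold N Nc WT.comp
  simp only [lifted_append, par_append, ← Bool.xor_assoc]
  rw [← h]
  exact crs_append_le _ _ _ _ _

/-- Total crossings of a cut over all descendants of depth `D`. -/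
def crD (i : I) : ℕ → WT S I → ℕ
  | 0, t => C.cr i t
  | D + 1, t => crD i D (C.child t false) + crD i D (C.child t true)

theorem crD_comp_le (i : I) (D : ℕ) {t u : WT S I} (h : t.b = u.a) :
    C.crD i D (t.comp u) ≤ C.crD i D t + C.crD i D u := by
  induction D generalizing t u with
  | zero => exact C.cr_comp_le i h
  | succ D ih =>
    simp only [crD, child_comp]
    have h1 := ih (t := C.child t false) (u := C.child u (xor false (A.par t.W)))
      (by simp [child, h])
    have h2 := ih (t := C.child t true) (u := C.child u (xor true (A.par t.W)))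
      (by simp [child, h])
    revert h1 h2
    cases A.par t.W <;> simp <;> omega

/-- total weight of the letters -/
def ws (W : List S) : ℕ := (W.map C.om).sum

theorem ws_append (U V : List S) : C.ws (U ++ V) = C.ws U + C.ws V := by simp [ws]

theorem ws_le (W : List S) : C.ws W ≤ W.length := by
  induction W with
  | nil => exact le_rfl
  | cons s W ih => have := C.om_le s; simp only [ws, List.map_cons, List.sum_cons,
      List.length_cons] at ih ⊢; omega

theorem ws_sec (W : List S) (y : Bool) : C.ws (A.sec W y) + C.ws (A.sec W (!y)) ≤ C.ws W := by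
  induction W generalizing y with
  | nil => exact le_rfl
  | cons s W ih =>
    have h1 := ih (xor y (A.isg s))
    have h2 := C.hom s
    have e : ∀ o : Option S, C.ws o.toList = o.elim 0 C.om := fun o => by cases o <;> simp [ws]
    have e' : C.ws (s :: W) = C.om s + C.ws W := by simp [ws]
    rw [sec_cons, sec_cons, ws_append, ws_append, e, e, e', Bool.not_xor]
    cases y <;> simp only [Bool.not_false, Bool.not_true] <;> omega

theorem cr_child_add_le (j : I) (t : WT S I) :
    C.cr j (C.child t false) + C.cr j (C.child t true) ≤ C.cr (C.pa j) t := by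
  have h1 := C.cr_child_le j t false
  have h2 := C.cr_child_le j t true
  have h3 := C.N_add (C.pa j) (C.x j) t
  simp only [Bool.xor_false, Bool.xor_true] at h1 h2
  omega

variable [Fintype I]

def len (t : WT S I) : ℕ := ∑ i, C.cr i t + C.ws t.W

def lenD : ℕ → WT S I → ℕ
  | 0, t => C.len t
  | D + 1, t => lenD D (C.child t false) + lenD D (C.child t true)

theorem lenD_zero (t : WT S I) : C.lenD 0 t = C.len t := rfl

theorem lenD_succ (D : ℕ) (t : WT S I) :
    C.lenD (D + 1) t = C.lenD D (C.child t false) + C.lenD D (C.child t true) := rfl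

theorem sum_child_le (t : WT S I) :
    ∑ i, C.cr i (C.child t false) + ∑ i, C.cr i (C.child t true) ≤ ∑ i, C.cr i t := by
  rw [← Finset.sum_add_distrib, ← Equiv.sum_comp C.pa (fun i => C.cr i t)]
  exact Finset.sum_le_sum fun j _ => C.cr_child_add_le j t

theorem len_child_le (t : WT S I) : C.len (C.child t false) + C.len (C.child t true) ≤ C.len t := by
  have h1 := C.sum_child_le t
  have h2 : C.ws (C.child t false).W + C.ws (C.child t true).W ≤ _ := C.ws_sec t.W false
  unfold len
  omega

theorem lenD_le (D : ℕ) (t : WT S I) : C.lenD D t ≤ C.len t := by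
  induction D generalizing t with
  | zero => exact le_rfl
  | succ D ih =>
    rw [lenD_succ]
    exact (Nat.add_le_add (ih _) (ih _)).trans (C.len_child_le t)

theorem len_comp_le {t u : WT S I} (h : t.b = u.a) : C.len (t.comp u) ≤ C.len t + C.len u := by
  have h1 : ∑ i, C.cr i (t.comp u) ≤ ∑ i, C.cr i t + ∑ i, C.cr i u := by
    rw [← Finset.sum_add_distrib]
    exact Finset.sum_le_sum fun i _ => C.cr_comp_le i h
  have h2 : C.ws (t.comp u).W = _ := C.ws_append t.W u.W
  unfold len
  omega

theorem lenD_comp_le (D : ℕ) {t u : WT S I} (h : t.b = u.a) :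
    C.lenD D (t.comp u) ≤ C.lenD D t + C.lenD D u := by
  induction D generalizing t u with
  | zero => exact C.len_comp_le h
  | succ D ih =>
    simp only [lenD, child_comp]
    have h1 := ih (t := C.child t false) (u := C.child u (xor false (A.par t.W)))
      (by simp [child, h])
    have h2 := ih (t := C.child t true) (u := C.child u (xor true (A.par t.W)))
      (by simp [child, h])
    revert h1 h2
    cases A.par t.W <;> simp <;> omega

/-- No crossing is lost at any depth. -/
def Perf (t : WT S I) : Prop := ∀ D, C.lenD D t = C.len t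

variable {C}

theorem Perf.child {t : WT S I} (h : C.Perf t) (y : Bool) : C.Perf (C.child t y) := by
  intro D
  have h1 := h (D + 1)
  rw [lenD_succ] at h1
  have h2 := C.lenD_le D (C.child t false)
  have h3 := C.lenD_le D (C.child t true)
  have h4 := C.len_child_le t
  cases y <;> omega

theorem Perf.cr_child {t : WT S I} (h : C.Perf t) (j : I) (y : Bool) :
    C.cr j (C.child t y) = C.N (C.pa j) (xor (C.x j) y) t := by
  have h1 := h 1
  rw [lenD_succ, lenD_zero, lenD_zero] at h1
  replace h1 : ∑ i, C.cr i (C.child t false) + ∑ i, C.cr i (C.child t true) = ∑ i, C.cr i t := by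
    have a := C.sum_child_le t
    have b : C.ws (C.child t false).W + C.ws (C.child t true).W ≤ _ := C.ws_sec t.W false
    unfold len at h1
    omega
  rw [← Finset.sum_add_distrib, ← Equiv.sum_comp C.pa (fun i => C.cr i t)] at h1
  have h2 := (Finset.sum_eq_sum_iff_of_le fun j _ => C.cr_child_add_le j t).1 h1 j
    (Finset.mem_univ _)
  have a1 := C.cr_child_le j t false
  have a2 := C.cr_child_le j t true
  have h3 := C.N_add (C.pa j) (C.x j) t
  simp only [Bool.xor_false, Bool.xor_true] at a1 a2
  cases y
  · simp only [Bool.xor_false]; omega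
  · simp only [Bool.xor_true]; omega

theorem Perf.crD {t : WT S I} (h : C.Perf t) (i : I) (D : ℕ) :
    C.crD i D t = C.cr (C.pa^[D] i) t := by
  induction D generalizing t with
  | zero => rfl
  | succ D ih =>
    rw [CS.crD, ih (h.child _), ih (h.child _), h.cr_child, h.cr_child,
      Function.iterate_succ_apply', ← C.N_add _ (C.x (C.pa^[D] i))]
    simp

variable (C) in
/-- Lengths add up. -/
def Add (t u : WT S I) : Prop := t.b = u.a ∧ C.len (t.comp u) = C.len t + C.len u

theorem Add.cr {t u : WT S I} (h : C.Add t u) (i : I) : C.cr i (t.comp u) = C.cr i t + C.cr i u := by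
  have h1 : ∑ i, C.cr i (t.comp u) = ∑ i, C.cr i t + ∑ i, C.cr i u := by
    have a := h.2
    have b : C.ws (t.comp u).W = _ := C.ws_append t.W u.W
    unfold len at a
    omega
  rw [← Finset.sum_add_distrib] at h1
  exact (Finset.sum_eq_sum_iff_of_le fun j _ => C.cr_comp_le j h.1).1 h1 i (Finset.mem_univ _)

theorem Add.N {t u : WT S I} (h : C.Add t u) (i : I) (e : Bool) :
    C.N i e (t.comp u) = C.N i e t + C.N i (xor e (A.par t.W)) u := by
  have h1 := h.cr i
  have h2 := C.N_comp_le i e h.1
  have h3 := C.N_comp_le i (!e) h.1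
  have h4 := C.N_add i e t
  have h5 := C.N_add i (xor e (A.par t.W)) u
  have h6 := C.N_add i e (t.comp u)
  rw [Bool.not_xor] at h3
  omega

theorem Add.perf_left {t u : WT S I} (h : C.Add t u) (hp : C.Perf (t.comp u)) : C.Perf t := by
  intro D
  have h1 := hp D
  have h2 := C.lenD_comp_le D h.1
  have h3 := C.lenD_le D t
  have h4 := C.lenD_le D u
  have := h.2
  omega

theorem Add.perf_right {t u : WT S I} (h : C.Add t u) (hp : C.Perf (t.comp u)) : C.Perf u := by
  intro D
  have h1 := hp D
  have h2 := C.lenD_comp_le D h.1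
  have h3 := C.lenD_le D t
  have h4 := C.lenD_le D u
  have := h.2
  omega

theorem Add.child {t u : WT S I} (h : C.Add t u) (hp : C.Perf (t.comp u)) (y : Bool) :
    C.Add (C.child t y) (C.child u (xor y (A.par t.W))) := by
  have hm : ∀ y, (C.child t y).b = (C.child u (xor y (A.par t.W))).a := fun y => by
    simp [CS.child, h.1]
  refine ⟨hm y, ?_⟩
  have h1 := hp 1
  rw [lenD_succ, lenD_zero, lenD_zero, child_comp, child_comp] at h1
  have h2 := C.len_comp_le (hm false)
  have h3 := C.len_comp_le (hm true)
  have h4 := C.len_child_le t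
  have h5 := C.len_child_le u
  have := h.2
  revert h1 h2 h3
  cases y <;> cases A.par t.W <;> simp <;> omega

variable (C) in
theorem add_cut (a b : I → Bool) (U V : List S) (w : S) :
    C.Add ⟨a, U, C.pos w⟩ ⟨C.pos w, w :: V, b⟩ := by
  refine ⟨rfl, ?_⟩
  have h1 : ∑ i, C.cr i ⟨a, U ++ w :: V, b⟩ =
      ∑ i, C.cr i ⟨a, U, C.pos w⟩ + ∑ i, C.cr i ⟨C.pos w, w :: V, b⟩ := by
    rw [← Finset.sum_add_distrib]
    exact Finset.sum_congr rfl fun i _ => by simp [CS.cr, crs_append_cons, pos]
  have h2 := C.ws_append U (w :: V)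
  simp only [len, WT.comp]
  omega

variable (C)

theorem exists_geo (x : A.XT I) : ∃ t, A.cls t = x ∧ ∀ u, A.cls u = x → C.len t ≤ C.len u := by
  obtain ⟨t0, h0⟩ := A.cls_surj x
  obtain ⟨t, h1, h2⟩ := (InvImage.wf C.len wellFounded_lt).has_min {t | A.cls t = x} ⟨t0, h0⟩
  exact ⟨t, h1, fun u hu => not_lt.1 (h2 u hu)⟩

noncomputable def geo (x : A.XT I) : WT S I := (C.exists_geo x).choose

theorem cls_geo (x : A.XT I) : A.cls (C.geo x) = x := (C.exists_geo x).choose_spec.1

noncomputable def nrm (x : A.XT I) : ℕ := C.len (C.geo x)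

theorem nrm_le (t : WT S I) : C.nrm (A.cls t) ≤ C.len t := (C.exists_geo _).choose_spec.2 t rfl

noncomputable def ch (x : A.XT I) (y : Bool) : A.XT I := A.cls (C.child (C.geo x) y)

omit [Fintype I] in
theorem cls_child {t u : WT S I} (h : A.cls t = A.cls u) (y : Bool) :
    A.cls (C.child t y) = A.cls (C.child u y) := by
  rw [cls_eq] at *
  simp [child, h.1, h.2.2, A.par_eq_of_ev h.2.1, A.sec_eq_of_ev h.2.1]

theorem ch_cls (t : WT S I) (y : Bool) : C.ch (A.cls t) y = A.cls (C.child t y) :=
  C.cls_child (C.cls_geo _) y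

theorem nonexp (x : A.XT I) : C.nrm (C.ch x false) + C.nrm (C.ch x true) ≤ C.nrm x :=
  (Nat.add_le_add (C.nrm_le _) (C.nrm_le _)).trans (C.len_child_le _)

theorem nD_le (D : ℕ) (t : WT S I) : nD C.nrm C.ch D (A.cls t) ≤ C.lenD D t := by
  induction D generalizing t with
  | zero => exact C.nrm_le t
  | succ D ih => rw [nD, ch_cls, ch_cls, lenD_succ]; exact Nat.add_le_add (ih _) (ih _)

theorem nD_comp_le (D : ℕ) {t u : WT S I} (h : t.b = u.a) : nD C.nrm C.ch D (A.cls (t.comp u)) ≤
    nD C.nrm C.ch D (A.cls t) + nD C.nrm C.ch D (A.cls u) := by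
  induction D generalizing t u with
  | zero =>
    simp only [nD]
    rw [← A.cls_comp (C.cls_geo (A.cls t)) (C.cls_geo (A.cls u))]
    refine (C.nrm_le _).trans (C.len_comp_le ?_)
    rw [(A.cls_eq.1 (C.cls_geo (A.cls t))).2.2, (A.cls_eq.1 (C.cls_geo (A.cls u))).1, h]
  | succ D ih =>
    simp only [nD, ch_cls, child_comp]
    have h1 := ih (t := C.child t false) (u := C.child u (xor false (A.par t.W)))
      (by simp [child, h])
    have h2 := ih (t := C.child t true) (u := C.child u (xor true (A.par t.W)))
      (by simp [child, h])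
    revert h1 h2
    cases A.par t.W <;> simp <;> omega

theorem len_le (t : WT S I) : C.len t ≤ (Fintype.card I + 1) * (t.W.length + 1) := by
  have h1 : ∑ i, C.cr i t ≤ Fintype.card I * (t.W.length + 1) := by
    rw [← Finset.card_univ, ← smul_eq_mul]
    refine Finset.sum_le_card_nsmul _ _ _ fun i _ => ?_
    simpa [cr] using crs_le_length (t.a i) (t.b i) (t.W.map (C.F i))
  have h2 := C.ws_le t.W
  unfold len
  rw [add_mul]
  omega

theorem len_cons (a b : I → Bool) (s : S) (W : List S) : C.len ⟨a, s :: W, b⟩ =
    (∑ i, bd (a i) (C.pos s i) + C.om s) + C.len ⟨C.pos s, W, b⟩ := by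
  simp only [len, cr, Finset.sum_add_distrib, pos, List.map_cons, crs_cons, ws, List.sum_cons]
  omega

theorem len_nil (a : I → Bool) : C.len ⟨a, [], a⟩ = 0 := by simp [len, cr, ws]

theorem exists_cut (t : WT S I) (M : ℕ) (h : M + (Fintype.card I + 1) ≤ C.len t) :
    ∃ t1 t2, t = t1.comp t2 ∧ C.Add t1 t2 ∧ M ≤ C.len t1 ∧
      C.len t1 ≤ M + (Fintype.card I + 1) := by
  obtain ⟨a, W, b⟩ := t
  induction W generalizing a M with
  | nil =>
    have h1 := C.len_le ⟨a, [], b⟩
    have e := C.len_nil a
    refine ⟨⟨a, [], a⟩, ⟨a, [], b⟩, rfl, ⟨rfl, by rw [e]; simp [WT.comp]⟩, ?_, by omega⟩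
    simp at h1; omega
  | cons s W ih =>
    have e0 := C.len_cons a b s W
    have hd : ∑ i, bd (a i) (C.pos s i) ≤ Fintype.card I := by
      rw [← Finset.card_univ, ← mul_one Finset.univ.card, ← smul_eq_mul]
      exact Finset.sum_le_card_nsmul _ _ _ fun i _ => bd_le _ _
    have ho := C.om_le s
    by_cases hM : M ≤ ∑ i, bd (a i) (C.pos s i) + C.om s
    · have e1 := C.len_cons a (C.pos s) s []
      have e := C.len_nil (C.pos s)
      exact ⟨⟨a, [s], C.pos s⟩, ⟨C.pos s, W, b⟩, rfl, ⟨rfl, by
        simp only [WT.comp, List.singleton_append]; omega⟩, by omega, by omega⟩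
    · obtain ⟨⟨a1, W1, b1⟩, t2, h1, h2, h3, h4⟩ :=
        ih (M - (∑ i, bd (a i) (C.pos s i) + C.om s)) (C.pos s) (by omega)
      have h5 := h2.2
      rw [← h1] at h5
      simp only [WT.comp, WT.mk.injEq] at h1
      obtain ⟨rfl, rfl, rfl⟩ := h1
      have e1 := C.len_cons a b1 s W1
      exact ⟨⟨a, s :: W1, b1⟩, t2, rfl, ⟨h2.1, by
        simp only [WT.comp, List.cons_append]; omega⟩, by omega, by omega⟩

theorem geo_pieces {t u : WT S I} (h : C.Add t u) (hg : C.len (t.comp u) = C.nrm (A.cls (t.comp u))) :
    C.len t = C.nrm (A.cls t) ∧ C.len u = C.nrm (A.cls u) := by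
  have h1 := C.nD_comp_le 0 h.1
  simp only [nD] at h1
  have h2 := C.nrm_le t
  have h3 := C.nrm_le u
  have := h.2
  omega

theorem inc_pieces {t u : WT S I} (h : C.Add t u) (hg : C.len (t.comp u) = C.nrm (A.cls (t.comp u)))
    (hi : ∀ E, nD C.nrm C.ch E (A.cls (t.comp u)) = C.nrm (A.cls (t.comp u))) :
    (∀ E, nD C.nrm C.ch E (A.cls t) = C.nrm (A.cls t)) ∧
      ∀ E, nD C.nrm C.ch E (A.cls u) = C.nrm (A.cls u) := by
  have h0 := C.geo_pieces h hg
  have key : ∀ E, nD C.nrm C.ch E (A.cls t) = C.nrm (A.cls t) ∧
      nD C.nrm C.ch E (A.cls u) = C.nrm (A.cls u) := by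
    intro E
    have h1 := C.nD_comp_le E h.1
    have h2 := nD_anti C.nonexp (A.cls t) (Nat.zero_le E)
    have h3 := nD_anti C.nonexp (A.cls u) (Nat.zero_le E)
    simp only [nD] at h2 h3
    have := hi E
    have := h.2
    omega
  exact ⟨fun E => (key E).1, fun E => (key E).2⟩

theorem perf_of_inc {t : WT S I} (hg : C.len t = C.nrm (A.cls t))
    (hi : ∀ E, nD C.nrm C.ch E (A.cls t) = C.nrm (A.cls t)) : C.Perf t := by
  intro D
  have h1 := C.nD_le D t
  have h2 := C.lenD_le D t
  have := hi D
  omega

theorem nrm_geo (x : A.XT I) : C.len (C.geo x) = C.nrm (A.cls (C.geo x)) := by rw [cls_geo]; rfl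

omit [Fintype I] in
/-- The size parameter. -/
def n (t : WT S I) : ℕ := C.cr C.i1 t

theorem n_le_len (t : WT S I) : C.n t ≤ C.len t :=
  (Finset.single_le_sum (f := fun i => C.cr i t) (fun _ _ => Nat.zero_le _)
    (Finset.mem_univ C.i1)).trans (Nat.le_add_right _ _)


omit [Fintype I] in
/-- The additive error in the halving of the size. -/
def c3 : ℕ := 4 * 2 ^ C.L + 12

omit [Fintype I] in
/-- Thresholds. -/
def th : ℕ → ℕ
  | 0 => 3
  | k + 1 => 2 * th k + C.c3

omit [Fintype I] in
/-- the descendants of depth `j` -/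
def lv : ℕ → WT S I → List (WT S I)
  | 0, t => [t]
  | j + 1, t => lv j (C.child t false) ++ lv j (C.child t true)

omit [Fintype I] in
/-- the parities above depth `j` -/
def bits : ℕ → WT S I → List Bool
  | 0, _ => []
  | j + 1, t => A.par t.W :: (bits j (C.child t false) ++ bits j (C.child t true))

/-- A perfect additive triple product. -/
structure Tri (P m Y : WT S I) : Prop where
  ad2 : C.Add m Y
  ad1 : C.Add P (m.comp Y)
  perf : C.Perf (P.comp (m.comp Y))

/-- complete stays inside the basic cluster are odd -/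
def Odd : Prop := ∀ t : WT S I, C.Perf t → t.a C.i1 = true → t.b C.i1 = true → t.W ≠ [] →
  (∀ s ∈ t.W, C.F C.i1 s = false) → A.par t.W = true

/-- the norm is proper -/
def Prp : Prop := ∃ z : ℕ, ∀ t : WT S I, ∃ W : List S, A.ev W = A.ev t.W ∧
  W.length ≤ z * (C.len t + 1)

/-- words with boundedly many stays grow subexponentially -/
def HX : Prop := ∀ (c : ℕ) (ε : ℝ), 0 < ε →
  Air.Sm (fun t : {t : WT S I // C.n t ≤ c} => A.ev t.1.W) fun t => ε * C.len t.1

end CS

end GA

end Pool.Agent.MP_61ef33_al.Ctr
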