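import Pool.Agent.MP_61ef33_al.Ctr.St

set_option autoImplicit false

namespace Pool.Agent.MP_61ef33_al.Ctr

theorem it_Kap {S : Type} (A : KP S) (k : ℕ) : A.nx^[k] A.sg = A.nx^[k + 1] A.z := by
  rw [Function.iterate_succ_apply, A.nx_z]

theorem sKap : SKap := by
  intro S _ A ⟨g, hg, hE⟩
  have : NeZero (2 * g) := ⟨by omega⟩
  have h1 : ∀ i, A.nx^[i] A.z = A.z → 2 * g ∣ i := fun i h => by
    by_contra n
    exact (hE i i n n (Nat.ModEq.refl _)).1 h
  have h2 : ∀ k l, k ≤ l → A.nx^[k] A.sg = A.nx^[l] A.sg → (k : ZMod (2 * g)) = l := by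
    intro k l hkl h
    obtain ⟨d, rfl⟩ := Nat.exists_eq_add_of_le hkl
    rw [it_Kap, it_Kap, show k + d + 1 = k + 1 + d by ring,
      Function.iterate_add_apply _ (k + 1) d] at h
    have h3 := h1 d (A.nx.injective.iterate (k + 1) h).symm
    rw [Nat.cast_add, (ZMod.natCast_eq_zero_iff d _).2 h3, add_zero]
  choose κ hκ using A.hc
  have h3 : ∀ k, (κ (A.nx^[k] A.sg) : ZMod (2 * g)) = k := fun k => by
    rcases le_total k (κ (A.nx^[k] A.sg)) with h | h
    · exact (h2 _ _ h (hκ _).symm).symm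
    · exact h2 _ _ h (hκ _)
  have h4 : ∀ i : ZMod (2 * g), ∃ f, ¬ 2 * g ∣ f ∧ f ≡ i.val + 1 [MOD g] := fun i => by
    by_cases e : 2 * g ∣ i.val + 1
    · exact ⟨g, fun h => by have := Nat.le_of_dvd hg h; omega,
        (Nat.modEq_zero_iff_dvd.2 dvd_rfl).trans
          (Nat.modEq_zero_iff_dvd.2 ((Dvd.intro_left 2 rfl).trans e)).symm⟩
    · exact ⟨_, e, Nat.ModEq.refl _⟩
  choose f hf1 hf2 using h4
  have h5 : ∀ n, n % (2 * g) ≡ n [MOD g] := fun n =>
    (Nat.mod_modEq n (2 * g)).of_mul_left 2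
  refine ⟨2 * g, this, g, fun s => κ s, fun i => A.cl (A.nx^[f i] A.z), fun h => ?_, ?_,
    fun s => ?_, fun s hs => ?_, fun i => ?_⟩
  · have := Nat.le_of_dvd hg ((ZMod.natCast_eq_zero_iff g _).1 h)
    omega
  · simpa using h3 0
  · have := h3 (κ s + 1)
    rw [Function.iterate_succ_apply', hκ] at this
    simpa using this
  · have e : ¬ 2 * g ∣ κ s + 1 := fun h => hs (by
      have := (ZMod.natCast_eq_zero_iff _ _).2 h
      push_cast at this
      exact eq_neg_of_add_eq_zero_left this)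
    have := (hE _ _ e (hf1 (κ s)) (((hf2 _).trans (by
      rw [ZMod.val_natCast]
      exact (h5 _).add_right 1)).symm)).2
    rwa [← it_Kap, hκ] at this
  · refine (hE _ _ (hf1 _) (hf1 _) ((hf2 _).trans (Nat.ModEq.trans ?_ (hf2 _).symm))).2
    rw [ZMod.val_add, ZMod.val_natCast]
    refine ((h5 _).trans ?_).add_right 1
    simpa using (Nat.ModEq.refl i.val).add ((h5 g).trans (Nat.modEq_zero_iff_dvd.2 dvd_rfl))

end Pool.Agent.MP_61ef33_al.Ctr
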