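import Pool.Agent.MP_61ef33_al.Ctr.St

set_option autoImplicit false

namespace Pool.Agent.MP_61ef33_al.Ctr

theorem sOrd : SOrd := by
  intro S _ A
  have hper : ∃ n, 0 < n ∧ ∀ s, A.nx^[n] s = s := by
    refine ⟨orderOf (A.nx : Equiv.Perm S), orderOf_pos _, fun s => ?_⟩
    rw [Equiv.Perm.iterate_eq_pow, pow_orderOf_eq_one]
    rfl
  have hit : ∀ R, A.Cong R → ∀ i s t, R s t → R (A.nx^[i] s) (A.nx^[i] t) := by
    intro R hR i
    induction i with
    | zero => exact fun _ _ h => h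
    | succ i ih => exact fun s t h => ih _ _ (hR.nx s t h)
  have hrev : ∀ R, A.Cong R → ∀ s t, R (A.nx s) (A.nx t) → R s t := by
    intro R hR s t h
    obtain ⟨n, hn, h1⟩ := hper
    obtain ⟨m, rfl⟩ : ∃ m, n = m + 1 := ⟨n - 1, by omega⟩
    have := hit R hR m _ _ h
    rwa [← Function.iterate_succ_apply, ← Function.iterate_succ_apply, h1, h1] at this
  refine ⟨hper, hrev, fun pt U => ?_⟩
  have up : ∀ s t, pt A.z ≤ pt s → pt s ≤ pt t → pt (A.nx s) ≤ pt (A.nx t) := by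
    intro s t h1 h2
    rcases h2.eq_or_lt with e | e
    · rw [U.inj e]
    · exact (U.up s t h1 e).le
  have dn : ∀ s t, pt s ≤ pt t → pt t ≤ pt A.z → pt (A.nx t) ≤ pt (A.nx s) := by
    intro s t h1 h2
    rcases h1.eq_or_lt with e | e
    · rw [U.inj e]
    · exact (U.dn s t e h2).le
  have hmin : ∀ s, pt A.sg ≤ pt s := by
    intro s
    obtain ⟨u, rfl⟩ := A.nx.surjective s
    rw [← A.nx_z]
    rcases le_total (pt A.z) (pt u) with h | h
    · exact up _ _ le_rfl h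
    · exact dn _ _ h le_rfl
  have hhull : ∀ X : Set S, (A.z ∈ X ∨ ∀ s ∈ X, ∀ t ∈ X, (pt s < pt A.z ↔ pt t < pt A.z)) →
      A.nx '' hull pt X ⊆ hull pt (A.nx '' X) := by
    rintro X hX _ ⟨b, ⟨a, ha, c, hc, h1, h2⟩, rfl⟩
    rcases hX with hz | hX
    · rcases le_total (pt A.z) (pt b) with h | h
      · exact ⟨_, ⟨_, hz, rfl⟩, _, ⟨_, hc, rfl⟩, up _ _ le_rfl h, up _ _ h h2⟩
      · exact ⟨_, ⟨_, hz, rfl⟩, _, ⟨_, ha, rfl⟩, dn _ _ h le_rfl, dn _ _ h1 h⟩
    · rcases lt_or_ge (pt a) (pt A.z) with h | h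
      · have h3 := ((hX a ha c hc).1 h).le
        exact ⟨_, ⟨_, hc, rfl⟩, _, ⟨_, ha, rfl⟩, dn _ _ h2 h3, dn _ _ h1 (h2.trans h3)⟩
      · exact ⟨_, ⟨_, ha, rfl⟩, _, ⟨_, hc, rfl⟩, up _ _ h h1, up _ _ (h.trans h1) h2⟩
  refine ⟨hmin, fun s => ?_, hhull, fun R hR s a b c ha hc h1 h2 => ?_⟩
  · have : Nonempty S := ⟨s⟩
    obtain ⟨M, hM⟩ := Finite.exists_max pt
    obtain ⟨u, hu⟩ := A.nx.surjective M
    refine (hM s).trans ?_
    rcases le_total (pt u) (pt A.z) with h | h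
    · rw [← hu]
      exact dn _ _ (hmin u) h
    · have h1 := up _ _ h (hM u)
      rw [hu] at h1
      have h2 : A.nx M = M := U.inj (le_antisymm (hM _) h1)
      obtain ⟨k, hk⟩ := A.hc M
      have h3 : A.sg = M :=
        (A.nx.injective.iterate k) (hk.trans (Function.iterate_fixed h2 k).symm)
      rw [h3, h2]
  · have step : ∀ s b, b ∈ hull pt {t | R s t} → A.nx b ∈ hull pt {t | R (A.nx s) t} := by
      intro s b hb
      have h3 : A.z ∈ {t | R s t} ∨ ∀ t ∈ {t | R s t}, ∀ t' ∈ {t | R s t},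
          (pt t < pt A.z ↔ pt t' < pt A.z) := by
        by_cases hz : R s A.z
        · exact Or.inl hz
        · refine Or.inr fun t ht t' ht' => ?_
          refine (U.cl_eq t t' (fun e => hz (e ▸ ht)) (fun e => hz (e ▸ ht'))).1 ?_
          exact hR.cl t t' (hR.eqv.trans (hR.eqv.symm ht) ht') fun h => hz (hR.eqv.trans ht h)
      obtain ⟨_, ⟨x, hx, rfl⟩, _, ⟨y, hy, rfl⟩, h4⟩ := hhull _ h3 ⟨b, hb, rfl⟩
      exact ⟨_, hR.nx _ _ hx, _, hR.nx _ _ hy, h4⟩
    have iter : ∀ i s b, b ∈ hull pt {t | R s t} →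
        A.nx^[i] b ∈ hull pt {t | R (A.nx^[i] s) t} := by
      intro i
      induction i with
      | zero => exact fun _ _ h => h
      | succ i ih => exact fun s b h => ih _ _ (step s b h)
    have back : ∀ i s t, R (A.nx^[i] s) (A.nx^[i] t) → R s t := by
      intro i
      induction i with
      | zero => exact fun _ _ h => h
      | succ i ih => exact fun s t h => hrev R hR _ _ (ih _ _ h)
    obtain ⟨n, hn, h3⟩ := hper
    obtain ⟨k, hk⟩ := A.hc b
    obtain ⟨m, rfl⟩ : ∃ m, n = m + 1 := ⟨n - 1, by omega⟩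
    have h4 : A.nx^[m * k] b = A.sg := by
      rw [← hk, ← Function.iterate_add_apply, ← Nat.succ_mul, Function.iterate_mul]
      exact Function.iterate_fixed (h3 _) k
    obtain ⟨x, hx, -, -, h5, -⟩ := iter (m * k) s b ⟨a, ha, c, hc, h1, h2⟩
    refine back (m * k) s b ?_
    rw [h4] at h5 ⊢
    rw [← U.inj (le_antisymm h5 (hmin x))]
    exact hx

end Pool.Agent.MP_61ef33_al.Ctr
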