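import Pool.Agent.MP_61ef33_al.Ctr.Ga
import Pool.Agent.MP_61ef33_al.Defs4

/- Real quadratic polynomials with a periodic critical point: definitions and statements. -/

set_option autoImplicit false

namespace Pool.Agent.MP_61ef33_al.Ctr

open Polynomial Air

/-- permutations of the vertices of the binary tree -/
abbrev Pm : Type := Equiv.Perm (List Bool)

/-! ### General counting -/

open Classical in
def SSm : Prop :=
  (∀ (A X : Type) (φ : A → X) (c : A → ℝ), Sm φ c → ∃ K : ℝ, 0 ≤ K ∧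
    Sm (fun l : List A => l.map φ) fun l => (l.map c).sum + K * l.length) ∧
  (∀ (A X : Type) (φ : A → X) (c : A → ℝ), Sm φ c → (∀ a, 0 ≤ c a) → ∀ ε : ℝ, 0 < ε →
    ∃ Ξ : Set X, Ξ.Finite ∧ Sm (fun l : List A => l.map fun a => if φ a ∈ Ξ then none else some (φ a))
      fun l => (l.map c).sum + ε * l.length) ∧
  (∀ (A X : Type) (φ : A → X) (c : A → ℝ) (P : A → Prop),
    Sm (fun a : {a // P a} => φ a.1) (fun a => c a.1) →
    Sm (fun a : {a // ¬ P a} => φ a.1) (fun a => c a.1) → Sm φ c)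

def SRate : Prop := ∀ (X : Type) (s : Set X) (f : X → ℕ) (τ : ℝ), 0 ≤ τ →
  (Rate s f τ ↔ ∀ δ : ℝ, 0 < δ → Sm (fun x : s => x.1) fun x => (τ + δ) * f x.1)

/-! ### The abstract theorem -/

def SOdd : Prop := ∀ (S I : Type) [Fintype I] (A : GA S) (C : A.CS I) (k : ℕ) (Cl : ℕ → S → Prop),
  1 ≤ k → (∀ s, C.F C.i1 s = false → Cl 0 s) →
  (∀ m y s t, Cl m s → A.prev y s = some t → Cl (m + 1) t) →
  (∀ m s, 1 ≤ m → m ≤ k → Cl m s → A.isg s = false) →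
  (∀ s, Cl k s → A.prev (C.x (C.pa.symm^[k + 1] C.i1)) s = none) → C.Odd

def SMid : Prop := ∀ (S I : Type) [Fintype I] (A : GA S) (C : A.CS I), C.Odd → ∀ t, C.Perf t →
  (t.a C.i1 = true → t.b C.i1 = true →
    C.N C.i1 false t = C.N C.i1 true t ∧ C.N C.i1 true t % 2 = bd false (A.par t.W)) ∧
  ∀ y, 2 * C.n (C.child t y) ≤ C.n t + C.c3 ∧ C.n t ≤ 2 * C.n (C.child t y) + C.c3

def SStep : Prop := ∀ (S I : Type) [Fintype I] (A : GA S) (C : A.CS I), C.Odd → ∀ P m m' Y,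
  C.Tri P m Y → C.Tri P m' Y → C.n m = C.n m' → C.th (C.L + 1) ≤ C.n P → C.th (C.L + 1) ≤ C.n Y →
  A.par m.W = A.par m'.W ∧ ∀ y, C.n (C.child m y) = C.n (C.child m' y)

open Classical in
def SKey : Prop := ∀ (S I : Type) [Fintype I] (A : GA S) (C : A.CS I), C.Odd →
  ∀ (Ξ : Set Pm) (c0 : ℕ),
  (∀ g ∈ Ξ, ∀ h ∈ Ξ, (∀ v : List Bool, v.length ≤ c0 → g v = h v) → g = h) → ∀ (j : ℕ) P m m' Y,
  C.Tri P m Y → C.Tri P m' Y → C.n m = C.n m' → 2 ^ (j + c0 + C.L + 1) * (3 + C.c3) ≤ C.n P →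
  2 ^ (j + c0 + C.L + 1) * (3 + C.c3) ≤ C.n Y →
  (C.lv j m).map (fun u => if A.ev u.W ∈ Ξ then none else some (A.ev u.W)) =
    (C.lv j m').map (fun u => if A.ev u.W ∈ Ξ then none else some (A.ev u.W)) →
  A.ev m.W = A.ev m'.W

def SLv : Prop := ∀ (S I : Type) [Fintype I] (A : GA S) (C : A.CS I),
  (∀ j t, (C.lv j t).length = 2 ^ j ∧ (C.bits j t).length + 1 = 2 ^ j ∧
    ((C.lv j t).map C.len).sum ≤ C.len t) ∧
  (C.Odd → ∀ j t, C.Perf t → C.n t ≤ 2 ^ j + C.c3 → ∀ u ∈ C.lv j t, C.n u ≤ C.c3 + 1) ∧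
  (∀ j t t', C.bits j t = C.bits j t' →
    (C.lv j t).map (fun u => A.ev u.W) = (C.lv j t').map (fun u => A.ev u.W) →
    A.ev t.W = A.ev t'.W) ∧
  ∀ t M, M ≤ C.n t → ∃ t1 t2, t = t1.comp t2 ∧ C.Add t1 t2 ∧ C.n t1 = M

def SCaseA : Prop := ∀ (S I : Type) [Fintype I] (A : GA S) (C : A.CS I), C.Odd → C.HX →
  ∀ ε : ℝ, 0 < ε → ∃ K : ℝ, 0 ≤ K ∧
    Sm (fun t : {t : WT S I // C.Perf t} => A.ev t.1.W) fun t => ε * C.len t.1 + K * C.n t.1

def SCaseB : Prop := ∀ (S I : Type) [Fintype I] (A : GA S) (C : A.CS I), C.Odd → C.HX →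
  ∀ ε : ℝ, 0 < ε → ∃ (K0 : ℕ) (ψ : WT S I → List (Option Pm)),
    Sm (fun m : {m : WT S I // C.Perf m ∧ ∃ j, C.n m = 2 ^ j} => ψ m.1) (fun m => ε * C.len m.1) ∧
    ∀ P Y m m' (j j' : ℕ), C.Tri P m Y → C.Tri P m' Y → C.n m = 2 ^ j → C.n m' = 2 ^ j' →
      K0 * 2 ^ j ≤ C.n P → K0 * 2 ^ j ≤ C.n Y → ψ m = ψ m' → A.ev m.W = A.ev m'.W

def SInc : Prop := ∀ (S I : Type) [Fintype I] (A : GA S) (C : A.CS I), C.Odd → C.HX →
  ∀ τ : ℝ, 0 < τ → Rate {x | ∀ E, nD C.nrm C.ch E x = C.nrm x} C.nrm τ →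
    ∃ τ' < τ, Rate {x | ∀ E, nD C.nrm C.ch E x = C.nrm x} C.nrm τ'

def STA : Prop := ∀ (S I : Type) [Finite S] [Fintype I] (A : GA S) (C : A.CS I), C.Odd → C.HX →
  C.Prp → ∀ ε : ℝ, 0 < ε → Sm A.ev fun W => ε * W.length

def SIntG : Prop := ∀ (S : Type) [Finite S] (A : GA S),
  (∀ ε : ℝ, 0 < ε → Sm A.ev fun W => ε * W.length) →
  (∀ j : ℕ, ∃ l : Fin j → Pm, (∀ i, l i ∈ A.G) ∧
    Function.Injective fun e : Fin j → ℕ => (List.ofFn fun i => l i ^ e i).prod) →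
  IntermediateGrowth A.G

def SNot : Prop := ∀ (G : Type) [Group G], FreePair G → ¬ IntermediateGrowth G

/-! ### Periodic kneading automata -/

structure KP (S : Type) where
  sg : S
  nx : S ≃ S
  cl : S → Bool
  hc : ∀ s, ∃ k, nx^[k] sg = s

namespace KP

variable {S : Type} (A : KP S)

/-- the critical point -/
def z : S := A.nx.symm A.sg

theorem nx_z : A.nx A.z = A.sg := A.nx.apply_symm_apply _

open Classical in
/-- letters with a sign, `true` for the inverse -/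
noncomputable def ga : GA (S × Bool) where
  isg a := decide (a.1 = A.sg)
  prev y a := if A.cl (A.nx.symm a.1) = xor y (decide (a.1 = A.sg) && a.2) then
    some (A.nx.symm a.1, a.2) else none
  inv a := (a.1, !a.2)
  isg_inv _ := rfl
  prev_inv y a := by
    obtain ⟨s, e⟩ := a
    by_cases h : s = A.sg <;> cases y <;> cases e <;> cases A.cl (A.nx.symm s) <;> simp [h]
  inv_inv a := by simp

open Classical in
theorem isg_eq (a : S × Bool) : A.ga.isg a = decide (a.1 = A.sg) := rfl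

theorem prev_eq_some {y : Bool} {a b : S × Bool} : A.ga.prev y a = some b ↔
    A.nx b.1 = a.1 ∧ b.2 = a.2 ∧ A.cl b.1 = xor y (A.ga.isg a && a.2) := by
  obtain ⟨s, e⟩ := a
  obtain ⟨t, e'⟩ := b
  simp only [ga, Option.ite_none_right_eq_some, Option.some.injEq, Prod.mk.injEq]
  constructor
  · rintro ⟨h, rfl, rfl⟩
    exact ⟨by simp, rfl, h⟩
  · rintro ⟨rfl, rfl, h⟩
    exact ⟨by simpa using h, by simp, rfl⟩

/-- words over `B` grow subexponentially -/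
def Sub (B : Set S) : Prop := ∀ ε : ℝ, 0 < ε →
  Sm (fun W : {W : List (S × Bool) // ∀ a ∈ W, a.1 ∈ B} => A.ga.ev W.1) fun W => ε * W.1.length

/-- a period doubling in the renormalization tower -/
def E : Prop := ∃ g, 1 ≤ g ∧ ∀ i j, ¬ 2 * g ∣ i → ¬ 2 * g ∣ j → i ≡ j [MOD g] →
  A.nx^[i] A.z ≠ A.z ∧ A.cl (A.nx^[i] A.z) = A.cl (A.nx^[j] A.z)

/-- unimodal order -/
structure UM (pt : S → ℝ) : Prop where
  inj : Function.Injective pt
  cl_eq : ∀ s t, s ≠ A.z → t ≠ A.z → (A.cl s = A.cl t ↔ (pt s < pt A.z ↔ pt t < pt A.z))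
  up : ∀ s t, pt A.z ≤ pt s → pt s < pt t → pt (A.nx s) < pt (A.nx t)
  dn : ∀ s t, pt s < pt t → pt t ≤ pt A.z → pt (A.nx t) < pt (A.nx s)

/-- clusters -/
structure Cong (R : S → S → Prop) : Prop where
  eqv : Equivalence R
  nx : ∀ s t, R s t → R (A.nx s) (A.nx t)
  cl : ∀ s t, R s t → ¬ R s A.z → A.cl s = A.cl t

/-- the coarsest clusters -/
structure MaxC (R : S → S → Prop) : Prop where
  cong : A.Cong R
  ne : ∃ s t, ¬ R s t
  max : ∀ R', A.Cong R' → (∀ s t, R s t → R' s t) → (∀ s t, R' s t) ∨ ∀ s t, R' s t → R s t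

/-- the number of clusters -/
structure IsPer (R : S → S → Prop) (p : ℕ) : Prop where
  pos : 0 < p
  per : R (A.nx^[p] A.sg) A.sg
  min : ∀ m, 0 < m → m < p → ¬ R (A.nx^[m] A.sg) A.sg

/-- the first return to the cluster of the active state -/
structure IsRen (R : S → S → Prop) (p : ℕ) (A' : KP {s // R s A.sg}) : Prop where
  sg : A'.sg.1 = A.sg
  nx : ∀ s, (A'.nx s).1 = A.nx^[p] s.1
  cl : ∀ s, A'.cl s = A.cl (A.nx^[p - 1] s.1)

/-- Pull-back of a cut into one class, normalised so that the active state is outside. -/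
def step (F : S → Bool) (x : Bool) : S → Bool := fun s =>
  xor (F (A.nx s) && (A.cl s == x)) (F (A.nx A.sg) && (A.cl A.sg == x))

open Classical in
/-- the basic cut -/
noncomputable def cut (R : S → S → Prop) : S → Bool := fun s => decide (¬ R s A.sg)

/-- cuts at a gap between two clusters -/
structure UpC (R : S → S → Prop) (pt : S → ℝ) (F : S → Bool) : Prop where
  up : ∀ s t, pt s ≤ pt t → F s = true → F t = true
  sat : ∀ s t, R s t → F s = F t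
  sg : F A.sg = false
  ne : ∃ s, F s = true

end KP

/-- order convex sets -/
def Cvx {S : Type} (pt : S → ℝ) (X : Set S) : Prop :=
  ∀ a b c, a ∈ X → c ∈ X → pt a ≤ pt b → pt b ≤ pt c → b ∈ X

/-- the order convex hull -/
def hull {S : Type} (pt : S → ℝ) (X : Set S) : Set S :=
  {b | ∃ a ∈ X, ∃ c ∈ X, pt a ≤ pt b ∧ pt b ≤ pt c}

def SOrd : Prop := ∀ (S : Type) [Finite S] (A : KP S),
  (∃ n, 0 < n ∧ ∀ s, A.nx^[n] s = s) ∧
  (∀ R, A.Cong R → ∀ s t, R (A.nx s) (A.nx t) → R s t) ∧ ∀ pt, A.UM pt →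
  (∀ s, pt A.sg ≤ pt s) ∧ (∀ s, pt s ≤ pt (A.nx A.sg)) ∧
  (∀ X : Set S, (A.z ∈ X ∨ ∀ s ∈ X, ∀ t ∈ X, (pt s < pt A.z ↔ pt t < pt A.z)) →
    A.nx '' hull pt X ⊆ hull pt (A.nx '' X)) ∧
  ∀ R, A.Cong R → ∀ s, Cvx pt {t | R s t}

def STL : Prop := ∀ (S : Type) [Finite S] (A : KP S) (pt : S → ℝ) (R : S → S → Prop), A.UM pt →
  A.MaxC R → ∀ X : Set S, (∀ i, Cvx pt (A.nx^[i] '' X)) → (∃ s ∈ X, ∃ t ∈ X, ¬ R s t) →
  X = Set.univ

def SSplit : Prop := ∀ (S : Type) [Finite S] (A : KP S) (pt : S → ℝ) (R : S → S → Prop),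
  A.UM pt → A.MaxC R → ∀ B : Set S, B ≠ Set.univ → (∃ s ∈ B, ∃ t ∈ B, ¬ R s t) →
  ∃ i, A.nx^[i] A.sg ∉ B ∧ ∃ s t, A.nx^[i + 1] s ∈ B ∧ A.nx^[i + 1] t ∈ B ∧ A.cl s ≠ A.cl t

def SUp : Prop := ∀ (S : Type) [Finite S] (A : KP S) (pt : S → ℝ) (R : S → S → Prop),
  A.UM pt → A.MaxC R → A.UpC R pt (A.cut R) ∧ ∀ F, A.UpC R pt F →
    A.UpC R pt (A.step F (A.cl A.sg)) ∧
    ∀ s, F (A.nx s) = true → A.UpC R pt (A.step F (A.cl s))

def SMix : Prop := ∀ (S : Type) [Finite S] (A : KP S) (pt : S → ℝ) (R : S → S → Prop),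
  A.UM pt → A.MaxC R → ∃ N0, ∀ N, N0 ≤ N → ∀ F, A.UpC R pt F →
    ∃ xs : List Bool, xs.length = N ∧ xs.foldl A.step F = A.cut R

def SCut : Prop := ∀ (S : Type) [Finite S] (A : KP S) (pt : S → ℝ) (R : S → S → Prop) (p : ℕ),
  A.UM pt → A.MaxC R → A.IsPer R p → 3 ≤ p → ∃ (I : Type) (_ : Fintype I) (C : A.ga.CS I),
    (∀ a, C.om a = 1) ∧ (∀ a, C.F C.i1 a = A.cut R a.1) ∧ C.Odd

def SMax : Prop := ∀ (S : Type) [Finite S] (A : KP S), Nontrivial S →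
  ∃ R p, A.MaxC R ∧ A.IsPer R p ∧ 2 ≤ p ∧ (p = 2 → A.E)

def SRen1 : Prop := ∀ (S : Type) [Finite S] (A : KP S) (pt : S → ℝ) (R : S → S → Prop) (p : ℕ),
  A.UM pt → A.Cong R → A.IsPer R p →
    ∃ A' : KP {s // R s A.sg}, A.IsRen R p A' ∧ A'.UM fun s => pt s.1

def SRen2 : Prop := ∀ (S : Type) [Finite S] (A : KP S) (R : S → S → Prop) (p : ℕ)
  (A' : KP {s // R s A.sg}), A.Cong R → A.IsPer R p → A.IsRen R p A' → A'.E → A.E

def SRen3 : Prop := ∀ (S : Type) [Finite S] (A : KP S) (R : S → S → Prop) (p : ℕ)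
  (A' : KP {s // R s A.sg}), A.Cong R → A.IsPer R p → A.IsRen R p A' → A'.Sub Set.univ →
    A.Sub {s | R s A.sg}

def SProp : Prop := ∀ (S : Type) [Finite S] (A : KP S) (pt : S → ℝ) (R : S → S → Prop),
  A.UM pt → A.MaxC R → A.Sub {s | R s A.sg} → ∀ B : Set S, B ≠ Set.univ → A.Sub B

def SHX : Prop := ∀ (S I : Type) [Fintype I] (A : KP S) (C : A.ga.CS I) (F : S → Bool),
  (∀ a, C.om a = 1) → (∀ a, C.F C.i1 a = F a.1) → (∀ b, A.Sub {s | F s = b}) → C.HX ∧ C.Prp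

def SBase : Prop := ∀ (S : Type) (A : KP S), Subsingleton S → A.Sub Set.univ

def SPoly : Prop := ∀ (S : Type) [Finite S] (A : KP S), Nontrivial S → ∀ j : ℕ,
  ∃ l : Fin j → Pm, (∀ i, l i ∈ A.ga.G) ∧
    Function.Injective fun e : Fin j → ℕ => (List.ofFn fun i => l i ^ e i).prod

def SKap : Prop := ∀ (S : Type) [Finite S] (A : KP S), A.E → ∃ (p : ℕ) (_ : NeZero p)
  (g : ZMod p) (κ : S → ZMod p) (u : ZMod p → Bool), g ≠ 0 ∧ κ A.sg = 0 ∧
    (∀ s, κ (A.nx s) = κ s + 1) ∧ (∀ s, κ s ≠ -1 → A.cl s = u (κ s)) ∧ ∀ i, u (i + g) = u i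

def SFree : Prop := ∀ (S : Type) [Fintype S] (A : KP S) (p : ℕ) [NeZero p] (g : ZMod p)
  (κ : S → ZMod p) (u : ZMod p → Bool), g ≠ 0 → κ A.sg = 0 → (∀ s, κ (A.nx s) = κ s + 1) →
    (∀ s, κ s ≠ -1 → A.cl s = u (κ s)) → (∀ i, u (i + g) = u i) → FreePair A.ga.G

/-! ### The real picture -/

/-- a real periodic critical orbit with the directions of the legs -/
structure RC (S : Type) where
  A : KP S
  c : ℝ
  pt : S → ℝ
  ep : S → Bool
  inj : Function.Injective pt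
  z0 : pt A.z = 0
  hnx : ∀ s, pt (A.nx s) = pt s ^ 2 + c
  hcl : ∀ s, s ≠ A.z → A.cl s = decide (0 < pt s)
  hz : A.cl A.z = ep A.z
  hep : ∀ t, t ≠ A.z → ep (A.nx t) = xor (ep t) (decide (pt t < 0))

namespace RC

variable {S : Type} (Q : RC S)

open Classical in
noncomputable def ph (b : Bool) (D : Set S) : Set S :=
  if D = ∅ then ∅ else if b then {s | Q.pt s ≤ 0 ∨ Q.A.nx s ∈ D} else {s | Q.pt s < 0 ∧ Q.A.nx s ∉ D}

open Classical in
noncomputable def r : List Bool → Set S → List Bool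
  | [], _ => []
  | b :: w, D => if D = ∅ then (!b) :: w else b :: r w (Q.ph b D)

theorem r_r (w : List Bool) (D : Set S) : Q.r (Q.r w D) D = w := by
  induction w generalizing D with
  | nil => rfl
  | cons b w ih => by_cases h : D = ∅ <;> simp [r, h, ih]

theorem r_length (w : List Bool) (D : Set S) : (Q.r w D).length = w.length := by
  induction w generalizing D with
  | nil => rfl
  | cons b w ih => by_cases h : D = ∅ <;> simp [r, h, ih]

noncomputable def Rf (D : Set S) : Pm :=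
  Function.Involutive.toPerm (fun w => Q.r w D) fun w => Q.r_r w D

theorem Rf_apply (D : Set S) (w : List Bool) : Q.Rf D w = Q.r w D := rfl

theorem Rf_mul_self (D : Set S) : Q.Rf D * Q.Rf D = 1 := Equiv.ext fun w => Q.r_r w D

/-- the interval to the right of `D` and to the left of its complement -/
def Iv (D : Set S) : Set ℝ := {x | (∀ s ∈ D, Q.pt s < x) ∧ ∀ s ∉ D, x < Q.pt s}

def Val (D : Set S) : Prop := (Q.Iv D).Nonempty

/-- two half planes glued along an interval -/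
def O (D : Set S) : Set ℂ := {z | z.im = 0 → z.re ∈ Q.Iv D}

/-- the even subgroup -/
def Ev : Subgroup Pm := Subgroup.closure {g | ∃ D D', Q.Val D ∧ Q.Val D' ∧ g = Q.Rf D * Q.Rf D'}

open Classical in
/-- the side of a first preimage -/
noncomputable def sd (D : Set S) (w : ℂ) : Bool := decide (0 < if D = ∅ then w.im else w.re)

/-- the label of a preimage of a point of `O D`, continued to the upper half plane -/
noncomputable def U : ℕ → Set S → ℂ → List Bool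
  | 0, _, _ => []
  | m + 1, D, z => sd D ((qc Q.c)^[m] z) ::
      if sd D ((qc Q.c)^[m] z) then U m (Q.ph true D) z
      else Q.r (U m (Q.ph false D) z) (Q.ph false D)

theorem U_length (m : ℕ) (D : Set S) (z : ℂ) : (Q.U m D z).length = m := by
  induction m generalizing D with
  | zero => rfl
  | succ m ih => simp only [U]; split_ifs <;> simp [ih, r_length]

theorem pt_sg : Q.pt Q.A.sg = Q.c := by rw [← Q.A.nx_z, Q.hnx, Q.z0]; ring

theorem c_le (s : S) : Q.c ≤ Q.pt s := by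
  rw [← Q.A.nx.apply_symm_apply s, Q.hnx]; nlinarith [sq_nonneg (Q.pt (Q.A.nx.symm s))]

open Classical in
/-- the Markov property -/
theorem markov {D : Set S} {w : ℂ} (hw : qc Q.c w ∈ Q.O D) :
    (if D = ∅ then w.im else w.re) ≠ 0 ∧ w ∈ Q.O (Q.ph (sd D w) D) := by
  have e1 : (qc Q.c w).im = 2 * w.re * w.im := by simp [qc, sq]; ring
  have e2 : (qc Q.c w).re = w.re ^ 2 - w.im ^ 2 + Q.c := by simp [qc, sq]
  by_cases h0 : D = ∅
  · subst h0
    have : w.im ≠ 0 := fun e => by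
      have := (hw (by rw [e1, e, mul_zero])).2 Q.A.sg (by simp)
      rw [e2, e, Q.pt_sg] at this
      nlinarith [sq_nonneg w.re]
    exact ⟨by simpa using this, fun e => absurd e this⟩
  have hre : w.re ≠ 0 := fun e => by
    obtain ⟨s, hs⟩ := Set.nonempty_iff_ne_empty.2 h0
    have a := (hw (by rw [e1, e]; ring)).1 s hs
    rw [e2, e] at a
    nlinarith [sq_nonneg w.im, Q.c_le s]
  refine ⟨by simpa [h0] using hre, fun e => ?_⟩
  obtain ⟨a1, a2⟩ := hw (by rw [e1, e, mul_zero])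
  rw [e2, e] at a1 a2
  by_cases hs : 0 < w.re
  · have : Q.ph (sd D w) D = {s | Q.pt s ≤ 0 ∨ Q.A.nx s ∈ D} := by simp [ph, sd, h0, hs]
    rw [this]
    refine ⟨fun s h => ?_, fun s h => ?_⟩
    · rcases h with h | h
      · linarith
      · have := a1 _ h
        rw [Q.hnx] at this
        nlinarith
    · simp only [Set.mem_ofPred_eq, not_or, not_le] at h
      have := a2 _ h.2
      rw [Q.hnx] at this
      nlinarith [h.1]
  · have hs' : w.re < 0 := lt_of_le_of_ne (not_lt.1 hs) hre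
    have : Q.ph (sd D w) D = {s | Q.pt s < 0 ∧ Q.A.nx s ∉ D} := by simp [ph, sd, h0, hs]
    rw [this]
    refine ⟨fun s h => ?_, fun s h => ?_⟩
    · have := a2 _ h.2
      rw [Q.hnx] at this
      nlinarith [h.1]
    · by_cases h1 : Q.pt s < 0
      · have := a1 _ (by_contra fun q => h ⟨h1, q⟩)
        rw [Q.hnx] at this
        nlinarith
      · linarith [not_lt.1 h1]

/-- `g` is the monodromy along `γ` in the chart `D` -/
def Mon (D : Set S) (γ : unitInterval → ℂ) (g : Pm) : Prop :=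
  ∀ (m : ℕ) (Γ : unitInterval → ℂ), Continuous Γ → (∀ τ, (qc Q.c)^[m] (Γ τ) = γ τ) →
    Q.U m D (Γ 1) = g (Q.U m D (Γ 0))

def lo (s : S) : Set S := {t | Q.pt t < Q.pt s}

def hi (s : S) : Set S := {t | Q.pt t ≤ Q.pt s}

/-- transport in the complement of the legs -/
def IsW (w : Set S → Pm) : Prop := w Set.univ = 1 ∧
  ∀ s, w (Q.lo s) = (if Q.ep s then Q.Rf (Q.lo s) * Q.Rf (Q.hi s) else 1) * w (Q.hi s)

/-- the loop that crosses one leg -/
noncomputable def al (w : Set S → Pm) (s : S) : Pm :=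
  (w (Q.hi s))⁻¹ * (Q.Rf (Q.hi s) * Q.Rf (Q.lo s)) * w (Q.hi s)

end RC

def SLab : Prop := ∀ (S : Type) (Q : RC S) (m : ℕ) (D : Set S) (z : ℂ),
  (qc Q.c)^[m] z ∈ Q.O D → (∀ᶠ z' in nhds z, Q.U m D z' = Q.U m D z) ∧ ∀ D',
    (0 < ((qc Q.c)^[m] z).im → Q.U m D' z = Q.U m D z) ∧
    (((qc Q.c)^[m] z).im < 0 → Q.U m D' z = (Q.Rf D' * Q.Rf D) (Q.U m D z))

def SBij : Prop := ∀ (S : Type) (Q : RC S) (D : Set S) (t : ℂ), t ∈ Q.O D →
  Function.Bijective fun v : {v : ℕ × ℂ // (qc Q.c)^[v.1] v.2 = t} => Q.U v.1.1 D v.1.2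

def SMon : Prop := ∀ (S : Type) [Finite S] (Q : RC S) (D : Set S) (t : ℂ), Q.Val D → t ∈ Q.O D →
  (∀ γ : Path t t, (∀ τ s, γ τ ≠ Q.pt s) → ∃ g ∈ Q.Ev, Q.Mon D γ g) ∧
    ∀ D1 D2, Q.Val D1 → Q.Val D2 → ∃ γ : Path t t, (∀ τ s, γ τ ≠ Q.pt s) ∧
      Q.Mon D γ (Q.Rf D1 * Q.Rf D2)

def SLink : Prop := ∀ (S : Type) [Finite S] (Q : RC S),
  ∀ t ∉ postcrit (X ^ 2 + C (Q.c : ℂ)), Nonempty (Q.Ev ≃* IMG (X ^ 2 + C (Q.c : ℂ)) t)

def SW1 : Prop := ∀ (S : Type) [Finite S] (Q : RC S), (∃ w, Q.IsW w) ∧ Q.Val Set.univ ∧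
  (∀ s, Q.Val (Q.lo s) ∧ Q.Val (Q.hi s)) ∧
  ∀ P : Set S → Prop, P Set.univ → (∀ s, P (Q.hi s) → P (Q.lo s)) → ∀ D, Q.Val D → P D

def SW2 : Prop := ∀ (S : Type) [Finite S] (Q : RC S) (w : Set S → Pm), Q.IsW w →
  Subgroup.closure (Set.range (Q.al w)) = Q.Ev

def SW3 : Prop := ∀ (S : Type) [Finite S] (Q : RC S) (w : Set S → Pm), Nontrivial S → Q.IsW w →
  ∃ h : Pm, ∀ s, Q.al w s = h * Q.A.ga.gen (s, false) * h⁻¹

def SReal : Prop := ∀ (c : ℝ) (n : ℕ), 1 ≤ n → (fun x : ℝ => x ^ 2 + c)^[n] 0 = 0 →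
  ∃ (S : Type) (_ : Fintype S) (Q : RC S), Q.c = c ∧ Q.A.UM Q.pt ∧ (c ≠ 0 → Nontrivial S) ∧
    (Q.A.E ↔ ∃ g, 1 ≤ g ∧ ∀ i j, ¬ 2 * g ∣ i → ¬ 2 * g ∣ j → i ≡ j [MOD g] →
      0 < (fun x : ℝ => x ^ 2 + c)^[i] 0 * (fun x : ℝ => x ^ 2 + c)^[j] 0)

end Pool.Agent.MP_61ef33_al.Ctr
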