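import Pool.Agent.MP_61ef33_al.Ctr.St

/- The abstract theorem: subexponential growth. -/

set_option autoImplicit false

namespace Pool.Agent.MP_61ef33_al.Ctr

open Air

section

variable {S I : Type} [Fintype I] {A : GA S} (C : A.CS I)

theorem cnt_finite_TA [Finite S] (hP : C.Prp) (k : ℕ) : (cnt Set.univ C.nrm k).Finite := by
  obtain ⟨z, hz⟩ := hP
  refine Set.Finite.of_injOn (f := fun x : A.XT I => (x.1, x.2.1.1, x.2.2))
    (t := Set.univ ×ˢ (A.ev '' {W : List S | W.length ≤ z * (k + 1)}) ×ˢ Set.univ) ?_ ?_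
    (Set.finite_univ.prod (((List.finite_length_le S _).image _).prod Set.finite_univ))
  · intro x hx
    refine ⟨trivial, ?_, trivial⟩
    obtain ⟨W, h2, h1⟩ := hz (C.geo x)
    refine ⟨W, h1.trans ?_, ?_⟩
    · have : C.len (C.geo x) ≤ k := hx.2
      gcongr
    · rw [h2]; conv_rhs => rw [← C.cls_geo x]
      rfl
  · rintro ⟨a, ⟨g, hg⟩, b⟩ _ ⟨a', ⟨g', hg'⟩, b'⟩ _ e
    simpa using e

theorem dec_TA (M D : ℕ) (x : A.XT I) (h : M + (Fintype.card I + 1) ≤ C.nrm x) :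
    ∃ x1 x2, x = A.cls ((C.geo x1).comp (C.geo x2)) ∧
      M ≤ C.nrm x1 ∧ C.nrm x1 ≤ M + (Fintype.card I + 1) ∧ C.nrm x = C.nrm x1 + C.nrm x2 ∧
      nD C.nrm C.ch D x ≤ nD C.nrm C.ch D x1 + nD C.nrm C.ch D x2 := by
  obtain ⟨t1, t2, e, h1, h2, h3⟩ := C.exists_cut (C.geo x) M h
  have hp := C.geo_pieces h1 (e ▸ C.nrm_geo x)
  have ex : x = A.cls (t1.comp t2) := by rw [← e, C.cls_geo]
  refine ⟨A.cls t1, A.cls t2, ?_, by omega, by omega, ?_, ?_⟩
  · rw [ex]; exact A.cls_comp (C.cls_geo _).symm (C.cls_geo _).symm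
  · rw [← hp.1, ← hp.2, ← h1.2, ← e]; rfl
  · rw [ex]; exact C.nD_comp_le D h1.1

theorem rate_all_TA [Finite S] (hInc : SInc) (hO : C.Odd) (hX : C.HX) (hP : C.Prp) :
    Rate Set.univ C.nrm 0 := by
  obtain ⟨t0, h0⟩ := rate_apriori C.nonexp (cnt_finite_TA C hP)
    (fun x1 x2 => A.cls ((C.geo x1).comp (C.geo x2))) (Fintype.card I + 1) (dec_TA C)
  refine criterion C.nonexp (cnt_finite_TA C hP) (fun x => (x.1, x.2.2, A.par (C.geo x).W)) ?_
    (fun x1 x2 => A.cls ((C.geo x1).comp (C.geo x2))) (Fintype.card I + 1) (dec_TA C)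
    (rate_zero (h0.subset (Set.subset_univ _)) (hInc S I A C hO hX))
  intro x y e h0 h1
  simp only [Prod.mk.injEq] at e
  rw [← C.cls_geo x, ← C.cls_geo y, A.cls_eq]
  refine ⟨?_, A.ev_eq_of_sec e.2.2 fun b => ?_, ?_⟩
  · have := e.1
    rwa [← C.cls_geo x, ← C.cls_geo y] at this
  · cases b
    · exact (A.cls_eq.1 h0).2.1
    · exact (A.cls_eq.1 h1).2.1
  · have := e.2.1
    rwa [← C.cls_geo x, ← C.cls_geo y] at this

end

theorem sTA (hRate : SRate) (hInc : SInc) : STA := by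
  intro S I _ _ A C hO hX hP ε hε
  have hc : (0 : ℝ) < Fintype.card I + 1 := by positivity
  have h := (hRate _ _ _ 0 le_rfl).1 (rate_all_TA C hInc hO hX hP)
    (ε / (Fintype.card I + 1)) (by positivity)
  refine (h.comp fun W : List S =>
    ⟨A.cls ⟨fun _ => false, W, fun _ => false⟩, trivial⟩).det ?_ ε ?_
  · intro W W' e
    exact (A.cls_eq.1 e).2.1
  · intro W
    have h1 := (C.nrm_le ⟨fun _ => false, W, fun _ => false⟩).trans (C.len_le _)
    have h2 : (C.nrm (A.cls ⟨fun _ => false, W, fun _ => false⟩) : ℝ)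
        ≤ (Fintype.card I + 1) * (W.length + 1) := by exact_mod_cast h1
    have h3 := mul_le_mul_of_nonneg_left h2 (div_pos hε hc).le
    have h4 : ε / (Fintype.card I + 1) * ((Fintype.card I + 1) * (W.length + 1))
        = ε * W.length + ε := by field_simp
    rw [h4] at h3
    simpa using h3

end Pool.Agent.MP_61ef33_al.Ctr
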